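import Pool.Agent.T9h27.Y.TwFin

/-!
# All windows for the twists (helper27)
-/

set_option autoImplicit false

open Filter Topology MeasureTheory

namespace Pool.Agent.T9h27.Y

open Pool.Agent.T9h27.Z (GoodW NCs consts2)
open Pool.Agent.T9h27.D (NS)
open Pool.Agent.T9h27.W (TwData GM)
open H385 (Rw primFamM primSetM mem_primSetM primFamM_eq primFamM_mono primFamM_lin IX)
open H370 (zset NN Ns Nd mult)

lemma pd_nonneg (d : ℕ) : 0 ≤ pd d := by
  unfold pd
  split_ifs <;> norm_num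

/-- comparison of weighted sums over a block -/
lemma of_Sw {M X Y : ℕ} {f g : IX → ℝ} (h : ∑ p ∈ Sw M X Y, f p.1 ≤ ∑ p ∈ Sw M X Y, g p.1) :
    primFamM M X Y (fun q χ => f ⟨q, χ⟩) ≤ primFamM M X Y (fun q χ => g ⟨q, χ⟩) := by
  rw [sum_Sw, sum_Sw] at h
  have hF : (0 : ℝ) < (Nat.factorial Y : ℝ) ^ 2 := by
    have : (0 : ℝ) < (Nat.factorial Y : ℝ) := by exact_mod_cast Nat.factorial_pos Y
    positivity
  exact le_of_mul_le_mul_left h hF

lemma primFamM_smul (M X Y : ℕ) (a : ℝ) (f : (q : ℕ) → DirichletCharacter ℂ q → ℝ) :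
    primFamM M X Y (fun q χ => a * f q χ) = a * primFamM M X Y f := by
  rw [primFamM_eq, primFamM_eq, Finset.mul_sum]
  exact Finset.sum_congr rfl fun p _ => by ring

section

variable {M : Type} [CommMonoidWithZero M] [NormalizationMonoid M]
    [UniqueFactorizationMonoid M] [Subsingleton Mˣ] [Nontrivial M] {N : M →*₀ ℕ} {n₀ : ℕ}
    {ψ : M →*₀ ℂ} {d : ℕ} {A Λ₀ : ℝ} {M₀ : ℕ}
    {c : (Σ q : ℕ, DirichletCharacter ℂ q) → M →*₀ ℂ}
    {F : (Σ q : ℕ, DirichletCharacter ℂ q) → ℂ → ℂ}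

open Classical in
/-- **all heights and all windows for the twists** -/
theorem micro_tw (hN : NS N n₀) (hD : TwData N ψ d A Λ₀ (GM M₀) c F) (hM₀ : M₀ ≠ 0)
    (hd : d = 2 ∨ d = 3) {A' : ℝ} (hA' : 1 ≤ A') {c₀ : ℕ → ℂ} {B₀ : ℝ} (hB₀ : 0 ≤ B₀)
    (hc₀ : ∀ m, ‖c₀ m‖ ≤ B₀) (hsel : W388.SelE c₀)
    (hgood : ∀ i, GM M₀ i → GoodW d A' (Λ₀ ^ (1 / (d : ℝ)) * i.1) (F i) (ac c₀ i)) :
    ∃ κ : ℝ, 2 ≤ κ ∧
      (∀ X Y : ℕ, 1 ≤ X → κ * X ≤ Y → 1 ≤ primFamM M₀ X Y (fun _ _ => 1)) ∧
      (∀ δ : ℝ, 0 < δ → ∃ B η X₀ : ℝ, 0 < B ∧ 0 < η ∧ 1 ≤ X₀ ∧ ∀ X Y : ℕ, X₀ ≤ (X : ℝ) →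
        κ * (X : ℝ) ≤ (Y : ℝ) → ∀ t H : ℝ, |t| ≤ (X : ℝ) ^ η → B ≤ H * Real.log X →
        H ≤ (X : ℝ) ^ η →
        (∀ (q : ℕ) (χ : DirichletCharacter ℂ q), X < q → Nat.Coprime q M₀ → χ.IsPrimitive →
          (zset (F ⟨q, χ⟩) t (t + H)).Finite) ∧
        primFamM M₀ X Y (fun q χ => |(NN (F ⟨q, χ⟩) t (t + H) : ℝ) -
            d * H / (2 * Real.pi) * Real.log q|) ≤
          δ * primFamM M₀ X Y (fun q _ => d * H / (2 * Real.pi) * Real.log q) ∧
        pd d * primFamM M₀ X Y (fun q χ => (NN (F ⟨q, χ⟩) t (t + H) : ℝ)) ≤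
          primFamM M₀ X Y (fun q χ => (Ns (F ⟨q, χ⟩) t (t + H) : ℝ)) ∧
        (1 + pd d) / 2 * primFamM M₀ X Y (fun q χ => (NN (F ⟨q, χ⟩) t (t + H) : ℝ)) ≤
          primFamM M₀ X Y (fun q χ => (Nd (F ⟨q, χ⟩) t (t + H) : ℝ))) ∧
      (∃ B η X₀ : ℝ, 0 < B ∧ 0 < η ∧ 1 ≤ X₀ ∧ ∀ X Y : ℕ, X₀ ≤ (X : ℝ) →
        κ * (X : ℝ) ≤ (Y : ℝ) → ∀ t H : ℝ, |t| ≤ (X : ℝ) ^ η → B ≤ H * Real.log X →
        pd d * primFamM M₀ X Y (fun _ _ => 1) ≤
          primFamM M₀ X Y (fun q χ => if (∃ s ∈ zset (F ⟨q, χ⟩) t (t + H), s.re = 1 / 2 ∧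
            mult (F ⟨q, χ⟩) s = 1) then 1 else 0)) := by
  have hΛ := hD.hL
  have hΛ0 : 0 < Λ₀ := by linarith
  have hpi := Real.pi_pos
  have hd1 : 1 ≤ d := by omega
  have hd1' : (1 : ℝ) ≤ d := by exact_mod_cast hd1
  obtain ⟨γ, l, D, l₂, g, cf, κ, P, D', h0, hπ, hl, hl2, hl21, hgl, hD1, hconst, hκ, hms, hfd⟩ :=
    fd_tw' hN hD hM₀ hd hA' hB₀ hc₀ hgood
  refine ⟨κ, hκ, hms, fun δ hδ => ?_, ?_⟩
  · obtain ⟨H1, η, X1, hH1, hη, hX1, hwin⟩ := win hsel hfd hl hl2 hl21 hgl (by linarith) h0 hπ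
      hconst (δ := δ / 4) (by positivity)
    obtain ⟨C₁, hC₁⟩ : ∃ C₁ : ℝ, C₁ = Real.log Λ₀ + 3 * d * Real.log κ := ⟨_, rfl⟩
    have hlκ : 0 ≤ Real.log κ := Real.log_nonneg (by linarith)
    have hC₁0 : 0 ≤ C₁ := by
      have := Real.log_nonneg hΛ
      rw [hC₁]
      positivity
    refine ⟨H1, η, max X1 (max (Real.exp (4 * C₁ / δ)) (Real.exp (C₁ + 1))), by linarith, hη,
      le_max_of_le_left hX1, fun X Y hX hXY t H ht hB hH => ?_⟩
    have k1 : X1 ≤ (X : ℝ) := (le_max_left _ _).trans hX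
    have k2 : Real.exp (4 * C₁ / δ) ≤ (X : ℝ) :=
      ((le_max_left _ _).trans (le_max_right _ _)).trans hX
    have k3 : Real.exp (C₁ + 1) ≤ (X : ℝ) :=
      ((le_max_right _ _).trans (le_max_right _ _)).trans hX
    have hX1' : (1 : ℝ) ≤ X := hX1.trans k1
    have hXn : 1 ≤ X := by exact_mod_cast hX1'
    have l1 : 4 * C₁ / δ ≤ Real.log X := by
      rw [Real.le_log_iff_exp_le (by linarith)]
      exact k2
    have l2 : C₁ + 1 ≤ Real.log X := by
      rw [Real.le_log_iff_exp_le (by linarith)]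
      exact k3
    have hlX : 0 < Real.log X := by linarith
    have hH0 : 0 < H := by
      by_contra hcon
      push Not at hcon
      have := mul_nonpos_of_nonpos_of_nonneg hcon hlX.le
      linarith
    rw [div_le_iff₀ hδ] at l1
    -- one block
    have hblock : ∀ X' Y' : ℕ, X ≤ X' → κ * (X' : ℝ) ≤ (Y' : ℝ) → (Y' : ℝ) ≤ κ ^ 3 * (X' : ℝ) →
        (∀ p ∈ Sw M₀ X' Y', (zset (F p.1) t (t + H)).Finite) ∧
        primFamM M₀ X' Y' (fun q χ => 1 * |(NN (F ⟨q, χ⟩) t (t + H) : ℝ) -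
            d * H / (2 * Real.pi) * Real.log q| -
              δ * (d * H / (2 * Real.pi) * Real.log q)) ≤ 0 ∧
        primFamM M₀ X' Y' (fun q χ => pd d * (NN (F ⟨q, χ⟩) t (t + H) : ℝ) -
          1 * (Ns (F ⟨q, χ⟩) t (t + H) : ℝ)) ≤ 0 ∧
        primFamM M₀ X' Y' (fun q χ => (1 + pd d) / 2 * (NN (F ⟨q, χ⟩) t (t + H) : ℝ) -
          1 * (Nd (F ⟨q, χ⟩) t (t + H) : ℝ)) ≤ 0 := by
      intro X' Y' hXX hXY' hYX'
      have hXr : (X : ℝ) ≤ X' := by exact_mod_cast hXX
      have hX'1 : (1 : ℝ) ≤ X' := hX1'.trans hXr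
      have hY'X : (X' : ℝ) ≤ Y' := by
        have : 1 * (X' : ℝ) ≤ κ * X' := mul_le_mul_of_nonneg_right (by linarith) (by linarith)
        linarith
      have hY'0 : (0 : ℝ) < Y' := by linarith
      obtain ⟨j, hj⟩ : ∃ j : JT κ, j = ⟨(X', Y'), by exact_mod_cast hX'1, hXY', hYX'⟩ := ⟨_, rfl⟩
      have hj1 : j.1.1 = X' := by rw [hj]
      have hj2 : j.1.2 = Y' := by rw [hj]
      have hw := hwin j
      rw [hj1, hj2] at hw
      obtain ⟨x, hx⟩ : ∃ x : ℝ, x = Λ₀ * (Y' : ℝ) ^ d := ⟨_, rfl⟩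
      rw [← hx] at hw
      have hYx : (Y' : ℝ) ≤ x := by
        rw [hx]
        have h1 : (Y' : ℝ) ≤ (Y' : ℝ) ^ d := le_self_pow₀ (by linarith) (by omega)
        exact h1.trans (le_mul_of_one_le_left (by positivity) hΛ)
      have hXx : (X : ℝ) ≤ x := by linarith
      have hlogx : Real.log x = Real.log Λ₀ + d * Real.log (Y' : ℝ) := by
        rw [hx, Real.log_mul hΛ0.ne' (by positivity), Real.log_pow]
      have hXη : (X : ℝ) ^ η ≤ x ^ η := Real.rpow_le_rpow (by linarith) hXx hη.le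
      have e1 : t + H - t = H := by ring
      obtain ⟨w1, w2, w3, w4⟩ := hw (k1.trans hXx) t (t + H) (ht.trans hXη) (by
        rw [e1]
        refine hB.trans (mul_le_mul_of_nonneg_left ?_ hH0.le)
        exact Real.log_le_log (by linarith) hXx) (by rw [e1]; exact hH.trans hXη)
      rw [e1] at w4
      rw [Finset.sum_sub_distrib, ← Finset.mul_sum] at w2
      rw [Finset.sum_sub_distrib, ← Finset.mul_sum, ← Finset.mul_sum] at w3
      refine ⟨w1, ?_, ?_, ?_⟩
      · have h1 := of_Sw (M := M₀) (X := X') (Y := Y') (f := fun i =>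
          |(NN (F i) t (t + H) : ℝ) - d * H / (2 * Real.pi) * Real.log i.1|)
          (g := fun i => δ * (d * H / (2 * Real.pi) * Real.log i.1)) (by
          obtain ⟨u, hu⟩ : ∃ u : ℝ, u = H / (2 * Real.pi) := ⟨_, rfl⟩
          have hu0 : 0 < u := by rw [hu]; positivity
          have e2 : ∀ y : ℝ, d * H / (2 * Real.pi) * y = u * (d * y) := by
            intro y
            rw [hu]
            ring
          have e3 : H * Real.log x / (2 * Real.pi) = u * Real.log x := by
            rw [hu]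
            ring
          rw [e3] at w4
          simp only [e2]
          have key : ∀ p ∈ Sw M₀ X' Y', |(NN (F p.1) t (t + H) : ℝ) -
              u * (d * Real.log (p.1.1 : ℝ))| ≤
              |(NN (F p.1) t (t + H) : ℝ) - u * Real.log x| +
                δ / 4 * (u * (d * Real.log (p.1.1 : ℝ))) ∧
              u * Real.log x ≤ 2 * (u * (d * Real.log (p.1.1 : ℝ))) := by
            intro p hp
            obtain ⟨h1, h2, h3, h4⟩ := (mem_primSetM _ _ _ _).mp (mem_Sw hp)
            have hq1 : (X' : ℝ) ≤ p.1.1 := by exact_mod_cast h1.le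
            have hq2 : (p.1.1 : ℝ) ≤ Y' := by exact_mod_cast h2
            have hq0 : (0 : ℝ) < p.1.1 := by linarith
            have m1 : Real.log (Y' : ℝ) ≤ 3 * Real.log κ + Real.log (p.1.1 : ℝ) := by
              have h9 : (Y' : ℝ) ≤ κ ^ 3 * p.1.1 :=
                hYX'.trans (mul_le_mul_of_nonneg_left hq1 (by positivity))
              have h10 := Real.log_le_log hY'0 h9
              rw [Real.log_mul (by positivity) hq0.ne', Real.log_pow] at h10
              push_cast at h10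
              exact h10
            have m2 : Real.log (X : ℝ) ≤ d * Real.log (p.1.1 : ℝ) := by
              have h5 : Real.log (X : ℝ) ≤ Real.log (p.1.1 : ℝ) :=
                Real.log_le_log (by linarith) (by linarith)
              exact h5.trans (le_mul_of_one_le_left (by linarith) hd1')
            have m3 : Real.log x - d * Real.log (p.1.1 : ℝ) ≤ C₁ := by
              have h5 := mul_le_mul_of_nonneg_left m1 (by linarith : (0 : ℝ) ≤ d)
              rw [hlogx, hC₁]
              linarith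
            have m4 : 0 ≤ Real.log x - d * Real.log (p.1.1 : ℝ) := by
              have h5 : Real.log (p.1.1 : ℝ) ≤ Real.log (Y' : ℝ) := Real.log_le_log hq0 hq2
              have h6 := mul_le_mul_of_nonneg_left h5 (by linarith : (0 : ℝ) ≤ d)
              have h7 := Real.log_nonneg hΛ
              rw [hlogx]
              linarith
            have m5 : C₁ ≤ δ / 4 * (d * Real.log (p.1.1 : ℝ)) := by
              have h5 := mul_le_mul_of_nonneg_right m2 hδ.le
              linarith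
            constructor
            · have h5 : (NN (F p.1) t (t + H) : ℝ) - u * (d * Real.log (p.1.1 : ℝ)) =
                  ((NN (F p.1) t (t + H) : ℝ) - u * Real.log x) +
                    u * (Real.log x - d * Real.log (p.1.1 : ℝ)) := by ring
              rw [h5]
              refine (abs_add_le _ _).trans (add_le_add le_rfl ?_)
              rw [abs_of_nonneg (by positivity)]
              have h6 := mul_le_mul_of_nonneg_left (m3.trans m5) hu0.le
              refine h6.trans (le_of_eq ?_)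
              ring
            · have h6 : Real.log x ≤ 2 * (d * Real.log (p.1.1 : ℝ)) := by linarith
              have h7 := mul_le_mul_of_nonneg_left h6 hu0.le
              refine h7.trans (le_of_eq ?_)
              ring
          have s1 := Finset.sum_le_sum fun p hp => (key p hp).1
          have s2 := Finset.sum_le_sum fun p hp => (key p hp).2
          rw [Finset.sum_add_distrib, ← Finset.mul_sum] at s1
          rw [Finset.sum_const, nsmul_eq_mul, ← Finset.mul_sum] at s2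
          rw [← Finset.mul_sum]
          have s3 : δ / 4 * (u * Real.log x) * ((Sw M₀ X' Y').card : ℝ) ≤
              δ / 4 * (2 * ∑ p ∈ Sw M₀ X' Y', u * (d * Real.log (p.1.1 : ℝ))) := by
            have h5 := mul_le_mul_of_nonneg_left s2 (by positivity : (0 : ℝ) ≤ δ / 4)
            linarith
          have s4 : 0 ≤ ∑ p ∈ Sw M₀ X' Y', u * (d * Real.log (p.1.1 : ℝ)) :=
            Finset.sum_nonneg fun p _ => mul_nonneg hu0.le (mul_nonneg (by linarith)
              (Real.log_natCast_nonneg _))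
          have s5 : 0 ≤ δ * ∑ p ∈ Sw M₀ X' Y', u * (d * Real.log (p.1.1 : ℝ)) :=
            mul_nonneg hδ.le s4
          linarith)
        rw [primFamM_lin, one_mul]
        rw [primFamM_smul] at h1
        linarith
      · have h1 := of_Sw (M := M₀) (X := X') (Y := Y')
          (f := fun i => pd d * (NN (F i) t (t + H) : ℝ)) (g := fun i => (Ns (F i) t (t + H) : ℝ))
          (by
            rw [← Finset.mul_sum]
            linarith)
        rw [primFamM_lin, one_mul]
        rw [primFamM_smul] at h1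
        linarith
      · have h1 := of_Sw (M := M₀) (X := X') (Y := Y')
          (f := fun i => (1 + pd d) / 2 * (NN (F i) t (t + H) : ℝ))
          (g := fun i => (Nd (F i) t (t + H) : ℝ))
          (by
            rw [← Finset.mul_sum]
            linarith)
        rw [primFamM_lin, one_mul]
        rw [primFamM_smul] at h1
        linarith
    refine ⟨?_, ?_, ?_, ?_⟩
    · intro q χ hq hqM hχ
      obtain ⟨X', hX'⟩ : ∃ X' : ℕ, X' = q - 1 := ⟨_, rfl⟩
      have hXX : X ≤ X' := by omega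
      have hX'1 : (1 : ℝ) ≤ X' := by exact_mod_cast hXn.trans hXX
      obtain ⟨Y', hY'⟩ : ∃ Y' : ℕ, Y' = ⌈κ * X'⌉₊ := ⟨_, rfl⟩
      have a1 : κ * X' ≤ Y' := by rw [hY']; exact Nat.le_ceil _
      have a2 : (Y' : ℝ) < κ * X' + 1 := by
        rw [hY']
        exact Nat.ceil_lt_add_one (by positivity)
      have c1 : 2 * (X' : ℝ) ≤ κ * X' := mul_le_mul_of_nonneg_right hκ (by linarith)
      have a3 : (Y' : ℝ) ≤ κ ^ 3 * X' := by
        have c2 : κ * X' + 1 ≤ κ * (κ * X') := by nlinarith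
        have c3 : κ * (κ * X') ≤ κ * (κ * (κ * X')) :=
          mul_le_mul_of_nonneg_left (le_mul_of_one_le_left (by positivity) (by linarith))
            (by linarith)
        have e1 : κ ^ 3 * X' = κ * (κ * (κ * X')) := by ring
        rw [e1]
        linarith
      have a4 : q ≤ Y' := by
        have h1 : (X' : ℝ) + 1 ≤ Y' := by linarith
        have h2 : X' + 1 ≤ Y' := by exact_mod_cast h1
        omega
      have hmem : (⟨q, χ⟩ : IX) ∈ primSetM M₀ X' Y' :=
        (mem_primSetM M₀ X' Y' _).mpr ⟨by show X' < q; omega, a4, hqM, hχ⟩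
      exact (hblock X' Y' hXX a1 a3).1 _ (mem_Sw' hmem)
    · have h1 := blocks hκ hXn (fun X' Y' a b c => (hblock X' Y' a b c).2.1) X Y le_rfl hXY
      rw [primFamM_lin, one_mul] at h1
      linarith
    · have h1 := blocks hκ hXn (fun X' Y' a b c => (hblock X' Y' a b c).2.2.1) X Y le_rfl hXY
      rw [primFamM_lin, one_mul] at h1
      linarith
    · have h1 := blocks hκ hXn (fun X' Y' a b c => (hblock X' Y' a b c).2.2.2) X Y le_rfl hXY
      rw [primFamM_lin, one_mul] at h1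
      linarith
  · obtain ⟨B, η, X1, hB, hη, hX1, hpos⟩ := pos_prop hsel hfd hl hl2 hl21 hgl (by linarith) h0 hπ
      (pd_nonneg d) hconst
    refine ⟨B, η, max X1 (Real.exp 1), hB, hη, le_max_of_le_left hX1,
      fun X Y hX hXY t H ht hBH => ?_⟩
    have k1 : X1 ≤ (X : ℝ) := (le_max_left _ _).trans hX
    have k2 : Real.exp 1 ≤ (X : ℝ) := (le_max_right _ _).trans hX
    have hX1' : (1 : ℝ) ≤ X := hX1.trans k1
    have hXn : 1 ≤ X := by exact_mod_cast hX1'
    have hlX : 1 ≤ Real.log X := by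
      rw [Real.le_log_iff_exp_le (by linarith)]
      exact k2
    have hblock : ∀ X' Y' : ℕ, X ≤ X' → κ * (X' : ℝ) ≤ (Y' : ℝ) → (Y' : ℝ) ≤ κ ^ 3 * (X' : ℝ) →
        primFamM M₀ X' Y' (fun q χ => pd d * 1 - 1 * (if (∃ s ∈ zset (F ⟨q, χ⟩) t (t + H),
          s.re = 1 / 2 ∧ mult (F ⟨q, χ⟩) s = 1) then 1 else 0)) ≤ 0 := by
      intro X' Y' hXX hXY' hYX'
      have hXr : (X : ℝ) ≤ X' := by exact_mod_cast hXX
      have hX'1 : (1 : ℝ) ≤ X' := hX1'.trans hXr
      have hY'X : (X' : ℝ) ≤ Y' := by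
        have : 1 * (X' : ℝ) ≤ κ * X' := mul_le_mul_of_nonneg_right (by linarith) (by linarith)
        linarith
      have hY'0 : (0 : ℝ) < Y' := by linarith
      obtain ⟨j, hj⟩ : ∃ j : JT κ, j = ⟨(X', Y'), by exact_mod_cast hX'1, hXY', hYX'⟩ := ⟨_, rfl⟩
      have hj1 : j.1.1 = X' := by rw [hj]
      have hj2 : j.1.2 = Y' := by rw [hj]
      have hw := hpos j
      rw [hj1, hj2] at hw
      obtain ⟨x, hx⟩ : ∃ x : ℝ, x = Λ₀ * (Y' : ℝ) ^ d := ⟨_, rfl⟩
      rw [← hx] at hw
      have hYx : (Y' : ℝ) ≤ x := by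
        rw [hx]
        have h1 : (Y' : ℝ) ≤ (Y' : ℝ) ^ d := le_self_pow₀ (by linarith) (by omega)
        exact h1.trans (le_mul_of_one_le_left (by positivity) hΛ)
      have hXx : (X : ℝ) ≤ x := by linarith
      have hXη : (X : ℝ) ^ η ≤ x ^ η := Real.rpow_le_rpow (by linarith) hXx hη.le
      have hw' := hw (k1.trans hXx) t (ht.trans hXη)
      have hlx : Real.log X ≤ Real.log x := Real.log_le_log (by linarith) hXx
      have hlx0 : 0 < Real.log x := by linarith
      have hH0 : 0 < H := by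
        by_contra hcon
        push Not at hcon
        have := mul_nonpos_of_nonpos_of_nonneg hcon (by linarith : (0 : ℝ) ≤ Real.log X)
        linarith
      have hBx : B / Real.log x ≤ H := by
        rw [div_le_iff₀ hlx0]
        exact hBH.trans (mul_le_mul_of_nonneg_left hlx hH0.le)
      have h1 := of_Sw (M := M₀) (X := X') (Y := Y') (f := fun _ => pd d * 1)
        (g := fun i => (if (∃ s ∈ zset (F i) t (t + H), s.re = 1 / 2 ∧ mult (F i) s = 1)
          then (1 : ℝ) else 0)) (by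
        rw [Finset.sum_const, nsmul_eq_mul, mul_one, mul_comm]
        refine hw'.trans ?_
        rw [Finset.card_filter]
        push_cast
        refine Finset.sum_le_sum fun p _ => ?_
        by_cases h2 : 0 < Ns (F p.1) t (t + B / Real.log x)
        · rw [if_pos h2, if_pos]
          have h5 := Set.nonempty_of_ncard_ne_zero h2.ne'
          obtain ⟨s, ⟨y1, y2, y3, y4, y5⟩, y6, y7⟩ := h5
          exact ⟨s, ⟨y1, y2, y3, by linarith, y5⟩, y6, y7⟩
        · rw [if_neg h2]
          split_ifs <;> norm_num)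
      rw [primFamM_lin M₀ X' Y' (pd d) 1 (fun _ _ => 1), one_mul]
      rw [primFamM_smul M₀ X' Y' (pd d) (fun _ _ => 1)] at h1
      linarith
    have h1 := blocks hκ hXn hblock X Y le_rfl hXY
    rw [primFamM_lin M₀ X Y (pd d) 1 (fun _ _ => 1), one_mul] at h1
    linarith

end

end Pool.Agent.T9h27.Y
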