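import Pool.Agent.T9h27.Z.GdK
import Pool.Agent.Y773.IQ.Good

/-!
# `GoodW` from the functional equation, general form (helper27)
-/

set_option autoImplicit false
set_option linter.unusedSectionVars false

open Complex Filter Topology MeasureTheory
open scoped ComplexConjugate

namespace Pool.Agent.T9h27.Y

open Pool.Agent.Y773 (FEd GG)
open Pool.Agent.Y773.IQ (FEd.toFEn)
open Pool.Agent.T9h27.Z (GoodW left_line left_ne mult_zero_le order_symm deriv_conj')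
open W388.LV (GoodG CoefE)
open H370 (mult DD)

section

variable {ι : Type} [Fintype ι]

lemma GG_conj {R : ℝ} (hR : 0 < R) (e : ι → ℕ) (s : ℂ) : GG R e (conj s) = conj (GG R e s) := by
  unfold GG
  rw [map_mul, map_prod]
  congr 1
  · rw [Pool.Agent.W820.TW.conj_real_cpow hR, map_div₀, map_ofNat]
  · refine Finset.prod_congr rfl fun i _ => ?_
    rw [Pool.Agent.Y772.FE.conj_Gammaℝ, map_add, map_natCast]

/-- the conjugate function -/
lemma FEd.conj' {R : ℝ} (hR : 0 < R) {e : ι → ℕ} {F : ℂ → ℂ} (h : FEd R e F) :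
    FEd R e (fun z => conj (F (conj z))) := by
  refine ⟨h.he, ?_, ?_, ?_⟩
  · intro s
    have h1 := (h.diff (conj s)).hasDerivAt.conj_conj
    rw [Complex.conj_conj] at h1
    exact h1.differentiableAt
  · obtain ⟨w, hw, hfe⟩ := h.fe
    refine ⟨conj w, by rw [RCLike.norm_conj]; exact hw, fun s hs => ?_⟩
    have h1 := hfe (conj s) (by rw [Complex.conj_im]; exact neg_ne_zero.mpr hs)
    rw [Complex.conj_conj] at h1
    have h2 := congrArg conj h1
    simp only [map_mul, Complex.conj_conj] at h2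
    rw [GG_conj hR, Complex.conj_conj] at h2
    simp only [map_mul, Complex.conj_conj, map_sub, map_one]
    rw [← GG_conj hR, map_sub, map_one, Complex.conj_conj]
    exact h2
  · intro a b
    obtain ⟨C, hC⟩ := h.vert a b
    refine ⟨C, fun s h1 h2 h3 => ?_⟩
    have h4 := hC (conj s) (by rw [Complex.conj_re]; exact h1) (by rw [Complex.conj_re]; exact h2)
      (by rw [Complex.conj_im, abs_neg]; exact h3)
    rw [GG_conj hR] at h4
    rw [norm_mul, RCLike.norm_conj] at h4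
    rw [norm_mul, RCLike.norm_conj]
    exact h4

end

/-- `GoodG` from the functional equation -/
theorem goodG_gen (ι : Type) [Fintype ι] [Nonempty ι] {N : ℝ} (hN : 1 ≤ N) {A₀ : ℝ}
    (hA₀ : 1 ≤ A₀) : ∃ A : ℝ, A₀ ≤ A ∧ ∀ (Q : ℝ) (e : ι → ℕ) (F : ℂ → ℂ) (a : ℕ → ℂ), 1 ≤ Q →
      FEd (N * Q ^ Fintype.card ι) e F → (∀ s : ℂ, 1 ≤ s.re → F s ≠ 0) →
      (∀ s : ℂ, 3 / 2 ≤ s.re → ‖F s‖ ≤ A₀) → (∀ s : ℂ, 2 ≤ s.re → A₀⁻¹ ≤ ‖F s‖) →
      CoefE A₀ a → (∀ s : ℂ, 1 < s.re → deriv F s / F s = - ∑' n : ℕ, a n * (n : ℂ) ^ (-s)) →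
      GoodG (Fintype.card ι) A Q F a := by
  obtain ⟨A₁, hA₁, hfe⟩ := Pool.Agent.Y772.HC.t_fen ι N hN A₀ hA₀ 0 le_rfl
  refine ⟨max A₀ A₁, le_max_left _ _, fun Q e F a hQ hF hnz hB hlow hco hld => ?_⟩
  have hFn := FEd.toFEn hF
  obtain ⟨f1, f2, f3, f4⟩ := hfe Q hQ e (fun _ => 0) F (fun _ => ⟨le_rfl, le_rfl⟩) hFn hB
    (fun s h1 _ => hnz s h1)
  have hA0 : (0 : ℝ) < A₁ := by linarith
  have hAm : 0 < max A₀ A₁ := lt_max_of_lt_left (by linarith)
  refine ⟨?_, ?_, ?_, ?_, ?_, ?_, ?_, ?_, ?_, ?_, ?_⟩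
  · intro s _
    exact hF.diff.analyticAt s
  · intro s h1 h2 h3
    refine (f1 s h1 h2 h3).trans ?_
    have h4 : 1 ≤ Q * s.im := one_le_mul_of_one_le_of_one_le hQ h3
    exact mul_le_mul (le_max_right _ _) (Real.rpow_le_rpow_of_exponent_le h4 (le_max_right _ _))
      (Real.rpow_nonneg (by linarith) _) hAm.le
  · intro t _
    refine le_trans ?_ (hlow (⟨2, t⟩ : ℂ) le_rfl)
    exact inv_anti₀ (by linarith) (le_max_left _ _)
  · exact fun s h1 _ => hnz s h1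
  · exact f2
  · exact f3
  · exact hco.h1
  · exact hco.sm
  · exact hco.le.trans (le_max_left _ _)
  · exact fun s h1 _ => hld s h1
  · intro s h1 h2 h3 h4
    exact (f4 s h1 h2 h3 h4).trans (le_max_right _ _)

/-- **`GoodW` from the functional equation** -/
theorem goodW_gen (ι : Type) [Fintype ι] [Nonempty ι] {N : ℝ} (hN : 1 ≤ N) {A₀ : ℝ}
    (hA₀ : 1 ≤ A₀) : ∃ A : ℝ, 1 ≤ A ∧ ∀ (Q : ℝ) (e : ι → ℕ) (F : ℂ → ℂ) (a : ℕ → ℂ), 1 ≤ Q →
      FEd (N * Q ^ Fintype.card ι) e F → (∀ s : ℂ, 1 ≤ s.re → F s ≠ 0) →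
      (∀ s : ℂ, 3 / 2 ≤ s.re → ‖F s‖ ≤ A₀) → (∀ s : ℂ, 2 ≤ s.re → A₀⁻¹ ≤ ‖F s‖) →
      CoefE A₀ a → (∀ s : ℂ, 1 < s.re → deriv F s / F s = - ∑' n : ℕ, a n * (n : ℂ) ^ (-s)) →
      GoodW (Fintype.card ι) A Q F a := by
  obtain ⟨A₁, hA₁, hG⟩ := goodG_gen ι hN hA₀
  have hn1 : (1 : ℝ) ≤ (Fintype.card ι : ℝ) := by exact_mod_cast Fintype.card_pos
  obtain ⟨C₂, hC₂, hgh⟩ := W388.LV.good_height_D (Fintype.card ι : ℝ) A₁ hn1 (by linarith)
  obtain ⟨C₃, hC₃, hleft⟩ := left_line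
  obtain ⟨n, hn⟩ : ∃ n : ℝ, n = (Fintype.card ι : ℝ) := ⟨_, rfl⟩
  rw [← hn] at hn1 hgh hG ⊢
  obtain ⟨A, hA⟩ : ∃ A : ℝ, A = A₁ + C₂ + (Real.log N + n * C₃ + A₁) + n := ⟨_, rfl⟩
  have hlN : 0 ≤ Real.log N := Real.log_nonneg hN
  have hnC : 0 ≤ n * C₃ := by positivity
  refine ⟨A, by linarith, fun Q e F a hQ hF hnz hB hlow hco hld => ?_⟩
  have hRp : 0 < N * Q ^ Fintype.card ι := by positivity
  have hG₁ := hG Q e F a hQ hF hnz hB hlow hco hld
  have hnc : ∀ z : ℂ, conj z = conj z := fun _ => rfl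
  have hcn : ∀ n : ℕ, ‖conj (a n)‖ = ‖a n‖ := fun n => RCLike.norm_conj _
  have hG₂ := hG Q e (fun z => conj (F (conj z))) (fun n => conj (a n)) hQ (FEd.conj' hRp hF)
    (fun s hs => by
      rw [Ne, map_eq_zero]
      exact hnz _ (by rw [Complex.conj_re]; exact hs))
    (fun s hs => by
      rw [RCLike.norm_conj]
      exact hB _ (by rw [Complex.conj_re]; exact hs))
    (fun s hs => by
      rw [RCLike.norm_conj]
      exact hlow _ (by rw [Complex.conj_re]; exact hs))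
    ⟨fun m hm => by rw [hco.h1 m hm, map_zero], by simpa only [hcn] using hco.sm, by
      simpa only [hcn] using hco.le⟩
    (fun s hs => by
      rw [deriv_conj' hF.diff, ← map_div₀, hld _ (by rw [Complex.conj_re]; exact hs), map_neg,
        Complex.conj_tsum]
      congr 1
      refine tsum_congr fun m => ?_
      rw [map_mul]
      congr 1
      rcases Nat.eq_zero_or_pos m with h0 | h0
      · have hne : -s ≠ 0 := by
          intro h
          rw [neg_eq_zero] at h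
          rw [h] at hs
          simp at hs
          linarith
        have hne' : -conj s ≠ 0 := by
          intro h
          rw [neg_eq_zero] at h
          apply hne
          have := congrArg conj h
          rw [Complex.conj_conj, map_zero] at this
          rw [this, neg_zero]
        rw [h0, Nat.cast_zero, Complex.zero_cpow hne, Complex.zero_cpow hne', map_zero]
      · have h1 : (0 : ℝ) < (m : ℝ) := by exact_mod_cast h0
        have h2 := Pool.Agent.W820.TW.conj_real_cpow h1 (-conj s)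
        rw [map_neg, Complex.conj_conj] at h2
        rw [← Complex.ofReal_natCast, h2])
  have hA₀A : A₀ ≤ A := by linarith
  have hBl : ∀ y : ℝ, ‖deriv F (⟨7 / 4, y⟩ : ℂ) / F (⟨7 / 4, y⟩ : ℂ)‖ ≤ A₁ := by
    intro y
    rw [hld _ (by norm_num), norm_neg]
    exact (hco.norm_DD y).trans hA₁
  have hconj : ∀ σ U : ℝ, conj (⟨σ, U⟩ : ℂ) = (⟨σ, -U⟩ : ℂ) := fun σ U => rfl
  refine ⟨hF.diff, hnz, fun s h1 h2 h3 => left_ne hF hRp hnz h1 h2 h3, ?_,
    fun s h1 h2 => order_symm hF hRp h1 h2, ⟨hco.h1, hco.sm, hco.le.trans hA₀A⟩, hld, ?_, ?_, ?_⟩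
  · have h1 := mult_zero_le hF hRp hnz
    have h2 : (mult F 0 : ℝ) ≤ (Fintype.card ι : ℝ) := by exact_mod_cast h1
    rw [← hn] at h2
    rw [hA]
    linarith
  · intro y
    have h1 := hleft ι N Q A₁ e F hN hQ hF hnz hBl y
    rw [← hn] at h1
    rw [hA]
    linarith
  · intro T hT
    obtain ⟨U, hU, hg⟩ := hgh Q F _ hQ hG₁ T hT
    refine ⟨U, hU, fun σ hσ => ⟨(hg σ hσ).1, (hg σ hσ).2.trans ?_⟩⟩
    refine mul_le_mul_of_nonneg_right ?_ (sq_nonneg _)
    rw [hA]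
    linarith
  · intro T hT
    obtain ⟨U, hU, hg⟩ := hgh Q _ _ hQ hG₂ T hT
    refine ⟨U, hU, fun σ hσ => ?_⟩
    obtain ⟨g1, g2⟩ := hg σ hσ
    rw [deriv_conj' hF.diff] at g2
    have hk := hconj σ U
    rw [hk] at g1 g2
    rw [← map_div₀, RCLike.norm_conj] at g2
    refine ⟨fun h0 => g1 (by rw [h0, map_zero]), g2.trans ?_⟩
    refine mul_le_mul_of_nonneg_right ?_ (sq_nonneg _)
    rw [hA]
    linarith

end Pool.Agent.T9h27.Y
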