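import Pool.Agent.T9h27.Z.Hyp

/-!
# The density hypotheses of the core theorem, general exponents (helper27)
-/

set_option autoImplicit false

open Filter Topology Set

namespace Pool.Agent.T9h27.Y

open Pool.Agent.T9h27.Z hiding geo_bd hc_of
open Pool.Agent.T9h27.D (farZ Nfar)
open Pool.Agent.T9h27.C (zd nd)
open H370 (mult)

lemma geo_bd {g cf : ℝ} (hg : g < cf) (s : Finset ℕ) :
    ∑ k ∈ s, Real.exp (g * (k + 1)) * Real.exp (-(cf * k)) ≤
    Real.exp g * (1 - Real.exp (-(cf - g)))⁻¹ := by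
  have h0 : Real.exp (-(cf - g)) < 1 := by rw [Real.exp_lt_one_iff]; linarith
  have h1 : ∀ k : ℕ, Real.exp (g * (k + 1)) * Real.exp (-(cf * k)) =
      Real.exp g * (Real.exp (-(cf - g))) ^ k := by
    intro k
    rw [← Real.exp_add, ← Real.exp_nat_mul, ← Real.exp_add]
    congr 1
    ring
  simp only [h1]
  rw [← Finset.mul_sum]
  refine mul_le_mul_of_nonneg_left ?_ (Real.exp_pos _).le
  rw [← tsum_geometric_of_lt_one (Real.exp_pos _).le h0]
  exact Summable.sum_le_tsum s (fun i _ => pow_nonneg (Real.exp_pos _).le i)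
    (summable_geometric_of_lt_one (Real.exp_pos _).le h0)

section

variable {ι : Type} {S : Finset ι} {F : ι → ℂ → ℂ} {Z : ι → Finset ℂ} {R V a C Q' g cf : ℝ} {k0 : ℕ}

open Classical in
/-- the exponential density hypothesis -/
theorem hc_of (hg0 : 0 ≤ g) (hgc : g < cf) (hR : 1 ≤ R) (ha : 0 < a) (hC : 0 ≤ C) (hQ' : 0 ≤ Q')
    (hk : ((k0 : ℝ) + 1) / R ≤ 1 / 4)
    (hfar : ∀ t : ℝ, |t| ≤ V → ∀ k : ℕ, k0 ≤ k →
      (∀ i ∈ S, (farZ (F i) (k / R) t (t + 1 / R)).Finite) ∧
      ∑ i ∈ S, (Nfar (F i) (k / R) t (t + 1 / R) : ℝ) ≤ Q' * (S.card * Real.exp (-(cf * k))))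
    (hnear : ∀ t : ℝ, |t| ≤ V → ∀ r : ℝ, 0 ≤ r → r ≤ 1 / 4 → (∀ i ∈ S, (zd (F i) t r).Finite) ∧
        ∑ i ∈ S, Real.exp (a * (nd (F i) t r : ℝ)) ≤ S.card * C * Real.exp (C * (r * R)))
    (hZ : ∀ i ∈ S, ∀ z ∈ Z i, 0 < z.re ∧ z.re < 1 ∧ |z.im| ≤ V - 1 ∧ F i z = 0) :
    HC S Z (fun i => mult (F i)) R g
      (Real.exp (g * k0) * (C * Real.exp (C * (k0 + 1)) / a) +
        Q' * (Real.exp g * (1 - Real.exp (-(cf - g)))⁻¹)) := by
  intro t
  have hR0 : 0 < R := by linarith
  have h0 : Real.exp (-(cf - g)) < 1 := by rw [Real.exp_lt_one_iff]; linarith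
  have hinv : 0 < (1 - Real.exp (-(cf - g)))⁻¹ := inv_pos.mpr (by linarith)
  have hcard : (0 : ℝ) ≤ S.card := Nat.cast_nonneg _
  have h1R : 1 / R ≤ 1 := by rw [div_le_one hR0]; exact hR
  by_cases ht : |t| ≤ V
  swap
  · have hz : ∑ i ∈ S, ∑ z ∈ (Z i).filter (fun z => t < z.im ∧ z.im ≤ t + 1 / R),
        (mult (F i) z : ℝ) * Real.exp (g * R * dl z) = 0 := by
      refine Finset.sum_eq_zero fun i hi => ?_
      have hemp : (Z i).filter (fun z => t < z.im ∧ z.im ≤ t + 1 / R) = ∅ := by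
        rw [Finset.filter_eq_empty_iff]
        rintro z hz ⟨z1, z2⟩
        apply ht
        have h3 := abs_le.mp (hZ i hi z hz).2.2.1
        rw [abs_le]
        constructor <;> linarith
      rw [hemp, Finset.sum_empty]
    rw [hz]
    positivity
  obtain ⟨n1, n2⟩ := hnear t ht (((k0 : ℝ) + 1) / R) (by positivity) hk
  obtain ⟨Kx, hKx⟩ : ∃ Kx : ℕ, Kx = ⌊R⌋₊ := ⟨_, rfl⟩
  have key : ∀ i ∈ S, ∑ z ∈ (Z i).filter (fun z => t < z.im ∧ z.im ≤ t + 1 / R),
        (mult (F i) z : ℝ) * Real.exp (g * R * dl z) ≤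
      Real.exp (g * k0) * (nd (F i) t (((k0 : ℝ) + 1) / R) : ℝ) +
        ∑ k ∈ Finset.Icc k0 Kx, Real.exp (g * (k + 1)) *
          (Nfar (F i) (k / R) t (t + 1 / R) : ℝ) := by
    intro i hi
    obtain ⟨W, hW⟩ : ∃ W : Finset ℂ, W = (Z i).filter (fun z => t < z.im ∧ z.im ≤ t + 1 / R) :=
      ⟨_, rfl⟩
    rw [← hW, ← Finset.sum_filter_add_sum_filter_not W (fun z => dl z ≤ k0 / R)]
    have hWm : ∀ z ∈ W, z ∈ Z i ∧ t < z.im ∧ z.im ≤ t + 1 / R := by
      intro z hz
      rw [hW] at hz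
      obtain ⟨z1, z2, z3⟩ := Finset.mem_filter.mp hz
      exact ⟨z1, z2, z3⟩
    refine add_le_add ?_ ?_
    · have h1 : ∑ z ∈ W.filter (fun z => dl z ≤ k0 / R),
          (mult (F i) z : ℝ) * Real.exp (g * R * dl z) ≤
          ∑ z ∈ W.filter (fun z => dl z ≤ k0 / R),
            (mult (F i) z : ℝ) * Real.exp (g * k0) := by
        refine Finset.sum_le_sum fun z hz => ?_
        refine mul_le_mul_of_nonneg_left (Real.exp_le_exp.mpr ?_) (Nat.cast_nonneg _)
        have h2 := (Finset.mem_filter.mp hz).2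
        rw [le_div_iff₀ hR0] at h2
        have h3 := mul_le_mul_of_nonneg_left h2 hg0
        have h4 : g * (dl z * R) = g * R * dl z := by ring
        linarith
      refine h1.trans ?_
      rw [← Finset.sum_mul, mul_comm]
      refine mul_le_mul_of_nonneg_left ?_ (Real.exp_pos _).le
      refine sum_le_nd (n1 i hi) fun z hz => ?_
      obtain ⟨z1, z2⟩ := Finset.mem_filter.mp hz
      obtain ⟨z3, z4, z5⟩ := hWm z z1
      refine ⟨(hZ i hi z z3).2.2.2, ?_⟩
      have h3 := Complex.norm_le_abs_re_add_abs_im (z - (1 / 2 + t * Complex.I))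
      have e1 : (z - (1 / 2 + t * Complex.I)).re = z.re - 1 / 2 := by simp
      have e2 : (z - (1 / 2 + t * Complex.I)).im = z.im - t := by simp
      rw [e1, e2, abs_of_nonneg (by linarith : 0 ≤ z.im - t)] at h3
      have h4 : |z.re - 1 / 2| ≤ k0 / R := z2
      have h5 : ((k0 : ℝ) + 1) / R = k0 / R + 1 / R := by ring
      rw [h5]
      linarith
    · have h1 : ∀ z ∈ W.filter (fun z => ¬ dl z ≤ k0 / R),
          (mult (F i) z : ℝ) * Real.exp (g * R * dl z) ≤
          ∑ k ∈ Finset.Icc k0 Kx, (if (k : ℝ) / R ≤ dl z then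
            Real.exp (g * (k + 1)) * (mult (F i) z : ℝ) else 0) := by
        intro z hz
        obtain ⟨z1, z2⟩ := Finset.mem_filter.mp hz
        push Not at z2
        obtain ⟨z3, z4, z5⟩ := hWm z z1
        obtain ⟨y1, y2, y3, y4⟩ := hZ i hi z z3
        obtain ⟨k, hk'⟩ : ∃ k : ℕ, k = ⌊dl z * R⌋₊ := ⟨_, rfl⟩
        have hd0 : 0 ≤ dl z * R := mul_nonneg (dl_nonneg z) hR0.le
        have k1 : (k : ℝ) ≤ dl z * R := by rw [hk']; exact Nat.floor_le hd0
        have k2 : dl z * R < k + 1 := by rw [hk']; exact Nat.lt_floor_add_one _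
        have k3 : k0 ≤ k := by
          rw [hk']
          refine Nat.le_floor ?_
          rw [div_lt_iff₀ hR0] at z2
          exact z2.le
        have k4 : k ≤ Kx := by
          rw [hk', hKx]
          refine Nat.floor_le_floor ?_
          have hdl : dl z ≤ 1 := by
            unfold dl
            rw [abs_le]
            constructor <;> linarith
          nlinarith
        have hmem : k ∈ Finset.Icc k0 Kx := Finset.mem_Icc.mpr ⟨k3, k4⟩
        refine le_trans ?_ (Finset.single_le_sum (f := fun k : ℕ => (if (k : ℝ) / R ≤ dl z then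
            Real.exp (g * (k + 1)) * (mult (F i) z : ℝ) else 0)) (fun j _ => by
              split_ifs
              · positivity
              · exact le_rfl) hmem)
        rw [if_pos (by rw [div_le_iff₀ hR0]; exact k1), mul_comm]
        refine mul_le_mul_of_nonneg_right (Real.exp_le_exp.mpr ?_) (Nat.cast_nonneg _)
        have h3 := mul_le_mul_of_nonneg_left k2.le hg0
        have h4 : g * (dl z * R) = g * R * dl z := by ring
        linarith
      refine (Finset.sum_le_sum h1).trans ?_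
      rw [Finset.sum_comm]
      refine Finset.sum_le_sum fun k hk' => ?_
      rw [← Finset.sum_filter, ← Finset.mul_sum]
      refine mul_le_mul_of_nonneg_left ?_ (Real.exp_pos _).le
      refine sum_le_Nfar ((hfar t ht k (Finset.mem_Icc.mp hk').1).1 i hi) fun z hz => ?_
      obtain ⟨z0, z2⟩ := Finset.mem_filter.mp hz
      obtain ⟨z3, z4, z5⟩ := hWm z (Finset.mem_filter.mp z0).1
      obtain ⟨y1, y2, y3, y4⟩ := hZ i hi z z3
      exact ⟨y1, y2, z4, z5, y4, z2⟩
  refine (Finset.sum_le_sum key).trans ?_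
  rw [Finset.sum_add_distrib, ← Finset.mul_sum, Finset.sum_comm]
  have b1 : ∑ i ∈ S, (nd (F i) t (((k0 : ℝ) + 1) / R) : ℝ) ≤
      S.card * (C * Real.exp (C * (k0 + 1)) / a) := by
    have h1 : ∀ i ∈ S, (nd (F i) t (((k0 : ℝ) + 1) / R) : ℝ) ≤
        Real.exp (a * (nd (F i) t (((k0 : ℝ) + 1) / R) : ℝ)) / a := by
      intro i _
      rw [le_div_iff₀ ha]
      have := Real.add_one_le_exp (a * (nd (F i) t (((k0 : ℝ) + 1) / R) : ℝ))
      linarith
    refine (Finset.sum_le_sum h1).trans ?_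
    rw [← Finset.sum_div, div_le_iff₀ ha]
    refine n2.trans (le_of_eq ?_)
    have h3 : ((k0 : ℝ) + 1) / R * R = k0 + 1 := by field_simp
    rw [h3]
    field_simp
  have b2 : ∑ k ∈ Finset.Icc k0 Kx, ∑ i ∈ S, Real.exp (g * (k + 1)) *
      (Nfar (F i) (k / R) t (t + 1 / R) : ℝ) ≤
      S.card * (Q' * (Real.exp g * (1 - Real.exp (-(cf - g)))⁻¹)) := by
    have h1 : ∀ k ∈ Finset.Icc k0 Kx, ∑ i ∈ S, Real.exp (g * (k + 1)) *
        (Nfar (F i) (k / R) t (t + 1 / R) : ℝ) ≤
        (S.card * Q') * (Real.exp (g * (k + 1)) * Real.exp (-(cf * k))) := by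
      intro k hk'
      rw [← Finset.mul_sum]
      refine (mul_le_mul_of_nonneg_left (hfar t ht k (Finset.mem_Icc.mp hk').1).2
        (Real.exp_pos _).le).trans (le_of_eq ?_)
      ring
    refine (Finset.sum_le_sum h1).trans ?_
    rw [← Finset.mul_sum, mul_assoc]
    exact mul_le_mul_of_nonneg_left (mul_le_mul_of_nonneg_left (geo_bd hgc _) hQ') hcard
  refine (add_le_add (mul_le_mul_of_nonneg_left b1 (Real.exp_pos _).le) b2).trans (le_of_eq ?_)
  ring

end

end Pool.Agent.T9h27.Y
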