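import Pool.Agent.T9h27.Y.Core
import Pool.Agent.T9h27.Y.Hyp
import Pool.Agent.T9h27.Z.Pos

/-!
# Assembling: families with a large sieve and a density theorem, general exponents (helper27)
-/

set_option autoImplicit false

open MeasureTheory Complex Filter Topology Set
open scoped ComplexConjugate

namespace Pool.Agent.T9h27.Y

open Pool.Agent.T9h27.Z hiding FD small_win win pos_prop Dat core LSh geo_bd hc_of all_ms
open H385 (Rw zz)
open H370 (mult zset NN Ns Nd)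
open Pool.Agent.T9h27.D (farZ Nfar)
open Pool.Agent.T9h27.C (zd nd)

/-- the data of a family over a set `J` of moduli -/
structure FD {J : Type} {ι : J → Type} (S : (j : J) → Finset (ι j)) (F : (j : J) → ι j → ℂ → ℂ)
    (a : (j : J) → ι j → ℕ → ℂ) (Q : (j : J) → ι j → ℝ) (X : J → ℝ) (q Yc : J → ℕ) (c : ℕ → ℂ)
    (d A l₂ D D' g cf θ : ℝ) : Prop where
  hd : 1 ≤ d
  hA : 1 ≤ A
  hX : ∀ j, 1 ≤ X j
  hG : ∀ j, ∀ i ∈ S j, 1 ≤ Q j i ∧ d * Real.log (Q j i) ≤ Real.log (X j) ∧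
    GoodW d A (Q j i) (F j i) (a j i)
  hav : ∀ δ : ℝ, 0 < δ → ∃ X0 : ℝ, ∀ j, X0 ≤ X j →
    (1 - δ) * Real.log (X j) * (S j).card ≤ ∑ i ∈ S j, d * Real.log (Q j i)
  hls : ∃ X0 : ℝ, ∀ j, X0 ≤ X j → ∀ M : ℕ, (M : ℝ) ≤ (X j) ^ l₂ → 
    LSh (S j) (a j) c M (q j) D D' (Yc j)
  hnc : ∀ ν : ℝ, 0 < ν → ∃ X0 : ℝ, ∀ j, X0 ≤ X j → ∀ i ∈ S j, ∀ M : ℕ,
    NCs M (q j) (a j i) ≤ ν * Real.log (X j)
  hncr : ∀ ν : ℝ, 0 < ν → ∃ X0 : ℝ, ∀ j, X0 ≤ X j → ∀ M r : ℕ, 1 ≤ r → r ≤ Yc j →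
    NCr M r ≤ ν * Real.log (X j)
  hg0 : 0 < g
  hgc : g < cf
  hlg : l₂ ≤ 3 * g
  hD' : 0 ≤ D'
  hθ : 0 < θ
  hθ1 : θ ≤ 1
  hfar : ∃ (k0 : ℕ) (Q' X0 : ℝ), 0 ≤ Q' ∧ ∀ j, X0 ≤ X j → ∀ t : ℝ, |t| ≤ (X j) ^ θ →
    ∀ k : ℕ, k0 ≤ k →
      (∀ i ∈ S j, (farZ (F j i) (k / Real.log (X j)) t (t + 1 / Real.log (X j))).Finite) ∧
      ∑ i ∈ S j, (Nfar (F j i) (k / Real.log (X j)) t (t + 1 / Real.log (X j)) : ℝ) ≤
        Q' * ((S j).card * Real.exp (-(cf * k)))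
  hnear : ∃ b C X0 : ℝ, 0 < b ∧ 0 ≤ C ∧ ∀ j, X0 ≤ X j → ∀ t : ℝ, |t| ≤ (X j) ^ θ →
    ∀ r : ℝ, 0 ≤ r → r ≤ 1 / 4 → (∀ i ∈ S j, (zd (F j i) t r).Finite) ∧
      ∑ i ∈ S j, Real.exp (b * (nd (F j i) t r : ℝ)) ≤
        (S j).card * C * Real.exp (C * (r * Real.log (X j)))

section

variable {J : Type} {ι : J → Type} {S : (j : J) → Finset (ι j)} {F : (j : J) → ι j → ℂ → ℂ}
  {a : (j : J) → ι j → ℕ → ℂ} {Q : (j : J) → ι j → ℝ} {X : J → ℝ} {q Yc : J → ℕ}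
  {c : ℕ → ℂ} {d A l₂ D D' g cf θ : ℝ}

open Classical in
/-- windows of bounded length -/
theorem small_win (hc : W388.SelE c) (h : FD S F a Q X q Yc c d A l₂ D D' g cf θ) {l : ℝ}
    (hl : 1 / 2 ≤ l) (hl2 : l < l₂) (hl21 : l₂ ≤ 1) (hgl : g ≤ l) (hD : 0 < D) {γ : ℝ} (h0 : 0 < γ) (hπ : γ < Real.pi) {ε : ℝ}
    (hε : 0 < ε) : ∃ H1 η X0 : ℝ, 1 ≤ H1 ∧ 0 < η ∧ 1 ≤ X0 ∧ ∀ j, X0 ≤ X j →
    1 ≤ Real.log (X j) ∧
    ∃ Z : ι j → Finset ℂ, (∀ i ∈ S j, ∀ z, (z ∈ Z i → z ∈ zset (F j i) (-(X j) ^ θ) ((X j) ^ θ)) ∧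
      (z ∈ zset (F j i) (-(3 * (X j) ^ η)) (3 * (X j) ^ η) → z ∈ Z i)) ∧
    ∀ T1 T2 : ℝ, |T1| ≤ 3 * (X j) ^ η → |T2| ≤ 3 * (X j) ^ η →
      H1 ≤ (T2 - T1) * Real.log (X j) → (T2 - T1) * Real.log (X j) ≤ 2 * H1 →
      ∀ w : ι j → ℂ → ℝ, (∀ i ∈ S j, ∀ z ∈ Z i,
        w i z ≤ 4 * (mult (F j i) z : ℝ) - H385.PerChi.kk (F j i) z ∧
          w i z ≤ 3 * (mult (F j i) z : ℝ)) →
      ∑ i ∈ S j, ∑ z ∈ (Z i).filter (fun z => T1 < z.im ∧ z.im ≤ T2), w i z ≤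
          (Rw γ 0 / l + 2 * l * D * (∫ α in (0 : ℝ)..1, α * Rw γ α) + ε) *
            ∑ i ∈ S j, ∑ z ∈ (Z i).filter (fun z => T1 < z.im ∧ z.im ≤ T2),
              (mult (F j i) z : ℝ) ∧
      ∑ i ∈ S j, |∑ z ∈ (Z i).filter (fun z => T1 < z.im ∧ z.im ≤ T2), (mult (F j i) z : ℝ) -
          (T2 - T1) * Real.log (X j) / (2 * Real.pi)| ≤
        2 * ε * ((T2 - T1) * Real.log (X j) / (2 * Real.pi)) * (S j).card := by
  obtain ⟨hd, hA, hX, hG, hav, hls, hnc, hncr, hg0, hgc, hlg, hDp, hθ, hθ1, hfar, hnear⟩ := h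
  obtain ⟨k0, Q', X1, hQ', hfar⟩ := hfar
  obtain ⟨b, C, X2, hb, hC, hnear⟩ := hnear
  obtain ⟨X3, hls⟩ := hls
  have hinv : 0 < (1 - Real.exp (-(cf - g)))⁻¹ := by
    have h0 : Real.exp (-(cf - g)) < 1 := by rw [Real.exp_lt_one_iff]; linarith
    exact inv_pos.mpr (by linarith)
  obtain ⟨B, hB⟩ : ∃ B : ℝ, B = Real.exp (g * k0) * (C * Real.exp (C * (k0 + 1)) / b) +
        Q' * (Real.exp g * (1 - Real.exp (-(cf - g)))⁻¹) := ⟨_, rfl⟩
  have hB0 : 0 ≤ B := by rw [hB]; positivity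
  obtain ⟨l₁, hl₁⟩ : ∃ l₁ : ℝ, l₁ = (l + l₂) / 2 := ⟨_, rfl⟩
  obtain ⟨E0, R0, hE0, hR0, hefx⟩ := efx d A hd hA (l₁ := l₁) (l₂ := l₂) (by linarith) hl21
  obtain ⟨ηc, ρ, H1, hηc, hρ, hH1, hcore⟩ := core c hc h0 hπ (l := l) (l₁ := l₁) (D := D)
    (D' := D') (A := B) (g := g) (E0 := E0) (ε := ε) (by linarith) (by linarith) (by linarith) hD
    hDp hB0 hg0 (by linarith) hgl hE0.le
    (fun ρ => 2 / b ^ 2 * (C * Real.exp (C * (ρ + 1)))) hε
  obtain ⟨R1, ν, hR1, hν, hcore⟩ := hcore (2 * H1) (by linarith)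
  obtain ⟨X4, hav⟩ := hav ηc hηc
  obtain ⟨X5, hnc⟩ := hnc ν hν
  obtain ⟨X7, hncr⟩ := hncr ν hν
  obtain ⟨η, hη⟩ : ∃ η : ℝ, η = min (θ / 2) (ηc / (2 * d)) := ⟨_, rfl⟩
  have hη0 : 0 < η := by rw [hη]; exact lt_min (by positivity) (by positivity)
  have hηθ : η ≤ θ / 2 := by rw [hη]; exact min_le_left _ _
  have hηc2 : 2 * d * η ≤ ηc := by
    have h1 : η ≤ ηc / (2 * d) := by rw [hη]; exact min_le_right _ _
    rw [le_div_iff₀ (by positivity)] at h1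
    linarith
  -- how large the conductor must be
  obtain ⟨X6, hX61, hX6⟩ := grow hθ (R0 + R1 + 4 * (k0 + 1) + 4 * (ρ + 1) + 2 * H1 + 4 +
    2 * d * Real.log 4 / ηc + Real.log 4 / η)
  refine ⟨H1, η, max X6 (max (max X1 X2) (max X3 (max X4 (max X5 X7)))), hH1, hη0,
    le_max_of_le_left hX61, fun j hj => ?_⟩
  have k6 : X6 ≤ X j := (le_max_left _ _).trans hj
  have kr : max (max X1 X2) (max X3 (max X4 (max X5 X7))) ≤ X j := (le_max_right _ _).trans hj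
  have k1 : X1 ≤ X j := ((le_max_left _ _).trans (le_max_left _ _)).trans kr
  have k2 : X2 ≤ X j := ((le_max_right _ _).trans (le_max_left _ _)).trans kr
  have k3 : X3 ≤ X j := ((le_max_left _ _).trans (le_max_right _ _)).trans kr
  have k4 : X4 ≤ X j :=
    (((le_max_left _ _).trans (le_max_right _ _)).trans (le_max_right _ _)).trans kr
  have k5 : X5 ≤ X j := (((((le_max_left _ _).trans (le_max_right _ _)).trans
    (le_max_right _ _)).trans (le_max_right _ _)).trans kr)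
  have k7 : X7 ≤ X j := (((((le_max_right _ _).trans (le_max_right _ _)).trans
    (le_max_right _ _)).trans (le_max_right _ _)).trans kr)
  obtain ⟨hlog, hgrow⟩ := hX6 _ k6
  have hfar' := hfar j k1
  have hnear' := hnear j k2
  have hls' := hls j k3
  have hav' := hav j k4
  have hnc' := hnc j k5
  have hncr' := hncr j k7
  obtain ⟨x, hx⟩ : ∃ x : ℝ, x = X j := ⟨_, rfl⟩
  obtain ⟨R, hR⟩ : ∃ R : ℝ, R = Real.log (X j) := ⟨_, rfl⟩
  have hX1 := hX j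
  have hG' := hG j
  rw [← hR] at hlog hgrow hfar' hnear' hav' hnc' hncr' hG' ⊢
  have hRx : R = Real.log x := by rw [hR, hx]
  rw [← hx] at hgrow hls' hX1 ⊢
  have hx0 : 0 < x := by linarith
  have e1 : 0 ≤ 2 * d * Real.log 4 / ηc := by
    have : 0 ≤ Real.log 4 := Real.log_nonneg (by norm_num)
    positivity
  have e2 : 0 ≤ Real.log 4 / η := by
    have : 0 ≤ Real.log 4 := Real.log_nonneg (by norm_num)
    positivity
  have hk0 : (0 : ℝ) ≤ k0 := Nat.cast_nonneg _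
  have r0 : R0 ≤ R := by linarith
  have r1 : R1 ≤ R := by linarith
  have r2 : 4 * ((k0 : ℝ) + 1) ≤ R := by linarith
  have r3 : 4 * (ρ + 1) ≤ R := by linarith
  have r4 : 2 * H1 ≤ R := by linarith
  have r5 : 4 ≤ R := by linarith
  have r6 : 2 * d * Real.log 4 / ηc ≤ R := by linarith
  have r7 : Real.log 4 / η ≤ R := by linarith
  have hRp : 0 < R := by linarith
  rw [div_le_iff₀ (by positivity)] at r6 r7
  have hxη : x ^ η ≤ x ^ (θ / 2) := Real.rpow_le_rpow_of_exponent_le hX1 hηθ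
  have hxη1 : 1 ≤ x ^ η := Real.one_le_rpow hX1 hη0.le
  have hxθ : x ^ θ ≤ x := by
    calc x ^ θ ≤ x ^ (1 : ℝ) := Real.rpow_le_rpow_of_exponent_le hX1 hθ1
      _ = x := Real.rpow_one x
  have hT : 3 * x ^ η + R + 3 ≤ x ^ θ := by linarith
  -- the length of the prime sum
  obtain ⟨M, hM⟩ : ∃ M : ℕ, M = ⌊x ^ l₂⌋₊ := ⟨_, rfl⟩
  have hxl : 0 < x ^ l₂ := Real.rpow_pos_of_pos hx0 _
  have hM1 : (M : ℝ) ≤ x ^ l₂ := by rw [hM]; exact Nat.floor_le hxl.le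
  have hM2 : l₂ * R ≤ Real.log (M + 1) := by
    have h1 : x ^ l₂ < M + 1 := by rw [hM]; exact Nat.lt_floor_add_one _
    have h2 := Real.log_le_log hxl h1.le
    rwa [Real.log_rpow hx0, ← hRx] at h2
  have hMl : ∀ n ∈ Finset.Icc 1 M, Real.log n ≤ R := by
    intro n hn
    obtain ⟨n1, n2⟩ := Finset.mem_Icc.mp hn
    have h1 : (n : ℝ) ≤ x := by
      have h2 : (n : ℝ) ≤ M := by exact_mod_cast n2
      have h3 : x ^ l₂ ≤ x := by
        calc x ^ l₂ ≤ x ^ (1 : ℝ) := Real.rpow_le_rpow_of_exponent_le hX1 hl21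
          _ = x := Real.rpow_one x
      linarith
    rw [hRx]
    exact Real.log_le_log (by exact_mod_cast n1) h1
  -- the zeros
  obtain ⟨T, hTd⟩ : ∃ T : ℝ, T = 3 * x ^ η := ⟨_, rfl⟩
  rw [← hTd] at hT ⊢
  have hT0 : 0 ≤ T := by rw [hTd]; positivity
  have hQx : ∀ i ∈ S j, Q j i ≤ x := by
    intro i hi
    obtain ⟨g1, g2, -⟩ := hG' i hi
    have h1 : Real.log (Q j i) ≤ R := by
      have h3 := Real.log_nonneg g1
      have h4 := le_mul_of_one_le_left h3 hd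
      linarith only [h4, g2]
    rw [hRx] at h1
    exact (Real.log_le_log_iff (by linarith) hx0).mp h1
  have hZex : ∀ i : ι j, ∃ Z : Finset ℂ, i ∈ S j →
      (∀ z, (z ∈ Z → z ∈ zset (F j i) (-x ^ θ) (x ^ θ) ∧ |z.im| ≤ x ^ θ - 1) ∧
        (z ∈ zset (F j i) (-T) T → z ∈ Z)) ∧
      (∀ z ∈ Z, dl z ≤ 1 / 2 ∧ 1 - conj z ∈ Z ∧ mult (F j i) (1 - conj z) = mult (F j i) z) ∧
      ∀ v t τ₀ : ℝ, |v| ≤ l₁ * R → |t| ≤ T → |t - τ₀| ≤ 1 →
          ‖AA Z (mult (F j i)) v t - DDa (d * Real.log (Q j i * (|τ₀| + 1))) (Finset.Icc 1 M)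
            (a j i) v t‖ ≤ E0 * (Real.exp (-|v| / 4) + 1 / R) := by
    intro i
    by_cases hi : i ∈ S j
    swap
    · exact ⟨∅, fun h => absurd h hi⟩
    obtain ⟨g1, g2, g3⟩ := hG' i hi
    have hlogQ : Real.log (Q j i * (T + R)) ≤ 3 * R := by
      have h1 : Q j i * (T + R) ≤ x * x := by
        refine mul_le_mul (hQx i hi) ?_ (by positivity) hx0.le
        linarith
      have h2 := Real.log_le_log (mul_pos (by linarith) (by linarith)) h1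
      rw [Real.log_mul hx0.ne' hx0.ne', ← hRx] at h2
      linarith
    obtain ⟨V1, V2, Z, v1, v2, v3, v4, z1, z2, z3⟩ := hefx (Q j i) (F j i) (a j i) g1 g3 T R M r0
      hT0 hlogQ hM2
    refine ⟨Z, fun _ => ⟨fun z => ⟨fun hz => ?_, fun hz => ?_⟩, z2, z3⟩⟩
    · obtain ⟨y1, y2, y3, y4, y5⟩ := (z1 z).mp hz
      refine ⟨⟨y1, y2, by linarith, by linarith, y5⟩, ?_⟩
      rw [abs_le]
      constructor <;> linarith
    · obtain ⟨y1, y2, y3, y4, y5⟩ := hz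
      exact (z1 z).mpr ⟨y1, y2, by linarith, by linarith, y5⟩
  choose Z hZ using hZex
  refine ⟨by linarith, Z, fun i hi z => ⟨fun hz => (((hZ i hi).1 z).1 hz).1,
    ((hZ i hi).1 z).2⟩, ?_⟩
  intro T1 T2 hT1 hT2 hH1' hH2' w hw
  have hwin : T1 ≤ T2 := by
    by_contra hcon
    push Not at hcon
    have h1 := mul_neg_of_neg_of_pos (by linarith only [hcon] : T2 - T1 < 0) hRp
    linarith only [h1, hH1', hH1]
  have hwin1 : T2 - T1 ≤ 1 := by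
    by_contra hcon
    push Not at hcon
    have h1 := (lt_mul_iff_one_lt_left hRp).mpr hcon
    linarith only [h1, hH2', r4]
  have hV1 := abs_le.mp hT1
  have hV2 := abs_le.mp hT2
  have hZ0 : ∀ i ∈ S j, ∀ z ∈ Z i, 0 < z.re ∧ z.re < 1 ∧ |z.im| ≤ x ^ θ - 1 ∧ F j i z = 0 := by
    intro i hi z hz
    obtain ⟨⟨y1, y2, -, -, y5⟩, y6⟩ := ((hZ i hi).1 z).1 hz
    exact ⟨y1, y2, y6, y5⟩
  have hHC := hc_of hg0.le hgc (S := S j) (F := F j) (Z := Z) (R := R) (V := x ^ θ) (k0 := k0)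
    (by linarith) hb hC hQ' (by rw [div_le_iff₀ hRp]; linarith)
    (fun t ht => hfar' t (by rw [← hx]; exact ht))
    (fun t ht => hnear' t (by rw [← hx]; exact ht)) hZ0
  have hHM := hm_of (S := S j) (F := F j) (Z := Z) (R := R) (V := x ^ θ) (ρ := ρ)
    (by linarith) hb hC hρ.le (by rw [div_le_iff₀ hRp]; linarith)
    (fun t ht => hnear' t (by rw [← hx]; exact ht)) hZ0
  rw [← hB] at hHC
  have hlT : Real.log (|T1| + 1) ≤ η * R + Real.log 4 := by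
    have h1 : |T1| + 1 ≤ 4 * x ^ η := by linarith
    have h2 := Real.log_le_log (by positivity : 0 < |T1| + 1) h1
    rw [Real.log_mul (by norm_num) (by positivity), Real.log_rpow hx0, ← hRx] at h2
    linarith
  have hlT0 : 0 ≤ Real.log (|T1| + 1) := Real.log_nonneg (by linarith [abs_nonneg T1])
  have hlQ : ∀ i ∈ S j, d * Real.log (Q j i * (|T1| + 1)) =
      d * Real.log (Q j i) + d * Real.log (|T1| + 1) := by
    intro i hi
    obtain ⟨g1, g2, g3⟩ := hG' i hi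
    rw [Real.log_mul (by linarith) (by positivity)]
    ring
  have hdat : Dat (S j) (F j) Z (fun i => d * Real.log (Q j i * (|T1| + 1))) (a j) c M (q j) (Yc j)
      R l₁ g D D' B E0 ηc ν T1 T2 := by
    refine ⟨fun i hi z hz => (hZ i hi).2.1 z hz, fun i hi => ?_, ?_, hls' M hM1, hncr' M, hMl,
      fun i hi => hnc' i hi M, hHC, fun i hi v τ hv hτ => ?_⟩
    · obtain ⟨g1, g2, g3⟩ := hG' i hi
      have h3 := Real.log_nonneg g1
      rw [hlQ i hi]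
      refine ⟨by positivity, ?_⟩
      have h4 : d * Real.log (|T1| + 1) ≤ ηc * R := by
        have h5 : d * Real.log (|T1| + 1) ≤ d * (η * R + Real.log 4) :=
          mul_le_mul_of_nonneg_left hlT (by linarith)
        have h6 : d * (η * R + Real.log 4) = (2 * d * η) * R / 2 + (2 * d * Real.log 4) / 2 := by
          ring
        have h7 := mul_le_mul_of_nonneg_right hηc2 hRp.le
        linarith
      linarith
    · refine hav'.trans (Finset.sum_le_sum fun i hi => ?_)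
      rw [hlQ i hi]
      have : 0 ≤ d * Real.log (|T1| + 1) := by positivity
      linarith
    · refine (hZ i hi).2.2 v τ T1 hv ?_ ?_
      · rw [abs_le]
        exact ⟨by linarith [hτ.1], by linarith [hτ.2]⟩
      · rw [abs_of_nonneg (by linarith [hτ.1])]
        linarith [hτ.2]
  exact hcore (S j) (F j) Z _ (a j) M (q j) (Yc j) R T1 T2 w r1 hH1' hH2' hdat hHM hw

end

end Pool.Agent.T9h27.Y
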