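import Pool.Agent.T9h27.Z.Bad

/-!
# The exceptional members of the family, general exponents (helper27)
-/

set_option autoImplicit false

open Complex Set
open H385 (zz)
open H385.PerChi (zz_re zz_im)

namespace Pool.Agent.T9h27.Y

open Pool.Agent.T9h27.Z

section

variable {ι : Type} {s : Finset ι} {Z : ι → Finset ℂ} {m : ι → ℂ → ℕ} {R : ℝ}

open Classical in
/-- **few members are exceptional** -/
theorem bad_card (hR : 0 < R) {g A : ℝ} (hA : 0 ≤ A) (hC : HC s Z m R g A) {T1 T2 : ℝ}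
    (hT : T1 ≤ T2) {ε : ℝ} (hε : 0 < ε) (hb : 1 ≤ ε * R) {Λ : ℝ} (hΛ : 0 < Λ)
    (hg : Λ + 8 * (ε * R) ≤ 3 * (g * R))
    (hg1 : g * R ≤ Λ + 8 * (ε * R))
    (hZ : ∀ i ∈ s, ∀ z ∈ Z i, dl z ≤ 1 / 2) {M₀ : ℝ} (hM : 1 ≤ M₀) :
    ((s.filter fun i => M₀ < T0s (ε * R) T1 T2 Λ (Z i) (m i)).card : ℝ) ≤
      440000 * A * (8 + 4 / ε) * M₀ ^ (-(1 / 3) : ℝ) * s.card := by
  have hb0 : 0 ≤ ε * R := by positivity
  obtain ⟨y, hy⟩ : ∃ y : ℝ, y = Λ + 8 * (ε * R) := ⟨_, rfl⟩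
  have hy0 : 0 < y := by rw [hy]; positivity
  obtain ⟨θ, hθ⟩ : ∃ θ : ℝ, θ = g * R / y := ⟨_, rfl⟩
  rw [← hy] at hg1 hg
  have hθ1 : θ ≤ 1 := by
    rw [hθ, div_le_one hy0]
    exact hg1
  have hθ3 : 1 / 3 ≤ θ := by
    rw [hθ, le_div_iff₀ hy0]
    linarith
  have hθ0 : 0 < θ := by linarith
  have hθy : θ * y = g * R := by
    rw [hθ]
    field_simp
  have hM0 : 0 < M₀ := by linarith
  -- the power of each term
  have hterm : ∀ i ∈ s, (T0s (ε * R) T1 T2 Λ (Z i) (m i)) ^ θ ≤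
      ∑ z ∈ Z i, 440000 * ((m i z : ℝ) * Real.exp (g * R * dl z) *
        om (ε * R) T1 T2 z.im 2) := by
    intro i hi
    unfold T0s
    refine (rsum _ _ (fun z _ => by positivity) hθ0 hθ1).trans ?_
    refine (Finset.sum_le_sum fun z hz => ?_).trans
      (Finset.sum_le_sum_of_subset_of_nonneg (Finset.filter_subset _ _) fun z _ _ => by
        have := om_nonneg hb0 T1 T2 z.im 2
        positivity)
    obtain ⟨z1, z2⟩ := Finset.mem_filter.mp hz
    have h1 := cz_outz hb hT (hZ i hi z z1) z2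
    have ho := om_nonneg hb0 T1 T2 z.im 6
    have h2 : (m i z : ℝ) * ‖cz (ε * R) T1 T2 (zz z)‖ * Real.exp (Λ * dl z) ≤
        (m i z : ℝ) * 440000 * Real.exp (y * dl z) * om (ε * R) T1 T2 z.im 6 := by
      have e1 : Real.exp (y * dl z) = Real.exp (8 * (ε * R) * dl z) * Real.exp (Λ * dl z) := by
        rw [← Real.exp_add, hy]
        congr 1
        ring
      rw [e1]
      calc _ ≤ (m i z : ℝ) * (440000 * Real.exp (8 * (ε * R) * dl z) *
            om (ε * R) T1 T2 z.im 6) * Real.exp (Λ * dl z) := by gcongr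
        _ = _ := by ring
    refine (Real.rpow_le_rpow (by positivity) h2 hθ0.le).trans ?_
    rw [Real.mul_rpow (by positivity) ho, Real.mul_rpow (by positivity) (Real.exp_pos _).le,
      Real.mul_rpow (Nat.cast_nonneg _) (by norm_num)]
    have k1 : (m i z : ℝ) ^ θ ≤ (m i z : ℝ) := by
      rcases Nat.eq_zero_or_pos (m i z) with h | h
      · rw [h, Nat.cast_zero, Real.zero_rpow hθ0.ne']
      · have h' : (1 : ℝ) ≤ (m i z : ℝ) := by exact_mod_cast h
        calc (m i z : ℝ) ^ θ ≤ (m i z : ℝ) ^ (1 : ℝ) := Real.rpow_le_rpow_of_exponent_le h' hθ1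
          _ = _ := Real.rpow_one _
    have k2 : (440000 : ℝ) ^ θ ≤ 440000 := by
      calc (440000 : ℝ) ^ θ ≤ (440000 : ℝ) ^ (1 : ℝ) :=
            Real.rpow_le_rpow_of_exponent_le (by norm_num) hθ1
        _ = _ := Real.rpow_one _
    have k3 : Real.exp (y * dl z) ^ θ = Real.exp (g * R * dl z) := by
      rw [← Real.exp_mul, ← hθy]
      congr 1
      ring
    have k4 : om (ε * R) T1 T2 z.im 6 ^ θ ≤ om (ε * R) T1 T2 z.im 2 := by
      unfold om
      have k5 : ∀ x : ℝ, 0 ≤ x → x ≤ 1 → (x ^ 6) ^ θ ≤ x ^ 2 := by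
        intro x hx hx1
        rw [← Real.rpow_natCast x 6, ← Real.rpow_mul hx, ← Real.rpow_natCast x 2]
        rcases hx.eq_or_lt with h | h
        · rw [← h, Real.zero_rpow (by push_cast; positivity), Real.zero_rpow (by norm_num)]
        · refine Real.rpow_le_rpow_of_exponent_ge h hx1 ?_
          push_cast
          linarith
      refine (radd (by positivity) (by positivity) hθ0.le hθ1).trans (add_le_add ?_ ?_)
      · exact k5 _ (by positivity) (inv_le_one' hb0 _)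
      · exact k5 _ (by positivity) (inv_le_one' hb0 _)
    rw [k3]
    have k6 : (0 : ℝ) ≤ (m i z : ℝ) ^ θ := by positivity
    have k7 : (0 : ℝ) ≤ om (ε * R) T1 T2 z.im 6 ^ θ := Real.rpow_nonneg ho _
    calc (m i z : ℝ) ^ θ * (440000 : ℝ) ^ θ * Real.exp (g * R * dl z) *
          om (ε * R) T1 T2 z.im 6 ^ θ ≤ (m i z : ℝ) * 440000 * Real.exp (g * R * dl z) *
          om (ε * R) T1 T2 z.im 2 := by gcongr
      _ = _ := by ring
  have hsum : ∑ i ∈ s, (T0s (ε * R) T1 T2 Λ (Z i) (m i)) ^ θ ≤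
      440000 * A * (8 + 4 / ε) * s.card := by
    refine (Finset.sum_le_sum hterm).trans ?_
    have h1 := mul_le_mul_of_nonneg_left (cell_om hR hA hC T1 T2 hε)
      (by norm_num : (0 : ℝ) ≤ 440000)
    simp_rw [← Finset.mul_sum]
    refine h1.trans (le_of_eq ?_)
    ring
  have hcnt : ((s.filter fun i => M₀ < T0s (ε * R) T1 T2 Λ (Z i) (m i)).card : ℝ) * M₀ ^ θ ≤
      ∑ i ∈ s, (T0s (ε * R) T1 T2 Λ (Z i) (m i)) ^ θ := by
    rw [← nsmul_eq_mul, ← Finset.sum_const]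
    refine (Finset.sum_le_sum fun i hi => ?_).trans
      (Finset.sum_le_sum_of_subset_of_nonneg (Finset.filter_subset _ _)
        fun i _ _ => Real.rpow_nonneg (T0s_nonneg _ _ _ _ _ _) _)
    exact Real.rpow_le_rpow hM0.le (Finset.mem_filter.mp hi).2.le hθ0.le
  have hfin := hcnt.trans hsum
  have hMθ : M₀ ^ (1 / 3 : ℝ) ≤ M₀ ^ θ := Real.rpow_le_rpow_of_exponent_le hM hθ3
  have hM3 : 0 < M₀ ^ (1 / 3 : ℝ) := Real.rpow_pos_of_pos hM0 _
  have h9 : ((s.filter fun i => M₀ < T0s (ε * R) T1 T2 Λ (Z i) (m i)).card : ℝ) *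
      M₀ ^ (1 / 3 : ℝ) ≤ 440000 * A * (8 + 4 / ε) * s.card :=
    (mul_le_mul_of_nonneg_left hMθ (Nat.cast_nonneg _)).trans hfin
  rw [Real.rpow_neg hM0.le]
  rw [← le_div_iff₀ hM3] at h9
  refine h9.trans (le_of_eq ?_)
  ring

end

end Pool.Agent.T9h27.Y
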