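import Pool.Agent.T9h27.Z.Ms
import Pool.Agent.T9h27.Z.Up

/-!
# The mean square of the arithmetic side, large sieve with an error term (helper27)
-/

set_option autoImplicit false

open MeasureTheory Complex Filter Topology Set
open H385 (Rw)
open H385.PerChi (Rw_cont)

namespace Pool.Agent.T9h27.Y

open Pool.Agent.T9h27.Z

/-- the large sieve inequality for the family, with an error term from the prime powers not prime to
the moduli -/
def LSh {ι : Type} (s : Finset ι) (a : ι → ℕ → ℂ) (c : ℕ → ℂ) (M q : ℕ) (D D' : ℝ) (Y : ℕ) :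
    Prop :=
  ∀ (b : ℕ → ℂ) (β : ℝ), 0 ≤ β → (∀ r : ℕ, 1 ≤ r → r ≤ Y → ∑ m ∈ Finset.Icc 1 M,
      (if Nat.Coprime m r then 0 else ArithmeticFunction.vonMangoldt m * ‖b m‖) ≤ β) →
    ∑ i ∈ s, ‖∑ m ∈ Finset.Icc 1 M, b m * (if Nat.Coprime m q then a i m else 0)‖ ^ 2 ≤
      D * s.card * ∑ m ∈ Finset.Icc 1 M,
        ‖b m‖ ^ 2 * (ArithmeticFunction.vonMangoldt m * ‖c m‖) ^ 2 + D' * s.card * β ^ 2

/-- the prime powers not prime to `r` -/
noncomputable def NCr (M r : ℕ) : ℝ :=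
  ∑ m ∈ Finset.Icc 1 M, (if Nat.Coprime m r then 0 else
    ArithmeticFunction.vonMangoldt m * (Real.sqrt m)⁻¹)

section

variable {ι : Type} {s : Finset ι} {a : ι → ℕ → ℂ} {c : ℕ → ℂ} {M q Y : ℕ} {D D' ν : ℝ}

lemma beta_ok {T1 T2 : ℝ} (hT : T1 ≤ T2) {b : ℝ} (hb : 1 ≤ b)
    (hν : ∀ r : ℕ, 1 ≤ r → r ≤ Y → NCr M r ≤ ν) (v : ℕ → ℝ) (f : ℕ → ℂ)
    (hf : ∀ m, ‖f m‖ = ‖(Real.sqrt m : ℂ)⁻¹ * WW b T1 T2 (v m)‖) :
    ∀ r : ℕ, 1 ≤ r → r ≤ Y → ∑ m ∈ Finset.Icc 1 M,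
      (if Nat.Coprime m r then 0 else ArithmeticFunction.vonMangoldt m * ‖f m‖) ≤
      (T2 - T1) * ν := by
  intro r h1 h2
  refine le_trans ?_ (mul_le_mul_of_nonneg_left (hν r h1 h2) (by linarith))
  unfold NCr
  rw [Finset.mul_sum]
  refine Finset.sum_le_sum fun m _ => ?_
  split_ifs
  · rw [mul_zero]
  · have h3 : ‖f m‖ ≤ (Real.sqrt m)⁻¹ * (T2 - T1) := by
      rw [hf m, norm_mul, norm_inv, Complex.norm_real, Real.norm_of_nonneg (Real.sqrt_nonneg _)]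
      refine mul_le_mul_of_nonneg_left ?_ (by positivity)
      exact (WW_le_ww hb T1 T2 _).trans (ww_le hT _)
    calc ArithmeticFunction.vonMangoldt m * ‖f m‖ ≤
        ArithmeticFunction.vonMangoldt m * ((Real.sqrt m)⁻¹ * (T2 - T1)) :=
          mul_le_mul_of_nonneg_left h3 ArithmeticFunction.vonMangoldt_nonneg
      _ = _ := by ring

lemma Pc_sq {b T1 T2 : ℝ} (hb : 1 ≤ b) (hT : T1 ≤ T2) (hLS : LSh s a c M q D D' Y) (hν0 : 0 ≤ ν)
    (hν : ∀ r : ℕ, 1 ≤ r → r ≤ Y → NCr M r ≤ ν) (u : ℝ) :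
    ∑ i ∈ s, ‖Pc b T1 T2 M q (a i) u‖ ^ 2 ≤
      D * s.card * ∑ n ∈ Finset.Icc 1 M, gg c n * ‖WW b T1 T2 (u - Real.log n)‖ ^ 2 +
        D' * s.card * ((T2 - T1) * ν) ^ 2 := by
  have h := hLS (fun n => (Real.sqrt n : ℂ)⁻¹ * WW b T1 T2 (u - Real.log n)) ((T2 - T1) * ν)
    (mul_nonneg (by linarith) hν0)
    (beta_ok hT hb hν (fun n => u - Real.log n) _ fun m => rfl)
  simp only [ls_term] at h
  refine le_trans (le_of_eq ?_) h
  refine Finset.sum_congr rfl fun i _ => ?_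
  unfold Pc
  congr 2
  refine Finset.sum_congr rfl fun n _ => ?_
  ring

lemma Pm_sq {b T1 T2 : ℝ} (hb : 1 ≤ b) (hT : T1 ≤ T2) (hLS : LSh s a c M q D D' Y) (hν0 : 0 ≤ ν)
    (hν : ∀ r : ℕ, 1 ≤ r → r ≤ Y → NCr M r ≤ ν) (u : ℝ) :
    ∑ i ∈ s, ‖Pm b T1 T2 M q (a i) u‖ ^ 2 ≤
      D * s.card * ∑ n ∈ Finset.Icc 1 M, gg c n * ‖WW b T1 T2 (u + Real.log n)‖ ^ 2 +
        D' * s.card * ((T2 - T1) * ν) ^ 2 := by
  have h := hLS (fun n => (Real.sqrt n : ℂ)⁻¹ * (starRingEnd ℂ) (WW b T1 T2 (u + Real.log n)))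
    ((T2 - T1) * ν) (mul_nonneg (by linarith) hν0)
    (beta_ok hT hb hν (fun n => u + Real.log n) _ fun m => by
      rw [norm_mul, norm_mul, RCLike.norm_conj])
  simp only [ls_term, RCLike.norm_conj] at h
  refine le_trans (le_of_eq ?_) h
  refine Finset.sum_congr rfl fun i _ => ?_
  have e1 : Pm b T1 T2 M q (a i) u = (starRingEnd ℂ) (∑ n ∈ Finset.Icc 1 M,
      (Real.sqrt n : ℂ)⁻¹ * (starRingEnd ℂ) (WW b T1 T2 (u + Real.log n)) *
        (if Nat.Coprime n q then a i n else 0)) := by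
    unfold Pm
    rw [map_sum]
    refine Finset.sum_congr rfl fun n _ => ?_
    rw [map_mul, map_mul, Complex.conj_conj, map_inv₀, Complex.conj_ofReal]
    ring
  rw [e1, RCLike.norm_conj]

lemma int_gen {b : ℝ} (hb : 1 ≤ b) {T1 T2 : ℝ} (hT : T1 ≤ T2) {U : ℝ} (hU : 0 ≤ U)
    (hLS : LSh s a c M q D D' Y) (hD : 0 ≤ D) (hν0 : 0 ≤ ν)
    (hν : ∀ r : ℕ, 1 ≤ r → r ≤ Y → NCr M r ≤ ν) :
    ∫ u in (0 : ℝ)..U, ∑ i ∈ s, ‖Pc b T1 T2 M q (a i) u‖ ^ 2 ≤
      D * s.card * (2 * Real.pi * (T2 - T1)) *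
        (∑ n ∈ (Finset.Icc 1 M).filter (fun n : ℕ => Real.log n ≤ U + 9 * b), gg c n +
          xi b * ∑ n ∈ Finset.Icc 1 M, gg c n) + U * (D' * s.card * ((T2 - T1) * ν) ^ 2) := by
  obtain ⟨E, hE⟩ : ∃ E : ℝ, E = D' * s.card * ((T2 - T1) * ν) ^ 2 := ⟨_, rfl⟩
  rw [← hE]
  have hc := WW_cont (b := b) (T1 := T1) (T2 := T2)
  have hw := ww_cont T1 T2
  have hPc : ∀ i, Continuous (Pc b T1 T2 M q (a i)) := fun i => Pc_cont b T1 T2 M q (a i)
  have hD' : 0 ≤ D * s.card := by positivity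
  have h1 : ∫ u in (0 : ℝ)..U, ∑ i ∈ s, ‖Pc b T1 T2 M q (a i) u‖ ^ 2 ≤
      ∫ u in (0 : ℝ)..U, D * s.card * ∑ n ∈ Finset.Icc 1 M, (gg c n *
        ((if Real.log n ≤ U + 9 * b then 1 else 0) + xi b)) * ‖ww T1 T2 (u - Real.log n)‖ ^ 2 +
          E := by
    refine intervalIntegral.integral_mono_on hU
      ((by fun_prop : Continuous fun u : ℝ =>
        ∑ i ∈ s, ‖Pc b T1 T2 M q (a i) u‖ ^ 2).intervalIntegrable _ _)
      ((by fun_prop : Continuous fun u : ℝ => D * s.card * ∑ n ∈ Finset.Icc 1 M, (gg c n *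
        ((if Real.log n ≤ U + 9 * b then 1 else 0) + xi b)) *
          ‖ww T1 T2 (u - Real.log n)‖ ^ 2 + E).intervalIntegrable _ _) ?_
    intro u hu
    refine (Pc_sq hb hT hLS hν0 hν u).trans ?_
    rw [← hE]
    refine add_le_add (mul_le_mul_of_nonneg_left ?_ hD') le_rfl
    refine Finset.sum_le_sum fun n hn => ?_
    have h2 := WW_sq_ind hb T1 T2 (u - Real.log n) (P := Real.log n ≤ U + 9 * b) (fun h => by
      have := (abs_le.mp h).1
      have := hu.2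
      linarith)
    calc gg c n * ‖WW b T1 T2 (u - Real.log n)‖ ^ 2 ≤
        gg c n * (‖ww T1 T2 (u - Real.log n)‖ ^ 2 *
          ((if Real.log n ≤ U + 9 * b then 1 else 0) + xi b)) :=
          mul_le_mul_of_nonneg_left h2 (gg_nonneg c n)
      _ = _ := by ring
  refine h1.trans ?_
  rw [intervalIntegral.integral_add ((by fun_prop : Continuous fun u : ℝ => D * s.card *
      ∑ n ∈ Finset.Icc 1 M, (gg c n * ((if Real.log n ≤ U + 9 * b then 1 else 0) + xi b)) *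
        ‖ww T1 T2 (u - Real.log n)‖ ^ 2).intervalIntegrable _ _)
      ((by fun_prop : Continuous fun _ : ℝ => E).intervalIntegrable _ _),
    intervalIntegral.integral_const, smul_eq_mul, sub_zero]
  refine add_le_add ?_ le_rfl
  rw [intervalIntegral.integral_const_mul, intervalIntegral.integral_finsetSum (fun n _ =>
    (by fun_prop : Continuous fun u : ℝ => (gg c n *
        ((if Real.log n ≤ U + 9 * b then 1 else 0) + xi b)) *
          ‖ww T1 T2 (u - Real.log n)‖ ^ 2).intervalIntegrable _ _), mul_assoc (D * s.card)]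
  refine mul_le_mul_of_nonneg_left ?_ hD'
  rw [Finset.sum_filter, Finset.mul_sum, ← Finset.sum_add_distrib, Finset.mul_sum]
  refine Finset.sum_le_sum fun n _ => ?_
  rw [intervalIntegral.integral_const_mul]
  have h3 := ww_sq_shift hT hU (Real.log n)
  have hg := gg_nonneg c n
  have hx := xi_nonneg b
  have h4 : 0 ≤ gg c n * ((if Real.log n ≤ U + 9 * b then 1 else 0) + xi b) := by
    refine mul_nonneg hg ?_
    split_ifs <;> linarith
  refine (mul_le_mul_of_nonneg_left h3 h4).trans (le_of_eq ?_)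
  split_ifs <;> ring

lemma int_min {b : ℝ} (hb : 1 ≤ b) {T1 T2 : ℝ} (hT : T1 ≤ T2) {U : ℝ} (hU : 0 ≤ U)
    (hLS : LSh s a c M q D D' Y) (hD : 0 ≤ D) (hν0 : 0 ≤ ν)
    (hν : ∀ r : ℕ, 1 ≤ r → r ≤ Y → NCr M r ≤ ν) :
    ∫ u in (0 : ℝ)..U, ∑ i ∈ s, ‖Pm b T1 T2 M q (a i) u‖ ^ 2 ≤
      D * s.card * (2 * Real.pi * (T2 - T1)) *
        (∑ n ∈ (Finset.Icc 1 M).filter (fun n : ℕ => Real.log n ≤ 9 * b), gg c n +
          xi b * ∑ n ∈ Finset.Icc 1 M, gg c n) + U * (D' * s.card * ((T2 - T1) * ν) ^ 2) := by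
  obtain ⟨E, hE⟩ : ∃ E : ℝ, E = D' * s.card * ((T2 - T1) * ν) ^ 2 := ⟨_, rfl⟩
  rw [← hE]
  have hc := WW_cont (b := b) (T1 := T1) (T2 := T2)
  have hw := ww_cont T1 T2
  have hPm : ∀ i, Continuous (Pm b T1 T2 M q (a i)) := fun i => Pm_cont b T1 T2 M q (a i)
  have hD' : 0 ≤ D * s.card := by positivity
  have h1 : ∫ u in (0 : ℝ)..U, ∑ i ∈ s, ‖Pm b T1 T2 M q (a i) u‖ ^ 2 ≤
      ∫ u in (0 : ℝ)..U, D * s.card * ∑ n ∈ Finset.Icc 1 M, (gg c n *
        ((if Real.log n ≤ 9 * b then 1 else 0) + xi b)) * ‖ww T1 T2 (u + Real.log n)‖ ^ 2 +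
          E := by
    refine intervalIntegral.integral_mono_on hU
      ((by fun_prop : Continuous fun u : ℝ =>
        ∑ i ∈ s, ‖Pm b T1 T2 M q (a i) u‖ ^ 2).intervalIntegrable _ _)
      ((by fun_prop : Continuous fun u : ℝ => D * s.card * ∑ n ∈ Finset.Icc 1 M, (gg c n *
        ((if Real.log n ≤ 9 * b then 1 else 0) + xi b)) *
          ‖ww T1 T2 (u + Real.log n)‖ ^ 2 + E).intervalIntegrable _ _) ?_
    intro u hu
    refine (Pm_sq hb hT hLS hν0 hν u).trans ?_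
    rw [← hE]
    refine add_le_add (mul_le_mul_of_nonneg_left ?_ hD') le_rfl
    refine Finset.sum_le_sum fun n hn => ?_
    have h2 := WW_sq_ind hb T1 T2 (u + Real.log n) (P := Real.log n ≤ 9 * b) (fun h => by
      have := (abs_le.mp h).2
      have := hu.1
      linarith)
    calc gg c n * ‖WW b T1 T2 (u + Real.log n)‖ ^ 2 ≤
        gg c n * (‖ww T1 T2 (u + Real.log n)‖ ^ 2 *
          ((if Real.log n ≤ 9 * b then 1 else 0) + xi b)) :=
          mul_le_mul_of_nonneg_left h2 (gg_nonneg c n)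
      _ = _ := by ring
  refine h1.trans ?_
  rw [intervalIntegral.integral_add ((by fun_prop : Continuous fun u : ℝ => D * s.card *
      ∑ n ∈ Finset.Icc 1 M, (gg c n * ((if Real.log n ≤ 9 * b then 1 else 0) + xi b)) *
        ‖ww T1 T2 (u + Real.log n)‖ ^ 2).intervalIntegrable _ _)
      ((by fun_prop : Continuous fun _ : ℝ => E).intervalIntegrable _ _),
    intervalIntegral.integral_const, smul_eq_mul, sub_zero]
  refine add_le_add ?_ le_rfl
  rw [intervalIntegral.integral_const_mul, intervalIntegral.integral_finsetSum (fun n _ =>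
    (by fun_prop : Continuous fun u : ℝ => (gg c n *
        ((if Real.log n ≤ 9 * b then 1 else 0) + xi b)) *
          ‖ww T1 T2 (u + Real.log n)‖ ^ 2).intervalIntegrable _ _), mul_assoc (D * s.card)]
  refine mul_le_mul_of_nonneg_left ?_ hD'
  rw [Finset.sum_filter, Finset.mul_sum, ← Finset.sum_add_distrib, Finset.mul_sum]
  refine Finset.sum_le_sum fun n _ => ?_
  rw [intervalIntegral.integral_const_mul]
  have h3 := ww_sq_shift hT hU (-Real.log n)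
  simp only [sub_neg_eq_add] at h3
  have hg := gg_nonneg c n
  have hx := xi_nonneg b
  have h4 : 0 ≤ gg c n * ((if Real.log n ≤ 9 * b then 1 else 0) + xi b) := by
    refine mul_nonneg hg ?_
    split_ifs <;> linarith
  refine (mul_le_mul_of_nonneg_left h3 h4).trans (le_of_eq ?_)
  split_ifs <;> ring

/-- the weighted integral -/
lemma int_main {b : ℝ} (hb : 1 ≤ b) {T1 T2 : ℝ} (hT : T1 ≤ T2) {Λ : ℝ} (hΛ : 0 < Λ)
    {γ K : ℝ} (h0 : 0 < γ) (hπ : γ < Real.pi) (hK0 : 0 ≤ K)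
    (hK : ∀ x y, |Rw γ x - Rw γ y| ≤ K * |x - y|)
    (hLS : LSh s a c M q D D' Y) (hD : 0 ≤ D) (hD1 : 0 ≤ D') (hν0 : 0 ≤ ν)
    (hν : ∀ r : ℕ, 1 ≤ r → r ≤ Y → NCr M r ≤ ν) :
    ∫ u in (0 : ℝ)..Λ, Rw γ (u / Λ) * ∑ i ∈ s, ‖Pc b T1 T2 M q (a i) u‖ ^ 2 ≤
      D * s.card * (2 * Real.pi * (T2 - T1)) *
        (∑ n ∈ Finset.Icc 1 M, gg c n * Rw γ (Real.log n / Λ) +
          (9 * K * b / Λ + Rw γ 0 * xi b) * ∑ n ∈ Finset.Icc 1 M, gg c n) +
        Λ * (Rw γ 0 * (D' * s.card * ((T2 - T1) * ν) ^ 2)) := by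
  obtain ⟨E, hE⟩ : ∃ E : ℝ, E = D' * s.card * ((T2 - T1) * ν) ^ 2 := ⟨_, rfl⟩
  have hE0 : 0 ≤ E := by rw [hE]; positivity
  rw [← hE]
  have hc := WW_cont (b := b) (T1 := T1) (T2 := T2)
  have hw := ww_cont T1 T2
  have hR := Rw_cont γ h0 hπ
  have hRn := H385.Rw_nonneg γ h0 hπ
  have hPc : ∀ i, Continuous (Pc b T1 T2 M q (a i)) := fun i => Pc_cont b T1 T2 M q (a i)
  have hD' : 0 ≤ D * s.card := by positivity
  have hx := xi_nonneg b
  have hb0 : 0 < b := by linarith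
  have h1 : ∫ u in (0 : ℝ)..Λ, Rw γ (u / Λ) * ∑ i ∈ s, ‖Pc b T1 T2 M q (a i) u‖ ^ 2 ≤
      ∫ u in (0 : ℝ)..Λ, D * s.card * ∑ n ∈ Finset.Icc 1 M, (gg c n *
        (Rw γ (Real.log n / Λ) + 9 * K * b / Λ + Rw γ 0 * xi b)) *
          ‖ww T1 T2 (u - Real.log n)‖ ^ 2 + Rw γ 0 * E := by
    refine intervalIntegral.integral_mono_on hΛ.le
      ((by fun_prop : Continuous fun u : ℝ =>
        Rw γ (u / Λ) * ∑ i ∈ s, ‖Pc b T1 T2 M q (a i) u‖ ^ 2).intervalIntegrable _ _)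
      ((by fun_prop : Continuous fun u : ℝ => D * s.card * ∑ n ∈ Finset.Icc 1 M, (gg c n *
        (Rw γ (Real.log n / Λ) + 9 * K * b / Λ + Rw γ 0 * xi b)) *
          ‖ww T1 T2 (u - Real.log n)‖ ^ 2 + Rw γ 0 * E).intervalIntegrable _ _) ?_
    intro u hu
    have h2 := mul_le_mul_of_nonneg_left (Pc_sq hb hT hLS hν0 hν u) (hRn (u / Λ))
    refine h2.trans ?_
    rw [← hE, mul_add]
    refine add_le_add ?_ (mul_le_mul_of_nonneg_right
      (H385.Rw_le γ h0 hπ (u / Λ) (div_nonneg hu.1 hΛ.le)) hE0)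
    rw [mul_left_comm]
    refine mul_le_mul_of_nonneg_left ?_ hD'
    rw [Finset.mul_sum]
    refine Finset.sum_le_sum fun n hn => ?_
    have hg := gg_nonneg c n
    have hww : 0 ≤ ‖ww T1 T2 (u - Real.log n)‖ ^ 2 := sq_nonneg _
    have h3 : Rw γ (u / Λ) * ‖WW b T1 T2 (u - Real.log n)‖ ^ 2 ≤
        (Rw γ (Real.log n / Λ) + 9 * K * b / Λ + Rw γ 0 * xi b) *
          ‖ww T1 T2 (u - Real.log n)‖ ^ 2 := by
      have hn0 := hRn (Real.log n / Λ)
      have hKb : 0 ≤ 9 * K * b / Λ := by positivity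
      have hRx : 0 ≤ Rw γ 0 * xi b := mul_nonneg (hRn 0) hx
      by_cases h : |u - Real.log n| ≤ 9 * b
      · have h4 : Rw γ (u / Λ) ≤ Rw γ (Real.log n / Λ) + 9 * K * b / Λ := by
          have h5 := hK (u / Λ) (Real.log n / Λ)
          have h6 : |u / Λ - Real.log n / Λ| ≤ 9 * b / Λ := by
            rw [← sub_div, abs_div, abs_of_pos hΛ]
            exact div_le_div_of_nonneg_right h hΛ.le
          have h7 := (le_abs_self _).trans (h5.trans (mul_le_mul_of_nonneg_left h6 hK0))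
          have h8 : K * (9 * b / Λ) = 9 * K * b / Λ := by ring
          linarith
        refine (mul_le_mul_of_nonneg_left (WW_sq_le hb T1 T2 _) (hRn _)).trans ?_
        exact mul_le_mul_of_nonneg_right (by linarith) hww
      · push Not at h
        have h4 := WW_sq_tail hb T1 T2 h.le
        have h5 := H385.Rw_le γ h0 hπ (u / Λ) (div_nonneg hu.1 hΛ.le)
        calc Rw γ (u / Λ) * ‖WW b T1 T2 (u - Real.log n)‖ ^ 2 ≤
            Rw γ 0 * (‖ww T1 T2 (u - Real.log n)‖ ^ 2 * xi b) :=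
              mul_le_mul h5 h4 (sq_nonneg _) (hRn 0)
          _ = (Rw γ 0 * xi b) * ‖ww T1 T2 (u - Real.log n)‖ ^ 2 := by ring
          _ ≤ _ := mul_le_mul_of_nonneg_right (by linarith) hww
    calc Rw γ (u / Λ) * (gg c n * ‖WW b T1 T2 (u - Real.log n)‖ ^ 2) =
        gg c n * (Rw γ (u / Λ) * ‖WW b T1 T2 (u - Real.log n)‖ ^ 2) := by ring
      _ ≤ gg c n * ((Rw γ (Real.log n / Λ) + 9 * K * b / Λ + Rw γ 0 * xi b) *
          ‖ww T1 T2 (u - Real.log n)‖ ^ 2) := mul_le_mul_of_nonneg_left h3 hg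
      _ = _ := by ring
  refine h1.trans ?_
  rw [intervalIntegral.integral_add ((by fun_prop : Continuous fun u : ℝ => D * s.card *
      ∑ n ∈ Finset.Icc 1 M, (gg c n *
        (Rw γ (Real.log n / Λ) + 9 * K * b / Λ + Rw γ 0 * xi b)) *
        ‖ww T1 T2 (u - Real.log n)‖ ^ 2).intervalIntegrable _ _)
      ((by fun_prop : Continuous fun _ : ℝ => Rw γ 0 * E).intervalIntegrable _ _),
    intervalIntegral.integral_const, smul_eq_mul, sub_zero]
  refine add_le_add ?_ le_rfl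
  rw [intervalIntegral.integral_const_mul, intervalIntegral.integral_finsetSum (fun n _ =>
    (by fun_prop : Continuous fun u : ℝ => (gg c n *
        (Rw γ (Real.log n / Λ) + 9 * K * b / Λ + Rw γ 0 * xi b)) *
          ‖ww T1 T2 (u - Real.log n)‖ ^ 2).intervalIntegrable _ _), mul_assoc (D * s.card)]
  refine mul_le_mul_of_nonneg_left ?_ hD'
  rw [Finset.mul_sum, ← Finset.sum_add_distrib, Finset.mul_sum]
  refine Finset.sum_le_sum fun n _ => ?_
  rw [intervalIntegral.integral_const_mul]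
  have h3 := ww_sq_shift hT hΛ.le (Real.log n)
  have hg := gg_nonneg c n
  have hn0 := hRn (Real.log n / Λ)
  have hKb : 0 ≤ 9 * K * b / Λ := by positivity
  have hRx : 0 ≤ Rw γ 0 * xi b := mul_nonneg (hRn 0) hx
  have h4 : 0 ≤ gg c n * (Rw γ (Real.log n / Λ) + 9 * K * b / Λ + Rw γ 0 * xi b) :=
    mul_nonneg hg (by linarith)
  refine (mul_le_mul_of_nonneg_left h3 h4).trans (le_of_eq ?_)
  ring

/-- the value at `0` -/
lemma zero_gen {b : ℝ} (hb : 1 ≤ b) {T1 T2 : ℝ} (hT : T1 ≤ T2)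
    (hLS : LSh s a c M q D D' Y) (hD : 0 ≤ D) (hν0 : 0 ≤ ν)
    (hν : ∀ r : ℕ, 1 ≤ r → r ≤ Y → NCr M r ≤ ν) :
    ∑ i ∈ s, ‖Pc b T1 T2 M q (a i) 0‖ ^ 2 ≤ D * s.card * (T2 - T1) ^ 2 *
        (∑ n ∈ (Finset.Icc 1 M).filter (fun n : ℕ => Real.log n ≤ 9 * b), gg c n +
          xi b * ∑ n ∈ Finset.Icc 1 M, gg c n) + D' * s.card * ((T2 - T1) * ν) ^ 2 ∧
    ∑ i ∈ s, ‖Pm b T1 T2 M q (a i) 0‖ ^ 2 ≤ D * s.card * (T2 - T1) ^ 2 *
        (∑ n ∈ (Finset.Icc 1 M).filter (fun n : ℕ => Real.log n ≤ 9 * b), gg c n +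
          xi b * ∑ n ∈ Finset.Icc 1 M, gg c n) + D' * s.card * ((T2 - T1) * ν) ^ 2 := by
  have hD' : 0 ≤ D * s.card := by positivity
  have hx := xi_nonneg b
  have key : ∀ n ∈ Finset.Icc 1 M, ∀ v : ℝ, |v| = Real.log n → gg c n * ‖WW b T1 T2 v‖ ^ 2 ≤
      (T2 - T1) ^ 2 * ((if Real.log n ≤ 9 * b then gg c n else 0) + xi b * gg c n) := by
    intro n hn v hv
    have hg := gg_nonneg c n
    have h2 := WW_sq_ind hb T1 T2 v (P := Real.log n ≤ 9 * b) (fun h => by rwa [hv] at h)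
    have h3 := pow_le_pow_left₀ (norm_nonneg _) (ww_le hT v) 2
    have h4 : 0 ≤ (if Real.log n ≤ 9 * b then (1 : ℝ) else 0) + xi b := by
      split_ifs <;> linarith
    calc gg c n * ‖WW b T1 T2 v‖ ^ 2 ≤ gg c n * ((T2 - T1) ^ 2 *
          ((if Real.log n ≤ 9 * b then 1 else 0) + xi b)) :=
          mul_le_mul_of_nonneg_left (h2.trans (mul_le_mul_of_nonneg_right h3 h4)) hg
      _ = _ := by split_ifs <;> ring
  have hlog : ∀ n ∈ Finset.Icc 1 M, 0 ≤ Real.log (n : ℝ) := by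
    intro n hn
    exact Real.log_nonneg (by exact_mod_cast (Finset.mem_Icc.mp hn).1)
  constructor
  · refine (Pc_sq hb hT hLS hν0 hν 0).trans (add_le_add ?_ le_rfl)
    rw [mul_assoc (D * s.card)]
    refine mul_le_mul_of_nonneg_left ?_ hD'
    rw [Finset.sum_filter, Finset.mul_sum, ← Finset.sum_add_distrib, Finset.mul_sum]
    refine Finset.sum_le_sum fun n hn => key n hn _ ?_
    rw [zero_sub, abs_neg, abs_of_nonneg (hlog n hn)]
  · refine (Pm_sq hb hT hLS hν0 hν 0).trans (add_le_add ?_ le_rfl)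
    rw [mul_assoc (D * s.card)]
    refine mul_le_mul_of_nonneg_left ?_ hD'
    rw [Finset.sum_filter, Finset.mul_sum, ← Finset.sum_add_distrib, Finset.mul_sum]
    refine Finset.sum_le_sum fun n hn => key n hn _ ?_
    rw [zero_add, abs_of_nonneg (hlog n hn)]

end

end Pool.Agent.T9h27.Y
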