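import Pool.Agent.T9h27.Z.Up
import Pool.Agent.T9h27.Y.Bad

/-!
# The upper bound, general exponents (helper27)
-/

set_option autoImplicit false

open MeasureTheory Complex Filter Topology Set
open scoped ComplexConjugate
open H385 (Rw zz)
open H385.PerChi (Rw_cont)
open H370 (mult)

namespace Pool.Agent.T9h27.Y

open Pool.Agent.T9h27.Z

section

variable {ι : Type} {s : Finset ι} {F : ι → ℂ → ℂ} {Z : ι → Finset ℂ} {a : ι → ℕ → ℂ} {M q : ℕ}

open Classical in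
/-- **the upper bound** -/
theorem up_bound {R y l δ H g A : ℝ} (hR : 0 < R) (hy : 0 < y) (hyl : y ≤ l) (hb : 1 ≤ y * R)
    (hg3 : l + 8 * y ≤ 3 * g) (hgl : g ≤ l) (h8g : 8 * y ≤ g)
    (hδ : 0 < δ) (hA : 0 ≤ A) (hC : HC s Z (fun i => mult (F i)) R g A)
    {ρ Cρ : ℝ} (hM : HM s Z (fun i => mult (F i)) R ρ Cρ) {t M₀ : ℝ} (ht : 0 < t) (hM₀ : 1 ≤ M₀)
    {T1 T2 : ℝ} (hT : T1 ≤ T2) (hH0 : 0 < H) (hH : T2 - T1 = H / R) {γ : ℝ} (h0 : 0 < γ)
    (hπ : γ < Real.pi)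
    (hZ : ∀ i ∈ s, ∀ z ∈ Z i, dl z ≤ 1 / 2 ∧ 1 - conj z ∈ Z i ∧
      mult (F i) (1 - conj z) = mult (F i) z)
    (w : ι → ℂ → ℝ) (hw : ∀ i ∈ s, ∀ z ∈ Z i, w i z ≤ 4 * (mult (F i) z : ℝ) -
      H385.PerChi.kk (F i) z ∧ w i z ≤ 3 * (mult (F i) z : ℝ)) {MS : ℝ}
    (hMS : (2 / (l * R)) * ∫ u in (0 : ℝ)..(l * R), Rw γ (u / (l * R)) *
      ∑ i ∈ s, ‖SS (Z i) (mult (F i)) (cz (y * R) T1 T2) u‖ ^ 2 ≤ MS) :
    ∑ i ∈ s, ∑ z ∈ (Z i).filter (fun z => T1 < z.im ∧ z.im ≤ T2), w i z ≤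
      (1 + δ) * MS + s.card * (2 * (1 + 1 / δ) * Rw γ 0 * M₀ ^ 2) +
      4 * (440000 * A * (8 + 4 / y) * s.card) +
      3 * (s.card * ⌈H⌉₊ * (t * (440000 * A * (8 + 4 / y) * M₀ ^ (-(1 / 3) : ℝ)) + Cρ / t +
        A * Real.exp (-(g * ρ)))) := by
  have hl0 : 0 < l := by linarith
  have hΛ : 0 < l * R := by positivity
  have hRc := Rw_cont γ h0 hπ
  have hRn := H385.Rw_nonneg γ h0 hπ
  obtain ⟨o1, o2⟩ := out_in hR hA hC hT hy hb h8g (fun i hi z hz => (hZ i hi z hz).1)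
  have hgl' := mul_le_mul_of_nonneg_right hgl hR.le
  have hlR := mul_le_mul_of_nonneg_right hg3 hR.le
  rw [add_mul] at hlR
  have hyR : 0 ≤ y * R := by positivity
  have hbad := bad_card hR hA hC hT hy hb hΛ (by linarith) (by linarith)
    (fun i hi z hz => (hZ i hi z hz).1) hM₀
  obtain ⟨B, hB⟩ : ∃ B : Finset ι, B = s.filter fun i =>
    M₀ < T0s (y * R) T1 T2 (l * R) (Z i) (mult (F i)) := ⟨_, rfl⟩
  rw [← hB] at hbad
  have hBs : B ⊆ s := by rw [hB]; exact Finset.filter_subset _ _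
  have hcnt := bad_count (H := H) hR (by linarith : (0 : ℝ) ≤ g) hA hC hH0 hH.le hM ht B hBs hbad
  -- the zeros of the exceptional members
  have hbw : ∑ i ∈ B, ∑ z ∈ (Z i).filter (fun z => T1 < z.im ∧ z.im ≤ T2), w i z ≤
      3 * (s.card * ⌈H⌉₊ * (t * (440000 * A * (8 + 4 / y) * M₀ ^ (-(1 / 3) : ℝ)) + Cρ / t +
        A * Real.exp (-(g * ρ)))) := by
    refine le_trans ?_ (mul_le_mul_of_nonneg_left hcnt (by norm_num : (0 : ℝ) ≤ 3))
    rw [Finset.mul_sum]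
    refine Finset.sum_le_sum fun i hi => ?_
    rw [Finset.mul_sum]
    refine Finset.sum_le_sum fun z hz => ?_
    exact (hw i (hBs hi) z (Finset.mem_filter.mp hz).1).2
  -- the others
  have hgood : ∀ i ∈ s, i ∉ B → ∑ z ∈ (Z i).filter (fun z => T1 < z.im ∧ z.im ≤ T2), w i z ≤
      (1 + δ) * ((2 / (l * R)) * ∫ u in (0 : ℝ)..(l * R), Rw γ (u / (l * R)) *
        ‖SS (Z i) (mult (F i)) (cz (y * R) T1 T2) u‖ ^ 2) + 2 * (1 + 1 / δ) * Rw γ 0 * M₀ ^ 2 +
      4 * ∑ z ∈ (Z i).filter (fun z => T1 < z.im ∧ z.im ≤ T2),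
        (mult (F i) z : ℝ) * ‖1 - cz (y * R) T1 T2 (zz z)‖ := by
    intro i hi hiB
    have hT0 : T0s (y * R) T1 T2 (l * R) (Z i) (mult (F i)) ≤ M₀ := by
      by_contra hcon
      push Not at hcon
      apply hiB
      rw [hB, Finset.mem_filter]
      exact ⟨hi, hcon⟩
    have h1 := trace_w' γ (l * R) h0 hπ hΛ (F i)
      ((Z i).filter (fun z => T1 < z.im ∧ z.im ≤ T2)) (by
        intro z hz
        obtain ⟨z1, z2, z3⟩ := Finset.mem_filter.mp hz
        rw [Finset.mem_filter]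
        have him : (1 - conj z).im = z.im := by simp
        rw [him]
        exact ⟨(hZ i hi z z1).2.1, z2, z3⟩) (fun z hz => (hZ i hi z (Finset.mem_filter.mp hz).1).2.2)
      (cz (y * R) T1 T2) (fun z => cz_conj _ _ _ z) (fun x => cz_real hb hT x) (w i)
      (fun z hz => (hw i hi z (Finset.mem_filter.mp hz).1).1)
    refine h1.trans (add_le_add ?_ le_rfl)
    have hsplit : ∀ u : ℝ, ∑ z ∈ (Z i).filter (fun z => T1 < z.im ∧ z.im ≤ T2),
        (mult (F i) z : ℂ) * cz (y * R) T1 T2 (zz z) * cexp (I * u * zz z) =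
        SS (Z i) (mult (F i)) (cz (y * R) T1 T2) u +
        -(∑ z ∈ (Z i).filter (fun z => ¬ (T1 < z.im ∧ z.im ≤ T2)),
        (mult (F i) z : ℂ) * cz (y * R) T1 T2 (zz z) * cexp (I * u * zz z)) := by
      intro u
      unfold SS
      rw [← Finset.sum_filter_add_sum_filter_not (Z i) (fun z => T1 < z.im ∧ z.im ≤ T2)]
      ring
    have hout : ∀ u ∈ Icc 0 (l * R), ‖-(∑ z ∈ (Z i).filter (fun z => ¬ (T1 < z.im ∧ z.im ≤ T2)),
        (mult (F i) z : ℂ) * cz (y * R) T1 T2 (zz z) * cexp (I * u * zz z))‖ ≤ M₀ := by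
      intro u hu
      rw [norm_neg]
      refine le_trans ?_ hT0
      unfold T0s
      refine norm_sum_le_of_le _ fun z _ => ?_
      rw [norm_mul, norm_mul, Complex.norm_natCast]
      refine mul_le_mul_of_nonneg_left ?_ (by positivity)
      rw [Complex.norm_exp]
      refine Real.exp_le_exp.mpr ?_
      have e1 : (I * (u : ℂ) * zz z).re = -(u * (zz z).im) := by
        have : I * (u : ℂ) * zz z = (u : ℂ) * (I * zz z) := by ring
        rw [this, Complex.re_ofReal_mul]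
        simp
      rw [e1]
      have e2 : -(u * (zz z).im) ≤ |u * (zz z).im| := neg_le_abs _
      rw [abs_mul, zz_im_abs, abs_of_nonneg hu.1] at e2
      exact e2.trans (mul_le_mul_of_nonneg_right hu.2 (dl_nonneg z))
    have cS := SS_cont (Z i) (mult (F i)) (cz (y * R) T1 T2)
    have cR : Continuous fun u : ℝ => Rw γ (u / (l * R)) := hRc.comp (continuous_id.div_const _)
    have h2 : ∫ u in (0 : ℝ)..(l * R), Rw γ (u / (l * R)) *
        ‖∑ z ∈ (Z i).filter (fun z => T1 < z.im ∧ z.im ≤ T2),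
          (mult (F i) z : ℂ) * cz (y * R) T1 T2 (zz z) * cexp (I * u * zz z)‖ ^ 2 ≤
        ∫ u in (0 : ℝ)..(l * R), ((1 + δ) * (Rw γ (u / (l * R)) *
          ‖SS (Z i) (mult (F i)) (cz (y * R) T1 T2) u‖ ^ 2) +
            Rw γ 0 * ((1 + 1 / δ) * M₀ ^ 2)) := by
      refine intervalIntegral.integral_mono_on hΛ.le
        ((by fun_prop : Continuous fun u : ℝ => Rw γ (u / (l * R)) *
        ‖∑ z ∈ (Z i).filter (fun z => T1 < z.im ∧ z.im ≤ T2),
          (mult (F i) z : ℂ) * cz (y * R) T1 T2 (zz z) *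
            cexp (I * u * zz z)‖ ^ 2).intervalIntegrable _ _)
        ((by fun_prop : Continuous fun u : ℝ => ((1 + δ) * (Rw γ (u / (l * R)) *
          ‖SS (Z i) (mult (F i)) (cz (y * R) T1 T2) u‖ ^ 2) +
            Rw γ 0 * ((1 + 1 / δ) * M₀ ^ 2))).intervalIntegrable _ _) ?_
      intro u hu
      have hR1 := H385.Rw_le γ h0 hπ (u / (l * R)) (div_nonneg hu.1 hΛ.le)
      have h3 := nsq_add (SS (Z i) (mult (F i)) (cz (y * R) T1 T2) u)
        (-(∑ z ∈ (Z i).filter (fun z => ¬ (T1 < z.im ∧ z.im ≤ T2)),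
          (mult (F i) z : ℂ) * cz (y * R) T1 T2 (zz z) * cexp (I * u * zz z))) hδ
      rw [← hsplit u] at h3
      have h4 := pow_le_pow_left₀ (norm_nonneg _) (hout u hu) 2
      have h5 : (1 + 1 / δ) * ‖-(∑ z ∈ (Z i).filter (fun z => ¬ (T1 < z.im ∧ z.im ≤ T2)),
          (mult (F i) z : ℂ) * cz (y * R) T1 T2 (zz z) * cexp (I * u * zz z))‖ ^ 2 ≤
          (1 + 1 / δ) * M₀ ^ 2 := mul_le_mul_of_nonneg_left h4 (by positivity)
      have h6 := mul_le_mul_of_nonneg_left (h3.trans (add_le_add le_rfl h5)) (hRn (u / (l * R)))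
      have h7 : Rw γ (u / (l * R)) * ((1 + 1 / δ) * M₀ ^ 2) ≤
          Rw γ 0 * ((1 + 1 / δ) * M₀ ^ 2) := mul_le_mul_of_nonneg_right hR1 (by positivity)
      refine h6.trans ?_
      rw [mul_add]
      refine add_le_add (le_of_eq ?_) h7
      ring
    have h3 := mul_le_mul_of_nonneg_left h2 (by positivity : 0 ≤ 2 / (l * R))
    refine h3.trans (le_of_eq ?_)
    rw [intervalIntegral.integral_add, intervalIntegral.integral_const_mul,
      intervalIntegral.integral_const, smul_eq_mul]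
    · field_simp
      ring
    · exact (by fun_prop : Continuous fun u : ℝ => ((1 + δ) * (Rw γ (u / (l * R)) *
          ‖SS (Z i) (mult (F i)) (cz (y * R) T1 T2) u‖ ^ 2))).intervalIntegrable _ _
    · exact continuous_const.intervalIntegrable _ _
  have hsplit : ∑ i ∈ s, ∑ z ∈ (Z i).filter (fun z => T1 < z.im ∧ z.im ≤ T2), w i z =
      ∑ i ∈ B, ∑ z ∈ (Z i).filter (fun z => T1 < z.im ∧ z.im ≤ T2), w i z +
      ∑ i ∈ s \ B, ∑ z ∈ (Z i).filter (fun z => T1 < z.im ∧ z.im ≤ T2), w i z := by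
    rw [← Finset.sum_sdiff hBs]
    ring
  rw [hsplit]
  have hI0 : ∀ i, 0 ≤ (1 + δ) * ((2 / (l * R)) * ∫ u in (0 : ℝ)..(l * R), Rw γ (u / (l * R)) *
        ‖SS (Z i) (mult (F i)) (cz (y * R) T1 T2) u‖ ^ 2) + 2 * (1 + 1 / δ) * Rw γ 0 * M₀ ^ 2 +
      4 * ∑ z ∈ (Z i).filter (fun z => T1 < z.im ∧ z.im ≤ T2),
        (mult (F i) z : ℝ) * ‖1 - cz (y * R) T1 T2 (zz z)‖ := by
    intro i
    have h1 : 0 ≤ ∫ u in (0 : ℝ)..(l * R), Rw γ (u / (l * R)) *
        ‖SS (Z i) (mult (F i)) (cz (y * R) T1 T2) u‖ ^ 2 :=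
      intervalIntegral.integral_nonneg hΛ.le fun u _ => mul_nonneg (hRn _) (sq_nonneg _)
    have h2 := hRn 0
    positivity
  have hg1 : ∑ i ∈ s \ B, ∑ z ∈ (Z i).filter (fun z => T1 < z.im ∧ z.im ≤ T2), w i z ≤
      (1 + δ) * MS + s.card * (2 * (1 + 1 / δ) * Rw γ 0 * M₀ ^ 2) +
      4 * (440000 * A * (8 + 4 / y) * s.card) := by
    have h1 : ∑ i ∈ s \ B, ∑ z ∈ (Z i).filter (fun z => T1 < z.im ∧ z.im ≤ T2), w i z ≤
        ∑ i ∈ s, ((1 + δ) * ((2 / (l * R)) * ∫ u in (0 : ℝ)..(l * R), Rw γ (u / (l * R)) *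
        ‖SS (Z i) (mult (F i)) (cz (y * R) T1 T2) u‖ ^ 2) + 2 * (1 + 1 / δ) * Rw γ 0 * M₀ ^ 2 +
      4 * ∑ z ∈ (Z i).filter (fun z => T1 < z.im ∧ z.im ≤ T2),
        (mult (F i) z : ℝ) * ‖1 - cz (y * R) T1 T2 (zz z)‖) := by
      refine (Finset.sum_le_sum fun i hi => ?_).trans
        (Finset.sum_le_sum_of_subset_of_nonneg Finset.sdiff_subset fun i _ _ => hI0 i)
      rw [Finset.mem_sdiff] at hi
      exact hgood i hi.1 hi.2
    refine h1.trans ?_
    rw [Finset.sum_add_distrib, Finset.sum_add_distrib, Finset.sum_const, nsmul_eq_mul,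
      ← Finset.mul_sum, ← Finset.mul_sum, ← Finset.mul_sum]
    have h2 : ∑ i ∈ s, ∫ u in (0 : ℝ)..(l * R), Rw γ (u / (l * R)) *
        ‖SS (Z i) (mult (F i)) (cz (y * R) T1 T2) u‖ ^ 2 =
        ∫ u in (0 : ℝ)..(l * R), Rw γ (u / (l * R)) *
          ∑ i ∈ s, ‖SS (Z i) (mult (F i)) (cz (y * R) T1 T2) u‖ ^ 2 := by
      rw [← intervalIntegral.integral_finsetSum]
      · refine intervalIntegral.integral_congr fun u _ => ?_
        rw [Finset.mul_sum]
      · intro i _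
        have cS := SS_cont (Z i) (mult (F i)) (cz (y * R) T1 T2)
        have cR : Continuous fun u : ℝ => Rw γ (u / (l * R)) :=
          hRc.comp (continuous_id.div_const _)
        exact (by fun_prop : Continuous fun u : ℝ => Rw γ (u / (l * R)) *
          ‖SS (Z i) (mult (F i)) (cz (y * R) T1 T2) u‖ ^ 2).intervalIntegrable _ _
    rw [h2]
    have h3 := mul_le_mul_of_nonneg_left hMS (by positivity : 0 ≤ 1 + δ)
    have h4 := mul_le_mul_of_nonneg_left o2 (by norm_num : (0 : ℝ) ≤ 4)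
    exact add_le_add (add_le_add h3 le_rfl) h4
  linarith

end

end Pool.Agent.T9h27.Y
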