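import Pool.Agent.T9h27.Y.Ms
import Pool.Agent.T9h27.W.Card
import Pool.Agent.H385R2.PrimLSM
import Pool.Agent.H385R2.PrimSetM
import Pool.Agent.H385R2.NTW

/-!
# The large sieve with the sharp constant for the twists, in the form used here (helper27)
-/

set_option autoImplicit false

open Filter Topology

namespace Pool.Agent.T9h27.Y

open Pool.Agent.T9h27.Z (NCs)
open H385 (primFamM primSetM mem_primSetM primFamM_eq cM cM_pos prim_mass_M prim_ls_M IX ncc)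
open W388 (rad rad_squarefree primFamM_rad)

/-- the members with multiplicity -/
noncomputable def Sw (M X Y : ℕ) : Finset (Σ _ : IX, ℕ) :=
  (primSetM M X Y).sigma (fun i => Finset.range ((Nat.factorial Y / i.1) ^ 2))

lemma mem_Sw {M X Y : ℕ} {p : Σ _ : IX, ℕ} (hp : p ∈ Sw M X Y) : p.1 ∈ primSetM M X Y :=
  (Finset.mem_sigma.mp hp).1

lemma mem_Sw' {M X Y : ℕ} {i : IX} (hi : i ∈ primSetM M X Y) :
    (⟨i, 0⟩ : Σ _ : IX, ℕ) ∈ Sw M X Y := by
  obtain ⟨h1, h2, h3, h4⟩ := (mem_primSetM M X Y i).mp hi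
  refine Finset.mem_sigma.mpr ⟨hi, Finset.mem_range.mpr ?_⟩
  have h5 : 0 < Nat.factorial Y / i.1 :=
    Nat.div_pos (Nat.le_of_dvd (Nat.factorial_pos Y) (Nat.dvd_factorial (by omega) h2)) (by omega)
  positivity

lemma sum_Sw (M X Y : ℕ) (f : IX → ℝ) :
    ∑ p ∈ Sw M X Y, f p.1 = (Nat.factorial Y : ℝ) ^ 2 * primFamM M X Y (fun q χ => f ⟨q, χ⟩) := by
  unfold Sw
  rw [Finset.sum_sigma, primFamM_eq, Finset.mul_sum]
  refine Finset.sum_congr rfl fun i hi => ?_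
  obtain ⟨h1, h2, h3, h4⟩ := (mem_primSetM M X Y i).mp hi
  change ∑ _s ∈ Finset.range ((Nat.factorial Y / i.1) ^ 2), f i = _
  rw [Finset.sum_const, Finset.card_range, nsmul_eq_mul]
  have hd : i.1 ∣ Nat.factorial Y := Nat.dvd_factorial (by omega) h2
  have hi0 : (i.1 : ℝ) ≠ 0 := by exact_mod_cast (by omega : i.1 ≠ 0)
  rw [Nat.cast_pow, Nat.cast_div hd hi0]
  have e1 : f ⟨i.1, i.2⟩ = f i := rfl
  rw [e1]
  field_simp

lemma card_Sw (M X Y : ℕ) :
    ((Sw M X Y).card : ℝ) = (Nat.factorial Y : ℝ) ^ 2 * primFamM M X Y (fun _ _ => 1) := by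
  have h := sum_Sw M X Y (fun _ => 1)
  simpa using h

/-- the coefficients -/
noncomputable def ac (c₀ : ℕ → ℂ) (i : IX) (m : ℕ) : ℂ :=
  i.2 (m : ZMod i.1) * (c₀ m * (ArithmeticFunction.vonMangoldt m : ℂ))

lemma norm_ac_le {c₀ : ℕ → ℂ} {B : ℝ} (hc : ∀ m, ‖c₀ m‖ ≤ B) (i : IX) (m : ℕ) :
    ‖ac c₀ i m‖ ≤ B * ArithmeticFunction.vonMangoldt m := by
  unfold ac
  rw [norm_mul, norm_mul, Complex.norm_real,
    Real.norm_of_nonneg ArithmeticFunction.vonMangoldt_nonneg]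
  have h1 := DirichletCharacter.norm_le_one i.2 (m : ZMod i.1)
  have h2 : ‖c₀ m‖ * ArithmeticFunction.vonMangoldt m ≤ B * ArithmeticFunction.vonMangoldt m :=
    mul_le_mul_of_nonneg_right (hc m) ArithmeticFunction.vonMangoldt_nonneg
  refine le_trans (mul_le_of_le_one_left ?_ h1) h2
  exact mul_nonneg (norm_nonneg _) ArithmeticFunction.vonMangoldt_nonneg

lemma ncr_le {ν : ℝ} (hν : 0 < ν) : ∃ C : ℝ, 0 < C ∧ ∀ M r : ℕ, 1 ≤ r →
    NCr M r ≤ ν * Real.log r + C := by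
  obtain ⟨C, hC, hbd⟩ := H385.ncc_tsum_bound ν hν
  refine ⟨C, hC, fun M r hr => le_trans ?_ (hbd r hr)⟩
  have h2 : NCr M r = ∑ n ∈ Finset.Icc 1 M, ncc r n := by
    unfold NCr ncc
    refine Finset.sum_congr rfl fun n _ => ?_
    split_ifs <;> simp [div_eq_mul_inv]
  rw [h2]
  exact Summable.sum_le_tsum _ (fun n _ => H385.ncc_nonneg r n) (H385.ncc_summable r hr)

lemma ncs_le' {B : ℝ} (hB : 0 ≤ B) {P : ℕ} (hP : 1 ≤ P) : ∃ C : ℝ, 0 ≤ C ∧ ∀ (a : ℕ → ℂ),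
    (∀ n : ℕ, ‖a n‖ ≤ B * ArithmeticFunction.vonMangoldt n) → ∀ M : ℕ, NCs M P a ≤ C := by
  refine ⟨B * ∑' n, ncc P n, mul_nonneg hB (tsum_nonneg fun n => H385.ncc_nonneg P n),
    fun a ha M => ?_⟩
  have h2 : NCs M P a ≤ ∑ n ∈ Finset.Icc 1 M, B * ncc P n := by
    unfold NCs
    refine Finset.sum_le_sum fun n _ => ?_
    unfold ncc
    split_ifs
    · simp
    · have h3 := mul_le_mul_of_nonneg_right (ha n) (inv_nonneg.mpr (Real.sqrt_nonneg (n : ℝ)))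
      refine h3.trans (le_of_eq ?_)
      rw [div_eq_mul_inv]
      ring
  refine h2.trans ?_
  rw [← Finset.mul_sum]
  exact mul_le_mul_of_nonneg_left (Summable.sum_le_tsum _ (fun n _ => H385.ncc_nonneg P n)
    (H385.ncc_summable P hP)) hB

/-- **the large sieve** -/
theorem lsh_tw {M₀ : ℕ} (hM₀ : M₀ ≠ 0) {D : ℝ} (hD : 1 < D) :
    ∃ (κ₀ : ℝ) (P : ℕ), 2 ≤ κ₀ ∧ 1 ≤ P ∧ ∀ (B κ : ℝ), 0 ≤ B → κ₀ ≤ κ → ∃ (D' ζ : ℝ), 0 ≤ D' ∧
      0 < ζ ∧ ∀ X Y : ℕ, 1 ≤ X → κ * X ≤ Y → (Y : ℝ) ≤ κ ^ 3 * X →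
        1 ≤ primFamM M₀ X Y (fun _ _ => 1) ∧
        ∀ M : ℕ, (M : ℝ) ≤ ζ * (X : ℝ) ^ 2 → ∀ c₀ : ℕ → ℂ, (∀ m, ‖c₀ m‖ ≤ B) →
          LSh (Sw M₀ X Y) (fun p => ac c₀ p.1) c₀ M P D D' (P * Y) := by
  have hsq := rad_squarefree M₀
  have hcp := cM_pos (rad M₀) hsq
  obtain ⟨C4, hC4, hmass⟩ := prim_mass_M (rad M₀) hsq
  obtain ⟨ε, hε⟩ : ∃ ε : ℝ, ε = min 1 ((D - 1) / 14) := ⟨_, rfl⟩
  have hε0 : 0 < ε := by
    rw [hε]
    exact lt_min one_pos (by linarith)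
  have hε1 : ε ≤ 1 := by rw [hε]; exact min_le_left _ _
  have hεD : 14 * ε ≤ D - 1 := by
    have h1 : ε ≤ (D - 1) / 14 := by rw [hε]; exact min_le_right _ _
    linarith
  have hε2 : ε ^ 2 ≤ ε := by nlinarith
  have hε3 : ε ^ 3 ≤ ε := by nlinarith
  have hcube : (1 + ε) ^ 3 ≤ 1 + (D - 1) / 2 := by
    have e1 : (1 + ε) ^ 3 = 1 + 3 * ε + 3 * ε ^ 2 + ε ^ 3 := by ring
    rw [e1]
    linarith
  obtain ⟨C, P, hC, hP, hls⟩ := prim_ls_M (rad M₀) hsq ε hε0 hε1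
  obtain ⟨c, hcd⟩ : ∃ c : ℝ, c = cM (rad M₀) := ⟨_, rfl⟩
  rw [← hcd] at hcp hmass hls
  obtain ⟨ℓ, hℓ⟩ : ∃ ℓ : ℝ, ℓ = 1 + (C4 + 1) / c + 2 * (4 * C + D * C4) / (c * (D - 1)) := ⟨_, rfl⟩
  have hD1 : 0 < D - 1 := by linarith
  have l1 : 0 ≤ (C4 + 1) / c := by positivity
  have l2 : 0 ≤ 2 * (4 * C + D * C4) / (c * (D - 1)) := by positivity
  refine ⟨Real.exp ℓ, P, ?_, hP, fun B κ hB hκ => ?_⟩
  · have h1 := Real.add_one_le_exp ℓ
    linarith
  have hκ0 : 0 < κ := (Real.exp_pos _).trans_le hκ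
  obtain ⟨ζ, hζ⟩ : ∃ ζ : ℝ, ζ = Real.log (1 + ε) / Real.pi := ⟨_, rfl⟩
  have hlε : 0 < Real.log (1 + ε) := Real.log_pos (by linarith)
  refine ⟨C * (P * κ ^ 3) * B ^ 2, ζ, by positivity, by rw [hζ]; positivity,
    fun X Y hX hXY hYX => ?_⟩
  have hX0 : (0 : ℝ) < X := by exact_mod_cast hX
  have hXY1 : (X : ℝ) ≤ Y := by
    have h1 : 1 ≤ κ := by
      have := Real.add_one_le_exp ℓ
      linarith
    have := mul_le_mul_of_nonneg_right h1 hX0.le
    linarith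
  have hXY' : X ≤ Y := by exact_mod_cast hXY1
  obtain ⟨L, hL⟩ : ∃ L : ℝ, L = Real.log ((Y : ℝ) / X) := ⟨_, rfl⟩
  have hLℓ : ℓ ≤ L := by
    have h1 : κ ≤ (Y : ℝ) / X := by rw [le_div_iff₀ hX0]; exact hXY
    rw [hL, Real.le_log_iff_exp_le (by linarith)]
    exact hκ.trans h1
  have hL0 : 0 ≤ L := by linarith
  obtain ⟨m, hm⟩ : ∃ m : ℝ, m = primFamM M₀ X Y (fun _ _ => 1) := ⟨_, rfl⟩
  have hm1 : c * L - C4 ≤ m := by
    have h1 := (abs_le.mp (hmass X Y hX hXY')).1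
    rw [primFamM_rad hM₀, ← hm, ← hL] at h1
    linarith
  have hcL : C4 + 1 ≤ c * L := by
    have h1 : (C4 + 1) / c ≤ L := by linarith
    rw [div_le_iff₀ hcp] at h1
    linarith
  have hcL2 : 2 * (4 * C + D * C4) ≤ c * L * (D - 1) := by
    have h1 : 2 * (4 * C + D * C4) / (c * (D - 1)) ≤ L := by linarith
    rw [div_le_iff₀ (by positivity)] at h1
    linarith
  rw [← hm]
  refine ⟨by linarith, fun M hM c₀ hc₀ b β hβ hb => ?_⟩
  -- the sequence
  obtain ⟨b', hb'⟩ : ∃ b' : ℕ → ℂ, b' = fun n => if (n ∈ Finset.Icc 1 M ∧ Nat.Coprime n P) then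
    b n * c₀ n else 0 := ⟨_, rfl⟩
  have hb0 : ∀ n, n ∉ Finset.Icc 1 M → b' n = 0 := by
    intro n hn
    rw [hb']
    simp only [hn, false_and, if_false]
  have hbc : ∀ n, ¬ Nat.Coprime n P → b' n = 0 := by
    intro n hn
    rw [hb']
    simp only [hn, and_false, if_false]
  have hbn : ∀ n, ‖b' n‖ ≤ ‖b n‖ * ‖c₀ n‖ := by
    intro n
    rw [hb']
    simp only
    split_ifs
    · rw [norm_mul]
    · rw [norm_zero]
      positivity
  have hsum : Summable (fun n => ArithmeticFunction.vonMangoldt n * ‖b' n‖) := by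
    refine summable_of_ne_finset_zero (s := Finset.Icc 1 M) fun n hn => ?_
    rw [hb0 n hn, norm_zero, mul_zero]
  have key := hls X Y M b' hX hXY' hsum
  rw [primFamM_rad hM₀, ← hL] at key
  -- the left side
  have hleft : ∑ i ∈ Sw M₀ X Y, ‖∑ m ∈ Finset.Icc 1 M,
      b m * (if Nat.Coprime m P then ac c₀ i.1 m else 0)‖ ^ 2 =
      (Nat.factorial Y : ℝ) ^ 2 * primFamM M₀ X Y (fun q χ =>
        ‖∑' n : ℕ, χ (n : ZMod q) * (ArithmeticFunction.vonMangoldt n : ℂ) * b' n‖ ^ 2) := by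
    rw [sum_Sw M₀ X Y (fun i => ‖∑ m ∈ Finset.Icc 1 M,
      b m * (if Nat.Coprime m P then ac c₀ i m else 0)‖ ^ 2)]
    congr 1
    have hcong : ∀ (q : ℕ) (χ : DirichletCharacter ℂ q), ‖∑ m ∈ Finset.Icc 1 M,
        b m * (if Nat.Coprime m P then ac c₀ ⟨q, χ⟩ m else 0)‖ ^ 2 =
        ‖∑' n : ℕ, χ (n : ZMod q) * (ArithmeticFunction.vonMangoldt n : ℂ) * b' n‖ ^ 2 := by
      intro q χ
      rw [tsum_eq_sum (s := Finset.Icc 1 M) (fun n hn => by rw [hb0 n hn, mul_zero])]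
      congr 2
      refine Finset.sum_congr rfl fun n hn => ?_
      rw [hb']
      have hac : ac c₀ ⟨q, χ⟩ n =
        χ (n : ZMod q) * (c₀ n * (ArithmeticFunction.vonMangoldt n : ℂ)) := rfl
      rw [hac]
      by_cases h1 : Nat.Coprime n P
      · rw [if_pos h1]
        simp only
        rw [if_pos ⟨hn, h1⟩]
        ring
      · rw [if_neg h1]
        simp only
        rw [if_neg (fun h => h1 h.2), mul_zero, mul_zero]
    simp only [hcong]
  rw [hleft, card_Sw, ← hm]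
  -- the terms
  obtain ⟨G, hG⟩ : ∃ G : ℝ, G = ∑ m ∈ Finset.Icc 1 M,
        ‖b m‖ ^ 2 * (ArithmeticFunction.vonMangoldt m * ‖c₀ m‖) ^ 2 := ⟨_, rfl⟩
  have hG0 : 0 ≤ G := by
    rw [hG]
    exact Finset.sum_nonneg fun _ _ => by positivity
  have t1 : ∑ n ∈ Finset.Icc 1 M, (ArithmeticFunction.vonMangoldt n) ^ 2 * ‖b' n‖ ^ 2 ≤ G := by
    rw [hG]
    refine Finset.sum_le_sum fun n _ => ?_
    have h1 := pow_le_pow_left₀ (norm_nonneg _) (hbn n) 2
    have h2 := mul_le_mul_of_nonneg_left h1 (sq_nonneg (ArithmeticFunction.vonMangoldt n))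
    refine h2.trans (le_of_eq ?_)
    ring
  have texp : Real.exp (Real.pi * M / (X : ℝ) ^ 2) ≤ 1 + ε := by
    rw [← Real.le_log_iff_exp_le (by linarith), div_le_iff₀ (by positivity)]
    have h1 := mul_le_mul_of_nonneg_left hM Real.pi_pos.le
    refine h1.trans (le_of_eq ?_)
    rw [hζ]
    have := Real.pi_pos
    field_simp
  have s1 : (1 + ε) * Real.exp (Real.pi * M / (X : ℝ) ^ 2) * (c * (1 + ε) * L + C) *
      ∑ n ∈ Finset.Icc 1 M, (ArithmeticFunction.vonMangoldt n) ^ 2 * ‖b' n‖ ^ 2 ≤ D * m * G := by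
    have h1 : (1 + ε) * Real.exp (Real.pi * M / (X : ℝ) ^ 2) * (c * (1 + ε) * L + C) ≤ D * m := by
      have h2 : (1 + ε) * Real.exp (Real.pi * M / (X : ℝ) ^ 2) * (c * (1 + ε) * L + C) ≤
          (1 + ε) * (1 + ε) * (c * (1 + ε) * L + C) := by gcongr
      refine h2.trans ?_
      have e1 : (1 + ε) * (1 + ε) * (c * (1 + ε) * L + C) =
          (1 + ε) ^ 3 * (c * L) + (1 + ε) ^ 2 * C := by ring
      rw [e1]
      have h3 : (1 + ε) ^ 3 * (c * L) ≤ (1 + (D - 1) / 2) * (c * L) :=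
        mul_le_mul_of_nonneg_right hcube (by positivity)
      have h4 : (1 + ε) ^ 2 * C ≤ 4 * C := by
        refine mul_le_mul_of_nonneg_right ?_ hC.le
        nlinarith
      have h5 := mul_le_mul_of_nonneg_left hm1 (by linarith : (0 : ℝ) ≤ D)
      nlinarith
    exact mul_le_mul h1 t1 (Finset.sum_nonneg fun _ _ => by positivity)
      (by
        have : 0 ≤ m := by linarith
        positivity)
  have s2 : ∑ r ∈ Finset.Ioc X (P * Y), (1 / (r : ℝ)) *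
        (∑' n : ℕ, if Nat.Coprime n r then 0 else
          ArithmeticFunction.vonMangoldt n * ‖b' n‖) ^ 2 ≤ P * κ ^ 3 * (B * β) ^ 2 := by
    have h1 : ∀ r ∈ Finset.Ioc X (P * Y), (1 / (r : ℝ)) *
        (∑' n : ℕ, if Nat.Coprime n r then 0 else
          ArithmeticFunction.vonMangoldt n * ‖b' n‖) ^ 2 ≤ 1 / X * (B * β) ^ 2 := by
      intro r hr
      obtain ⟨r1, r2⟩ := Finset.mem_Ioc.mp hr
      have hr1 : (X : ℝ) ≤ r := by exact_mod_cast r1.le
      have h2 : (∑' n : ℕ, if Nat.Coprime n r then 0 else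
          ArithmeticFunction.vonMangoldt n * ‖b' n‖) ≤ B * β := by
        rw [tsum_eq_sum (s := Finset.Icc 1 M) (fun n hn => by
          rw [hb0 n hn, norm_zero, mul_zero, ite_self])]
        refine le_trans ?_ (mul_le_mul_of_nonneg_left (hb r (by omega) r2) hB)
        rw [Finset.mul_sum]
        refine Finset.sum_le_sum fun n _ => ?_
        split_ifs
        · rw [mul_zero]
        · have h3 := (hbn n).trans (mul_le_mul_of_nonneg_left (hc₀ n) (norm_nonneg _))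
          have h4 := mul_le_mul_of_nonneg_left h3
            (ArithmeticFunction.vonMangoldt_nonneg (n := n))
          refine h4.trans (le_of_eq ?_)
          ring
      have h0 : 0 ≤ (∑' n : ℕ, if Nat.Coprime n r then 0 else
          ArithmeticFunction.vonMangoldt n * ‖b' n‖) := tsum_nonneg fun n => by
        split_ifs
        · exact le_rfl
        · exact mul_nonneg ArithmeticFunction.vonMangoldt_nonneg (norm_nonneg _)
      exact mul_le_mul (one_div_le_one_div_of_le hX0 hr1) (pow_le_pow_left₀ h0 h2 2)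
        (sq_nonneg _) (by positivity)
    refine (Finset.sum_le_sum h1).trans ?_
    rw [Finset.sum_const, Nat.card_Ioc, nsmul_eq_mul, ← mul_assoc]
    refine mul_le_mul_of_nonneg_right ?_ (sq_nonneg _)
    rw [mul_one_div, div_le_iff₀ hX0]
    have h2 : ((P * Y - X : ℕ) : ℝ) ≤ P * Y := by exact_mod_cast Nat.sub_le _ _
    refine h2.trans ?_
    rw [mul_assoc]
    exact mul_le_mul_of_nonneg_left hYX (Nat.cast_nonneg _)
  have s3 : (∑' n : ℕ, if Nat.Coprime n P then 0 else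
      ArithmeticFunction.vonMangoldt n * ‖b' n‖) = 0 := by
    have : ∀ n : ℕ, (if Nat.Coprime n P then 0 else
      ArithmeticFunction.vonMangoldt n * ‖b' n‖) = 0 := by
      intro n
      split_ifs with h1
      · rfl
      · rw [hbc n h1, norm_zero, mul_zero]
    simp only [this, tsum_zero]
  have s4 : (∑' n : ℕ, if M < n then ArithmeticFunction.vonMangoldt n * ‖b' n‖ else 0) = 0 := by
    have : ∀ n : ℕ, (if M < n then ArithmeticFunction.vonMangoldt n * ‖b' n‖ else 0) = 0 := by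
      intro n
      split_ifs with h1
      · rw [hb0 n (fun h => by
          have := (Finset.mem_Icc.mp h).2
          omega), norm_zero, mul_zero]
      · rfl
    simp only [this, tsum_zero]
  rw [s3, s4] at key
  have hF2 : (0 : ℝ) ≤ (Nat.factorial Y : ℝ) ^ 2 := by positivity
  have hfin : primFamM M₀ X Y (fun q χ =>
        ‖∑' n : ℕ, χ (n : ZMod q) * (ArithmeticFunction.vonMangoldt n : ℂ) * b' n‖ ^ 2) ≤
      D * m * G + C * (P * κ ^ 3) * B ^ 2 * m * β ^ 2 := by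
    refine key.trans ?_
    have h1 := mul_le_mul_of_nonneg_left s2 hC.le
    have h2 : C * (P * κ ^ 3 * (B * β) ^ 2) ≤ C * (P * κ ^ 3) * B ^ 2 * m * β ^ 2 := by
      have h3 : 0 ≤ C * (P * κ ^ 3) * B ^ 2 * β ^ 2 := by positivity
      have h4 := mul_le_mul_of_nonneg_left (by linarith : 1 ≤ m) h3
      calc C * (P * κ ^ 3 * (B * β) ^ 2) = C * (P * κ ^ 3) * B ^ 2 * β ^ 2 * 1 := by ring
        _ ≤ C * (P * κ ^ 3) * B ^ 2 * β ^ 2 * m := h4
        _ = _ := by ring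
    have h5 : C * (L + 1) * ((0 : ℝ) ^ 2 + 0 ^ 2) = 0 := by ring
    rw [h5, add_zero]
    linarith
  rw [← hG]
  refine (mul_le_mul_of_nonneg_left hfin hF2).trans (le_of_eq ?_)
  ring

end Pool.Agent.T9h27.Y
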