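import Pool.Agent.T9h27.Y.Ls
import Pool.Agent.T9h27.W.Expw
import Pool.Agent.T9h27.W.CorV

/-!
# The density theorems for the twists, with multiplicities (helper27)
-/

set_option autoImplicit false

open Filter Topology

namespace Pool.Agent.T9h27.Y

open Pool.Agent.T9h27.D (farZ Nfar NS)
open Pool.Agent.T9h27.C (zd nd)
open Pool.Agent.T9h27.W (TwData DF mem_DF GM VV dens_V expm_tw)
open H385 (primFamM primSetM mem_primSetM primFamM_eq IX)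

lemma nfar_mono {F : ℂ → ℂ} {δ a b b' : ℝ} (hbb : b ≤ b') (hfin : (farZ F δ a b').Finite) :
    (farZ F δ a b).Finite ∧ Nfar F δ a b ≤ Nfar F δ a b' := by
  have hsub : farZ F δ a b ⊆ farZ F δ a b' := fun s hs =>
    ⟨hs.1, hs.2.1, hs.2.2.1, hs.2.2.2.1.trans hbb, hs.2.2.2.2⟩
  refine ⟨hfin.subset hsub, ?_⟩
  unfold Nfar
  rw [finsum_mem_eq_finite_toFinset_sum _ hfin,
    finsum_mem_eq_finite_toFinset_sum _ (hfin.subset hsub)]
  refine Finset.sum_le_sum_of_subset_of_nonneg (fun s hs => ?_) fun _ _ _ => Nat.zero_le _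
  rw [Set.Finite.mem_toFinset] at hs ⊢
  exact hsub hs

/-- from the plain sum to the sum with multiplicity -/
lemma sum_Sw_le {M X Y : ℕ} (hX : 1 ≤ X) (hmass : 1 ≤ primFamM M X Y (fun _ _ => 1))
    {f : IX → ℝ} (hf : ∀ i, 0 ≤ f i) {V κ : ℝ} (hV : ∑ i ∈ primSetM M X Y, f i ≤ (Y : ℝ) ^ 2 * V)
    (hYX : (Y : ℝ) ≤ κ ^ 3 * X) (hV0 : 0 ≤ V) :
    ∑ p ∈ Sw M X Y, f p.1 ≤ κ ^ 6 * ((Sw M X Y).card * V) := by
  have hX0 : (0 : ℝ) < X := by exact_mod_cast hX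
  rw [sum_Sw, card_Sw, primFamM_eq]
  have h1 : ∑ p ∈ primSetM M X Y, (1 / (p.1 : ℝ) ^ 2) * f ⟨p.1, p.2⟩ ≤
      (1 / (X : ℝ) ^ 2) * ∑ p ∈ primSetM M X Y, f p := by
    rw [Finset.mul_sum]
    refine Finset.sum_le_sum fun p hp => ?_
    obtain ⟨h1, h2, h3, h4⟩ := (mem_primSetM M X Y p).mp hp
    have h5 : (X : ℝ) ≤ p.1 := by exact_mod_cast h1.le
    refine mul_le_mul_of_nonneg_right ?_ (hf p)
    exact one_div_le_one_div_of_le (by positivity) (pow_le_pow_left₀ hX0.le h5 2)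
  have h2 : (1 / (X : ℝ) ^ 2) * ∑ p ∈ primSetM M X Y, f p ≤ κ ^ 6 * V := by
    refine (mul_le_mul_of_nonneg_left hV (by positivity)).trans ?_
    have h3 : (Y : ℝ) ^ 2 ≤ (κ ^ 3 * X) ^ 2 := pow_le_pow_left₀ (Nat.cast_nonneg _) hYX 2
    have h4 : 1 / (X : ℝ) ^ 2 * ((Y : ℝ) ^ 2 * V) = (Y : ℝ) ^ 2 / (X : ℝ) ^ 2 * V := by ring
    rw [h4]
    refine mul_le_mul_of_nonneg_right ?_ hV0
    rw [div_le_iff₀ (by positivity)]
    refine h3.trans (le_of_eq ?_)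
    ring
  have hF2 : (0 : ℝ) ≤ (Nat.factorial Y : ℝ) ^ 2 := by positivity
  refine (mul_le_mul_of_nonneg_left (h1.trans h2) hF2).trans ?_
  have h6 : 0 ≤ (Nat.factorial Y : ℝ) ^ 2 * (κ ^ 6 * V) := by
    have : 0 ≤ κ ^ 6 := by positivity
    positivity
  have h7 := mul_le_mul_of_nonneg_left hmass h6
  calc (Nat.factorial Y : ℝ) ^ 2 * (κ ^ 6 * V) = (Nat.factorial Y : ℝ) ^ 2 * (κ ^ 6 * V) * 1 := by
        ring
    _ ≤ _ := h7
    _ = _ := by ring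

section

variable {M : Type} [CommMonoidWithZero M] [NormalizationMonoid M]
    [UniqueFactorizationMonoid M] [Subsingleton Mˣ] [Nontrivial M] {N : M →*₀ ℕ} {n₀ : ℕ}
    {ψ : M →*₀ ℂ} {d : ℕ} {A Λ₀ : ℝ} {M₀ : ℕ}
    {c : (Σ q : ℕ, DirichletCharacter ℂ q) → M →*₀ ℂ}
    {F : (Σ q : ℕ, DirichletCharacter ℂ q) → ℂ → ℂ}

lemma prim_sub {X Y : ℕ} (hX : 1 ≤ X) : primSetM M₀ X Y ⊆ DF Y ∧
    ∀ i ∈ primSetM M₀ X Y, GM M₀ i := by
  constructor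
  · intro i hi
    obtain ⟨h1, h2, h3, h4⟩ := (mem_primSetM M₀ X Y i).mp hi
    exact mem_DF.mpr ⟨by omega, h2, h4⟩
  · intro i hi
    obtain ⟨h1, h2, h3, h4⟩ := (mem_primSetM M₀ X Y i).mp hi
    exact ⟨by omega, h3, h4⟩

/-- large `Y` -/
lemma log_big (hΛ : 1 ≤ Λ₀) (hd : 1 ≤ d) : ∃ Y0 : ℝ, 3 ≤ Y0 ∧ ∀ Y : ℝ, Y0 ≤ Y →
    1 ≤ Real.log Y ∧ Real.log Y ≤ Real.log (Λ₀ * Y ^ d) ∧
      Real.log (Λ₀ * Y ^ d) ≤ 101 / 100 * d * Real.log Y := by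
  have hd0 : (1 : ℝ) ≤ d := by exact_mod_cast hd
  refine ⟨3 + Real.exp (100 * Real.log Λ₀), by linarith [Real.exp_pos (100 * Real.log Λ₀)],
    fun Y hY => ?_⟩
  have h3 : 3 ≤ Y := by linarith [Real.exp_pos (100 * Real.log Λ₀)]
  have h1 : 1 ≤ Real.log Y := by
    rw [Real.le_log_iff_exp_le (by linarith)]
    exact (Real.exp_one_lt_d9.le.trans (by norm_num)).trans h3
  have h2 : 100 * Real.log Λ₀ ≤ Real.log Y := by
    rw [Real.le_log_iff_exp_le (by linarith)]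
    linarith
  have hl := Real.log_nonneg hΛ
  have e1 : Real.log (Λ₀ * Y ^ d) = Real.log Λ₀ + d * Real.log Y := by
    rw [Real.log_mul (by linarith) (by positivity), Real.log_pow]
  rw [e1]
  have h4 : Real.log Y ≤ d * Real.log Y := le_mul_of_one_le_left (by linarith) hd0
  refine ⟨h1, by linarith, ?_⟩
  have h5 : 100 * Real.log Λ₀ ≤ d * Real.log Y := h2.trans h4
  linarith

open Classical in
theorem far_tw (hN : NS N n₀) (hD : TwData N ψ d A Λ₀ (GM M₀) c F) (hd2 : 2 ≤ d)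
    {κ cf θ : ℝ} (hθ : 0 < θ) (hcf0 : 1 / 50 ≤ cf)
    (hcf : (cf + 99 / 100 * (d * θ)) * (101 / 100 * d) ≤ 99 / 100 * (4 - d)) :
    ∃ (k0 : ℕ) (Q' Y0 : ℝ), 0 ≤ Q' ∧ ∀ X Y : ℕ, 1 ≤ X → (Y : ℝ) ≤ κ ^ 3 * X →
      1 ≤ primFamM M₀ X Y (fun _ _ => 1) → Y0 ≤ (Y : ℝ) → ∀ t : ℝ,
      |t| ≤ (Λ₀ * (Y : ℝ) ^ d) ^ θ → ∀ k : ℕ, k0 ≤ k →
      (∀ p ∈ Sw M₀ X Y, (farZ (F p.1) (k / Real.log (Λ₀ * (Y : ℝ) ^ d)) t
        (t + 1 / Real.log (Λ₀ * (Y : ℝ) ^ d))).Finite) ∧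
      ∑ p ∈ Sw M₀ X Y, (Nfar (F p.1) (k / Real.log (Λ₀ * (Y : ℝ) ^ d)) t
        (t + 1 / Real.log (Λ₀ * (Y : ℝ) ^ d)) : ℝ) ≤
        Q' * ((Sw M₀ X Y).card * Real.exp (-(cf * k))) := by
  have hd0 : (2 : ℝ) ≤ d := by exact_mod_cast hd2
  obtain ⟨K, hK, hden⟩ := dens_V hN hD hd2 (ε := 1 / 100) (by norm_num) (by norm_num)
  obtain ⟨Y1, hY1, hbig⟩ := log_big (d := d) hD.hL (by omega)
  refine ⟨⌈K * (101 / 100 * d)⌉₊, κ ^ 6 * K, max K Y1, by positivity,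
    fun X Y hX hYX hmass hY t ht k hk => ?_⟩
  have k1 : K ≤ (Y : ℝ) := (le_max_left _ _).trans hY
  have k2 : Y1 ≤ (Y : ℝ) := (le_max_right _ _).trans hY
  obtain ⟨b1, b2, b3⟩ := hbig _ k2
  obtain ⟨y, hy⟩ : ∃ y : ℝ, y = (Y : ℝ) := ⟨_, rfl⟩
  rw [← hy] at ht k1 k2 b1 b2 b3 ⊢
  have hy0 : 0 < y := by linarith
  obtain ⟨R, hR⟩ : ∃ R : ℝ, R = Real.log (Λ₀ * y ^ d) := ⟨_, rfl⟩
  obtain ⟨l, hl⟩ : ∃ l : ℝ, l = Real.log y := ⟨_, rfl⟩
  rw [← hR, ← hl] at b2 b3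
  rw [← hl] at b1
  rw [← hR]
  have hR0 : 0 < R := by linarith
  have hΛ0 : 0 < Λ₀ := by linarith [hD.hL]
  have hΛy : 0 < Λ₀ * y ^ d := by positivity
  obtain ⟨T, hT⟩ : ∃ T : ℝ, T = (Λ₀ * y ^ d) ^ θ := ⟨_, rfl⟩
  rw [← hT] at ht
  have hTe : T = Real.exp (θ * R) := by
    rw [hT, Real.rpow_def_of_pos hΛy, ← hR, mul_comm]
  have hT1 : 1 ≤ T := by
    rw [hTe]
    exact Real.one_le_exp (by positivity)
  have hT0 : 0 < T := by linarith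
  have hlyT : Real.log (y * T) = l + θ * R := by
    rw [Real.log_mul hy0.ne' hT0.ne', hTe, Real.log_exp, ← hl]
  have hyTe : y * T = Real.exp (l + θ * R) := by
    rw [Real.exp_add, hTe, hl, Real.exp_log hy0]
  have hθR : 0 ≤ θ * R := by positivity
  obtain ⟨H, hH⟩ : ∃ H : ℝ, H = 1 / (l + θ * R) := ⟨_, rfl⟩
  have hH1 : H ≤ 1 := by
    rw [hH, div_le_one (by linarith)]
    linarith
  have hHl : H * (l + θ * R) = 1 := by
    rw [hH]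
    have : l + θ * R ≠ 0 := by linarith
    field_simp
  obtain ⟨w, hw⟩ : ∃ w : ℝ, w = (4 - d) * l - d * (θ * R) := ⟨_, rfl⟩
  have hVV : VV d y T H = Real.exp w := by
    unfold VV
    rw [max_eq_left hH1, mul_one, hyTe, ← pow_mul]
    have e1 : y ^ (2 * 2) = Real.exp (4 * l) := by
      have e2 : (4 : ℝ) * l = ((4 : ℕ) : ℝ) * Real.log y := by rw [hl]; norm_num
      rw [e2, Real.exp_nat_mul, Real.exp_log hy0]
    rw [e1, ← Real.exp_nat_mul, ← Real.exp_sub, hw]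
    congr 1
    ring
  -- the two inequalities
  have hd1 : (0 : ℝ) ≤ d := by linarith
  have i2 : cf * R ≤ 99 / 100 * w := by
    have h1 : (cf + 99 / 100 * (d * θ)) * R ≤ (cf + 99 / 100 * (d * θ)) * (101 / 100 * d * l) :=
      mul_le_mul_of_nonneg_left b3 (by positivity)
    have h2 := mul_le_mul_of_nonneg_right hcf (by linarith : (0 : ℝ) ≤ l)
    rw [hw]
    linarith
  have hθR1 : θ * R ≤ l := by
    have h1 : 99 / 100 * (d * (θ * R)) ≤ 99 / 100 * ((4 - d) * l) := by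
      have h2 : 0 ≤ cf * R := by positivity
      rw [hw] at i2
      linarith
    have h3 : (4 - (d : ℝ)) * l ≤ 2 * l := mul_le_mul_of_nonneg_right (by linarith) (by linarith)
    have h4 : 2 * (θ * R) ≤ d * (θ * R) := mul_le_mul_of_nonneg_right hd0 hθR
    linarith
  have i1 : 1 / 100 * (l + θ * R) ≤ w := by
    have h1 : 1 / 50 * R ≤ cf * R := mul_le_mul_of_nonneg_right hcf0 hR0.le
    linarith
  have hk' : K * (101 / 100 * d) ≤ k := by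
    have h1 : K * (101 / 100 * d) ≤ (⌈K * (101 / 100 * d)⌉₊ : ℝ) := Nat.le_ceil _
    have h2 : ((⌈K * (101 / 100 * d)⌉₊ : ℕ) : ℝ) ≤ k := by exact_mod_cast hk
    linarith
  obtain ⟨p1, p2⟩ := prim_sub (M₀ := M₀) (Y := Y) hX
  have h3 := hden Y (by rw [← hy]; exact k1) T H hT1 (by rw [← hy, hlyT, hHl])
    (hH1.trans hT1) (by
      rw [← hy, hVV, hyTe, ← Real.exp_mul]
      refine Real.exp_le_exp.mpr ?_
      linarith) (primSetM M₀ X Y) p1 p2 t ht (k / R) (by positivity) (Or.inr (by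
      rw [← hy, hlyT, div_le_div_iff₀ (by linarith) hR0]
      have h4 : K * R ≤ K * (101 / 100 * d * l) := mul_le_mul_of_nonneg_left b3 (by linarith)
      have h5 : K * (101 / 100 * d) * l ≤ k * l := mul_le_mul_of_nonneg_right hk' (by linarith)
      have h6 : 0 ≤ (k : ℝ) * (θ * R) := by positivity
      linarith))
  rw [← hy] at h3
  obtain ⟨f1, f2⟩ := h3
  have hHR : 1 / R ≤ H := by
    rw [hH]
    refine one_div_le_one_div_of_le (by linarith) ?_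
    have h1 : 2 * l ≤ R := by
      have h2 : Real.log (Λ₀ * y ^ d) = Real.log Λ₀ + d * Real.log y := by
        rw [Real.log_mul (by linarith) (by positivity), Real.log_pow]
      rw [← hR, ← hl] at h2
      have h3 := Real.log_nonneg hD.hL
      have h4 : 2 * l ≤ d * l := mul_le_mul_of_nonneg_right hd0 (by linarith)
      linarith
    linarith
  have hmono : ∀ i ∈ primSetM M₀ X Y, (farZ (F i) (k / R) t (t + 1 / R)).Finite ∧
      Nfar (F i) (k / R) t (t + 1 / R) ≤ Nfar (F i) (k / R) t (t + H) := fun i hi =>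
    nfar_mono (by linarith) (f1 i hi)
  refine ⟨fun p hp => (hmono p.1 (mem_Sw hp)).1, ?_⟩
  have h5 : ∑ i ∈ primSetM M₀ X Y, (Nfar (F i) (k / R) t (t + 1 / R) : ℝ) ≤
      (Y : ℝ) ^ 2 * (K * Real.exp (-(cf * k))) := by
    refine (Finset.sum_le_sum fun i hi =>
      (by exact_mod_cast (hmono i hi).2 : (Nfar (F i) (k / R) t (t + 1 / R) : ℝ) ≤
        (Nfar (F i) (k / R) t (t + H) : ℝ))).trans (f2.trans ?_)
    rw [hlyT, mul_assoc (y ^ 2), hHl, mul_one, hVV, ← Real.exp_mul, ← hy]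
    have h6 : Real.exp (w * (-((1 - 1 / 100) * (k / R)))) ≤ Real.exp (-(cf * k)) := by
      refine Real.exp_le_exp.mpr ?_
      have h7 : cf * k ≤ 99 / 100 * w * (k / R) := by
        have h8 : cf * k = cf * R * (k / R) := by field_simp
        rw [h8]
        exact mul_le_mul_of_nonneg_right i2 (by positivity)
      linarith
    calc K * (y ^ 2 * Real.exp (w * (-((1 - 1 / 100) * (k / R))))) ≤
        K * (y ^ 2 * Real.exp (-(cf * k))) := by gcongr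
      _ = _ := by ring
  have h6 := sum_Sw_le hX hmass (f := fun i => (Nfar (F i) (k / R) t (t + 1 / R) : ℝ))
    (fun i => Nat.cast_nonneg _) h5 hYX (by positivity)
  refine h6.trans (le_of_eq ?_)
  ring

open Classical in
theorem near_tw (hN : NS N n₀) (hD : TwData N ψ d A Λ₀ (GM M₀) c F) (hd3 : d ≤ 3)
    {κ θ : ℝ} (hκ : 1 ≤ κ) (hθ : 0 < θ) (hθ1 : 101 / 100 * d * θ ≤ 1 / 50) :
    ∃ b C Y0 : ℝ, 0 < b ∧ 0 ≤ C ∧ ∀ X Y : ℕ, 1 ≤ X → (Y : ℝ) ≤ κ ^ 3 * X →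
      1 ≤ primFamM M₀ X Y (fun _ _ => 1) → Y0 ≤ (Y : ℝ) → ∀ t : ℝ,
      |t| ≤ (Λ₀ * (Y : ℝ) ^ d) ^ θ → ∀ r : ℝ, 0 ≤ r → r ≤ 1 / 4 →
      (∀ p ∈ Sw M₀ X Y, (zd (F p.1) t r).Finite) ∧
      ∑ p ∈ Sw M₀ X Y, Real.exp (b * (nd (F p.1) t r : ℝ)) ≤
        (Sw M₀ X Y).card * C * Real.exp (C * (r * Real.log (Λ₀ * (Y : ℝ) ^ d))) := by
  have hd0 : (d : ℝ) ≤ 3 := by exact_mod_cast hd3
  have hd1 := hD.hd
  obtain ⟨b, C, X₀, hb, hC, hX₀, hexp⟩ := expm_tw hN hD (θ := 1 / 50) (by norm_num) (by linarith)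
  obtain ⟨Y1, hY1, hbig⟩ := log_big (d := d) hD.hL hd1
  have hκ6 : 1 ≤ κ ^ 6 := one_le_pow₀ hκ
  refine ⟨b, κ ^ 6 * C, max X₀ Y1, hb, by positivity,
    fun X Y hX hYX hmass hY t ht r hr0 hr1 => ?_⟩
  have k1 : X₀ ≤ (Y : ℝ) := (le_max_left _ _).trans hY
  have k2 : Y1 ≤ (Y : ℝ) := (le_max_right _ _).trans hY
  obtain ⟨b1, b2, b3⟩ := hbig _ k2
  have hy0 : (0 : ℝ) < Y := by linarith
  have hΛ0 : 0 < Λ₀ := by linarith [hD.hL]
  obtain ⟨p1, p2⟩ := prim_sub (M₀ := M₀) (Y := Y) hX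
  have ht' : |t| ≤ (Y : ℝ) ^ (1 / 50 : ℝ) := by
    refine ht.trans ?_
    rw [Real.rpow_def_of_pos (by positivity), Real.rpow_def_of_pos hy0]
    refine Real.exp_le_exp.mpr ?_
    have h1 := mul_le_mul_of_nonneg_right b3 hθ.le
    have h2 := mul_le_mul_of_nonneg_right hθ1 (by linarith : (0 : ℝ) ≤ Real.log Y)
    linarith
  obtain ⟨f1, f2⟩ := hexp Y k1 (primSetM M₀ X Y) p1 p2 t ht' r hr0 hr1
  refine ⟨fun p hp => f1 p.1 (mem_Sw hp), ?_⟩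
  have h6 := sum_Sw_le hX hmass (f := fun i => Real.exp (b * (nd (F i) t r : ℝ)))
    (fun i => (Real.exp_pos _).le) (V := C * Real.exp (C * (r * Real.log Y)))
    (by rw [← mul_assoc]; exact f2) hYX (by positivity)
  refine h6.trans ?_
  have h7 : Real.exp (C * (r * Real.log Y)) ≤
      Real.exp (κ ^ 6 * C * (r * Real.log (Λ₀ * (Y : ℝ) ^ d))) := by
    refine Real.exp_le_exp.mpr ?_
    have h8 : C ≤ κ ^ 6 * C := le_mul_of_one_le_left hC.le hκ6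
    have h9 := mul_le_mul_of_nonneg_left b2 hr0
    exact mul_le_mul h8 h9 (mul_nonneg hr0 (by linarith)) (by positivity)
  have hcard : (0 : ℝ) ≤ (Sw M₀ X Y).card := Nat.cast_nonneg _
  calc κ ^ 6 * ((Sw M₀ X Y).card * (C * Real.exp (C * (r * Real.log Y)))) ≤
      κ ^ 6 * ((Sw M₀ X Y).card * (C *
        Real.exp (κ ^ 6 * C * (r * Real.log (Λ₀ * (Y : ℝ) ^ d))))) := by gcongr
    _ = _ := by ring

end

end Pool.Agent.T9h27.Y
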