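import Pool.Agent.T9h27.Y.Asm

/-!
# All windows, general exponents (helper27)
-/

set_option autoImplicit false

open MeasureTheory Complex Filter Topology Set
open scoped ComplexConjugate

namespace Pool.Agent.T9h27.Y

open Pool.Agent.T9h27.Z hiding FD small_win win pos_prop Dat core LSh geo_bd hc_of all_ms
open H385 (Rw zz)
open H370 (mult zset NN Ns Nd)

section

variable {J : Type} {ι : J → Type} {S : (j : J) → Finset (ι j)} {F : (j : J) → ι j → ℂ → ℂ}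
  {a : (j : J) → ι j → ℕ → ℂ} {Q : (j : J) → ι j → ℝ} {X : J → ℝ} {q Yc : J → ℕ}
  {c : ℕ → ℂ} {d A l₂ D D' g cf θ : ℝ}

open Classical in
/-- **the theorem for families** -/
theorem win (hc : W388.SelE c) (h : FD S F a Q X q Yc c d A l₂ D D' g cf θ) {l : ℝ}
    (hl : 1 / 2 ≤ l) (hl2 : l < l₂) (hl21 : l₂ ≤ 1) (hgl : g ≤ l) (hD : 0 < D) {γ : ℝ} (h0 : 0 < γ) (hπ : γ < Real.pi) {κ : ℝ}
    (hκ : Rw γ 0 / l + 2 * l * D * (∫ α in (0 : ℝ)..1, α * Rw γ α) < κ) {δ : ℝ} (hδ : 0 < δ) :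
    ∃ H1 η X0 : ℝ, 1 ≤ H1 ∧ 0 < η ∧ 1 ≤ X0 ∧ ∀ j, X0 ≤ X j → ∀ T1 T2 : ℝ, |T1| ≤ (X j) ^ η →
      H1 ≤ (T2 - T1) * Real.log (X j) → T2 - T1 ≤ (X j) ^ η →
      (∀ i ∈ S j, (zset (F j i) T1 T2).Finite) ∧
      ∑ i ∈ S j, (2 * (NN (F j i) T1 T2 : ℝ) - (Ns (F j i) T1 T2 : ℝ)) ≤
        κ * ∑ i ∈ S j, (NN (F j i) T1 T2 : ℝ) ∧
      ∑ i ∈ S j, (3 * (NN (F j i) T1 T2 : ℝ) - 2 * (Nd (F j i) T1 T2 : ℝ)) ≤
        κ * ∑ i ∈ S j, (NN (F j i) T1 T2 : ℝ) ∧
      ∑ i ∈ S j, |(NN (F j i) T1 T2 : ℝ) - (T2 - T1) * Real.log (X j) / (2 * Real.pi)| ≤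
        δ * ((T2 - T1) * Real.log (X j) / (2 * Real.pi)) * (S j).card := by
  obtain ⟨ε, hε⟩ : ∃ ε : ℝ, ε =
    min (δ / 2) (κ - (Rw γ 0 / l + 2 * l * D * (∫ α in (0 : ℝ)..1, α * Rw γ α))) := ⟨_, rfl⟩
  have hε0 : 0 < ε := by
    rw [hε]
    exact lt_min (by linarith) (by linarith)
  have hεδ : 2 * ε ≤ δ := by
    have h1 : ε ≤ δ / 2 := by rw [hε]; exact min_le_left _ _
    linarith
  have hεκ : ε ≤ κ - (Rw γ 0 / l + 2 * l * D * (∫ α in (0 : ℝ)..1, α * Rw γ α)) := by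
    rw [hε]; exact min_le_right _ _
  obtain ⟨H1, η, X0, hH1, hη, hX0, hsm⟩ := small_win hc h hl hl2 hl21 hgl hD h0 hπ hε0
  refine ⟨H1, η, X0, hH1, hη, hX0, fun j hj => ?_⟩
  obtain ⟨hlog, Z, hZ, hsm⟩ := hsm j hj
  intro T1 T2 hT1 hH hT2
  obtain ⟨Y, hY⟩ : ∃ Y : ℝ, Y = (X j) ^ η := ⟨_, rfl⟩
  rw [← hY] at hZ hsm hT1 hT2
  have hY0 : 0 ≤ Y := (abs_nonneg _).trans hT1
  have hR : 0 < Real.log (X j) := by linarith
  have hTT : T1 ≤ T2 := by
    by_contra hcon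
    push Not at hcon
    have h1 := mul_neg_of_neg_of_pos (by linarith only [hcon] : T2 - T1 < 0) hR
    linarith only [h1, hH, hH1]
  have hA1 := abs_le.mp hT1
  have hT1' : |T1| ≤ 3 * Y := by linarith
  have hT2' : |T2| ≤ 3 * Y := by
    rw [abs_le]
    constructor <;> linarith
  have hiff : ∀ i ∈ S j, ∀ z, (z ∈ Z i ∧ T1 < z.im ∧ z.im ≤ T2) ↔ z ∈ zset (F j i) T1 T2 := by
    intro i hi z
    constructor
    · rintro ⟨z1, z2, z3⟩
      obtain ⟨y1, y2, -, -, y5⟩ := (hZ i hi z).1 z1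
      exact ⟨y1, y2, z2, z3, y5⟩
    · rintro ⟨y1, y2, y3, y4, y5⟩
      refine ⟨(hZ i hi z).2 ⟨y1, y2, by linarith, by linarith, y5⟩, y3, y4⟩
  have hm : ∀ i ∈ S j, ∀ z ∈ Z i, 1 ≤ mult (F j i) z := by
    intro i hi z hz
    obtain ⟨-, -, -, -, y5⟩ := (hZ i hi z).1 hz
    obtain ⟨g1, g2, g3⟩ := h.hG j i hi
    exact Pool.Agent.T9h27.D.ord_pos g3.diff (g3.nzr 2 (by norm_num)) y5
  have main : ∀ w : ι j → ℂ → ℝ, (∀ i ∈ S j, ∀ z ∈ Z i,
        w i z ≤ 4 * (mult (F j i) z : ℝ) - H385.PerChi.kk (F j i) z ∧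
          w i z ≤ 3 * (mult (F j i) z : ℝ)) →
      ∑ i ∈ S j, ∑ z ∈ (Z i).filter (fun z => T1 < z.im ∧ z.im ≤ T2), w i z ≤
        κ * ∑ i ∈ S j, (NN (F j i) T1 T2 : ℝ) := by
    intro w hw
    have h1 := all_win (G := fun a b => ∑ i ∈ S j, ∑ z ∈ (Z i).filter
        (fun z => a < z.im ∧ z.im ≤ b), (w i z - κ * (mult (F j i) z : ℝ)))
      (R := Real.log (X j)) (H1 := H1) (T := 3 * Y) (V := 0) hR (by linarith) (by
      intro a b c hab hbc
      rw [← Finset.sum_add_distrib]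
      exact le_of_eq (Finset.sum_congr rfl fun i _ => split_win (Z i) _ hab hbc)) (by
      intro a b ha hb h3 h4
      have h5 := (hsm a b ha hb h3 h4 w hw).1
      have h6 : 0 ≤ ∑ i ∈ S j, ∑ z ∈ (Z i).filter (fun z => a < z.im ∧ z.im ≤ b),
          (mult (F j i) z : ℝ) := Finset.sum_nonneg fun i _ => Finset.sum_nonneg fun z _ =>
            Nat.cast_nonneg _
      have h7 := mul_le_mul_of_nonneg_right hεκ h6
      simp only [Finset.sum_sub_distrib, ← Finset.mul_sum]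
      linarith) hT1' hT2' hH
    simp only [Finset.sum_sub_distrib, ← Finset.mul_sum] at h1
    have h2 : ∑ i ∈ S j, (NN (F j i) T1 T2 : ℝ) = ∑ i ∈ S j,
        ∑ z ∈ (Z i).filter (fun z => T1 < z.im ∧ z.im ≤ T2), (mult (F j i) z : ℝ) :=
      Finset.sum_congr rfl fun i hi => NN_filter (hiff i hi)
    rw [h2]
    linarith
  refine ⟨fun i hi => ?_, ?_, ?_, ?_⟩
  · rw [zset_filter (hiff i hi)]
    exact Finset.finite_toSet _
  · refine le_trans (le_of_eq ?_) (main (fun i z => 2 * (mult (F j i) z : ℝ) -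
        if (z.re = 1 / 2 ∧ mult (F j i) z = 1) then 1 else 0)
      (fun i hi z hz => w1_ok (hm i hi z hz)))
    exact Finset.sum_congr rfl fun i hi => Ns_filter (hiff i hi)
  · refine le_trans (le_of_eq ?_) (main (fun i z => 3 * (mult (F j i) z : ℝ) - 2)
      (fun i hi z hz => w2_ok (hm i hi z hz)))
    exact Finset.sum_congr rfl fun i hi => Nd_filter (hiff i hi)
  · have h1 := all_win (G := fun a b => ∑ i ∈ S j, |∑ z ∈ (Z i).filter
        (fun z => a < z.im ∧ z.im ≤ b), (mult (F j i) z : ℝ) -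
          (b - a) * Real.log (X j) / (2 * Real.pi)|)
      (R := Real.log (X j)) (H1 := H1) (T := 3 * Y)
      (V := δ * (Real.log (X j) / (2 * Real.pi)) * (S j).card) hR (by linarith) (by
      intro a b c hab hbc
      rw [← Finset.sum_add_distrib]
      refine Finset.sum_le_sum fun i _ => ?_
      rw [split_win (Z i) _ hab hbc]
      refine le_trans (le_of_eq ?_) (abs_add_le _ _)
      congr 1
      ring) (by
      intro a b ha hb h3 h4
      have h5 := (hsm a b ha hb h3 h4 (fun i z => 3 * (mult (F j i) z : ℝ) - 2)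
        (fun i hi z hz => w2_ok (hm i hi z hz))).2
      have h6 : 0 ≤ ((b - a) * Real.log (X j) / (2 * Real.pi)) * (S j).card := by
        have : 0 ≤ (b - a) * Real.log (X j) := by linarith
        positivity
      have h7 := mul_le_mul_of_nonneg_right hεδ h6
      have e1 : δ * (Real.log (X j) / (2 * Real.pi)) * (S j).card * (b - a) =
        δ * (((b - a) * Real.log (X j) / (2 * Real.pi)) * (S j).card) := by ring
      rw [e1]
      linarith) hT1' hT2' hH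
    have e2 : δ * (Real.log (X j) / (2 * Real.pi)) * (S j).card * (T2 - T1) =
      δ * ((T2 - T1) * Real.log (X j) / (2 * Real.pi)) * (S j).card := by ring
    rw [← e2]
    refine le_trans (le_of_eq (Finset.sum_congr rfl fun i hi => ?_)) h1
    rw [NN_filter (hiff i hi)]

open Classical in
/-- **at every height a large proportion of the family has a simple critical zero close to
that height** -/
theorem pos_prop (hc : W388.SelE c) (h : FD S F a Q X q Yc c d A l₂ D D' g cf θ) {l : ℝ}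
    (hl : 1 / 2 ≤ l) (hl2 : l < l₂) (hl21 : l₂ ≤ 1) (hgl : g ≤ l) (hD : 0 < D) {γ : ℝ} (h0 : 0 < γ) (hπ : γ < Real.pi) {p : ℝ}
    (hp0 : 0 ≤ p)
    (hp : Rw γ 0 / l + 2 * l * D * (∫ α in (0 : ℝ)..1, α * Rw γ α) < 2 - p) :
    ∃ B η X0 : ℝ, 0 < B ∧ 0 < η ∧ 1 ≤ X0 ∧ ∀ j, X0 ≤ X j → ∀ t : ℝ,
      |t| ≤ (X j) ^ η → p * (S j).card ≤
        ((S j).filter fun i => 0 < Ns (F j i) t (t + B / Real.log (X j))).card := by
  obtain ⟨κ, hκ1, hκ2⟩ := exists_between hp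
  have hκ3 : 0 < 3 - κ := by linarith
  obtain ⟨δ, hδ⟩ : ∃ δ : ℝ, δ = (2 - κ - p) / (3 - κ) := ⟨_, rfl⟩
  have hδ0 : 0 < δ := by
    rw [hδ]
    exact div_pos (by linarith) hκ3
  have hδ1 : δ * (3 - κ) = 2 - κ - p := by
    rw [hδ]
    field_simp
  obtain ⟨B, η, X1, hB, hη, hX1, hwin⟩ := win hc h hl hl2 hl21 hgl hD h0 hπ hκ1 hδ0
  have hpi := Real.pi_pos
  refine ⟨B, η, max X1 (Real.exp B), by linarith, hη, le_max_of_le_left hX1,
    fun j hj t ht => ?_⟩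
  have k1 : X1 ≤ X j := (le_max_left _ _).trans hj
  have k3 : Real.exp B ≤ X j := (le_max_right _ _).trans hj
  have hX := h.hX j
  have hR : B ≤ Real.log (X j) := by
    rw [Real.le_log_iff_exp_le (by linarith)]
    exact k3
  obtain ⟨R, hRd⟩ : ∃ R : ℝ, R = Real.log (X j) := ⟨_, rfl⟩
  have hwin' := hwin j k1 t (t + B / Real.log (X j))
  rw [← hRd] at hwin' hR ⊢
  have hR0 : 0 < R := by linarith
  have hr1 : B / R ≤ 1 := by rw [div_le_one hR0]; exact hR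
  have e1 : t + B / R - t = B / R := by ring
  have e2 : B / R * R = B := by field_simp
  have hXη : 1 ≤ (X j) ^ η := Real.one_le_rpow hX hη.le
  obtain ⟨w1, w2, -, w4⟩ := hwin' ht (by rw [e1, e2]) (by rw [e1]; linarith)
  rw [e1, e2] at w4
  rw [Finset.sum_sub_distrib, ← Finset.mul_sum] at w2
  have hcard : (0 : ℝ) ≤ (S j).card := Nat.cast_nonneg _
  obtain ⟨m, hm⟩ : ∃ m : ℝ, m = B / (2 * Real.pi) := ⟨_, rfl⟩
  rw [← hm] at w4
  have hm0 : 0 < m := by rw [hm]; positivity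
  -- the number of all zeros
  have hNN : (1 - δ) * m * (S j).card ≤ ∑ i ∈ S j, (NN (F j i) t (t + B / R) : ℝ) := by
    have h1 : ∑ i ∈ S j, (m - |(NN (F j i) t (t + B / R) : ℝ) - m|) ≤
        ∑ i ∈ S j, (NN (F j i) t (t + B / R) : ℝ) := by
      refine Finset.sum_le_sum fun i _ => ?_
      have := (abs_le.mp (le_refl |(NN (F j i) t (t + B / R) : ℝ) - m|)).1
      linarith
    rw [Finset.sum_sub_distrib, Finset.sum_const, nsmul_eq_mul] at h1
    linarith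
  obtain ⟨G, hG⟩ : ∃ G : Finset (ι j), G = (S j).filter fun i => 0 < Ns (F j i) t (t + B / R) :=
    ⟨_, rfl⟩
  rw [← hG]
  have hGs : G ⊆ S j := by rw [hG]; exact Finset.filter_subset _ _
  have hGsum : ∑ i ∈ S j, (Ns (F j i) t (t + B / R) : ℝ) =
      ∑ i ∈ G, (Ns (F j i) t (t + B / R) : ℝ) := by
    symm
    refine Finset.sum_subset hGs fun i hi hn => ?_
    rw [hG, Finset.mem_filter, not_and, not_lt, Nat.le_zero] at hn
    rw [hn hi, Nat.cast_zero]
  have hup : ∑ i ∈ G, (Ns (F j i) t (t + B / R) : ℝ) ≤ G.card * m + δ * m * (S j).card := by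
    have h1 : ∑ i ∈ G, (Ns (F j i) t (t + B / R) : ℝ) ≤
        ∑ i ∈ G, (m + |(NN (F j i) t (t + B / R) : ℝ) - m|) := by
      refine Finset.sum_le_sum fun i hi => ?_
      have h2 := ns_le_nn (w1 i (hGs hi))
      have := le_abs_self ((NN (F j i) t (t + B / R) : ℝ) - m)
      linarith
    refine h1.trans ?_
    rw [Finset.sum_add_distrib, Finset.sum_const, nsmul_eq_mul]
    refine add_le_add le_rfl (le_trans ?_ w4)
    exact Finset.sum_le_sum_of_subset_of_nonneg hGs fun _ _ _ => abs_nonneg _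
  rw [← hGsum] at hup
  have h3 := mul_le_mul_of_nonneg_left hNN (by linarith : 0 ≤ 2 - κ)
  have h4 : (p * (S j).card) * m ≤ G.card * m := by
    have e3 : (2 - κ) * ((1 - δ) * m * (S j).card) - δ * m * (S j).card =
        (2 - κ - δ * (3 - κ)) * (m * (S j).card) := by ring
    rw [hδ1] at e3
    have e4 : (2 - κ - (2 - κ - p)) * (m * (S j).card) = (p * (S j).card) * m := by ring
    rw [e4] at e3
    linarith
  exact le_of_mul_le_mul_right h4 hm0

end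

end Pool.Agent.T9h27.Y
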