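import Pool.Agent.T9h27.Y.TwD
import Pool.Agent.T9h27.Y.Win

/-!
# The twists as a family (helper27)
-/

set_option autoImplicit false

open Filter Topology

namespace Pool.Agent.T9h27.Y

open Pool.Agent.T9h27.Z (GoodW NCs)
open Pool.Agent.T9h27.D (farZ Nfar NS)
open Pool.Agent.T9h27.C (zd nd)
open Pool.Agent.T9h27.W (TwData DF mem_DF GM)
open H385 (primFamM primSetM mem_primSetM primFamM_eq IX)

/-- the index set -/
def JT (κ : ℝ) : Type :=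
  {p : ℕ × ℕ // 1 ≤ p.1 ∧ κ * (p.1 : ℝ) ≤ (p.2 : ℝ) ∧ (p.2 : ℝ) ≤ κ ^ 3 * (p.1 : ℝ)}

lemma thr_Y {Λ₀ : ℝ} (hΛ : 1 ≤ Λ₀) {d : ℕ} (hd : 1 ≤ d) (Z : ℝ) : ∃ X0 : ℝ, ∀ y : ℝ, 0 ≤ y →
    X0 ≤ Λ₀ * y ^ d → Z ≤ y := by
  refine ⟨Λ₀ * (max Z 0) ^ d, fun y hy h => ?_⟩
  have h1 : (max Z 0) ^ d ≤ y ^ d := le_of_mul_le_mul_left h (by linarith)
  have h2 := (pow_le_pow_iff_left₀ (le_max_right Z 0) hy (by omega)).mp h1
  exact (le_max_left _ _).trans h2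

lemma primFamM_add (M : ℕ) {X X' Y : ℕ} (h1 : X ≤ X') (h2 : X' ≤ Y)
    (f : (q : ℕ) → DirichletCharacter ℂ q → ℝ) :
    primFamM M X Y f = primFamM M X X' f + primFamM M X' Y f := by
  unfold primFamM
  rw [Finset.sum_filter, Finset.sum_filter, Finset.sum_filter]
  exact (Finset.sum_Ioc_consecutive _ h1 h2).symm

/-- the mass of a long block -/
lemma mass_all {κ : ℝ} (hκ : 2 ≤ κ) {M₀ : ℕ} (h : ∀ X Y : ℕ, 1 ≤ X → κ * X ≤ Y →
    (Y : ℝ) ≤ κ ^ 3 * X → 1 ≤ primFamM M₀ X Y (fun _ _ => 1)) :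
    ∀ X Y : ℕ, 1 ≤ X → κ * X ≤ Y → 1 ≤ primFamM M₀ X Y (fun _ _ => 1) := by
  intro X Y hX hXY
  have hX1 : (1 : ℝ) ≤ X := by exact_mod_cast hX
  obtain ⟨Y', hY'⟩ : ∃ Y' : ℕ, Y' = ⌈κ * X⌉₊ := ⟨_, rfl⟩
  have a1 : κ * X ≤ Y' := by rw [hY']; exact Nat.le_ceil _
  have a2 : (Y' : ℝ) < κ * X + 1 := by
    rw [hY']
    exact Nat.ceil_lt_add_one (by positivity)
  have a5 : Y' ≤ Y := by rw [hY']; exact Nat.ceil_le.mpr hXY
  have c1 : 2 * (X : ℝ) ≤ κ * X := mul_le_mul_of_nonneg_right hκ (by linarith)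
  have a3 : (Y' : ℝ) ≤ κ ^ 3 * X := by
    have c2 : κ * X + 1 ≤ κ * (κ * X) := by nlinarith
    have c3 : κ * (κ * X) ≤ κ * (κ * (κ * X)) :=
      mul_le_mul_of_nonneg_left (le_mul_of_one_le_left (by positivity) (by linarith))
        (by linarith)
    have e1 : κ ^ 3 * X = κ * (κ * (κ * X)) := by ring
    rw [e1]
    linarith
  have a4 : X ≤ Y' := by
    have : (X : ℝ) ≤ Y' := by linarith
    exact_mod_cast this
  rw [primFamM_add M₀ a4 a5]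
  have h1 := h X Y' hX a1 a3
  have h2 := H385.primFamM_nonneg M₀ Y' Y (fun _ _ => 1) (fun _ _ => zero_le_one)
  linarith

section

variable {M : Type} [CommMonoidWithZero M] [NormalizationMonoid M]
    [UniqueFactorizationMonoid M] [Subsingleton Mˣ] [Nontrivial M] {N : M →*₀ ℕ} {n₀ : ℕ}
    {ψ : M →*₀ ℂ} {d : ℕ} {A Λ₀ : ℝ} {M₀ : ℕ}
    {c : (Σ q : ℕ, DirichletCharacter ℂ q) → M →*₀ ℂ}
    {F : (Σ q : ℕ, DirichletCharacter ℂ q) → ℂ → ℂ}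

open Classical in
theorem fd_tw (hN : NS N n₀) (hD : TwData N ψ d A Λ₀ (GM M₀) c F) (hM₀ : M₀ ≠ 0) (hd2 : 2 ≤ d)
    (hd3 : d ≤ 3) {A' : ℝ} (hA' : 1 ≤ A') {c₀ : ℕ → ℂ} {B : ℝ} (hB : 0 ≤ B)
    (hc₀ : ∀ m, ‖c₀ m‖ ≤ B)
    (hgood : ∀ i, GM M₀ i → GoodW d A' (Λ₀ ^ (1 / (d : ℝ)) * i.1) (F i) (ac c₀ i))
    {g cf l₂ D : ℝ} (hl2 : 0 < l₂) (hl2d : d * l₂ < 2) (hD1 : 1 < D) (hg0 : 0 < g) (hgc : g < cf)
    (hlg : l₂ ≤ 3 * g) (hcf0 : 1 / 50 ≤ cf)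
    (hcf : (cf + 99 / 100 * (d * (1 / 500))) * (101 / 100 * d) ≤ 99 / 100 * (4 - d)) :
    ∃ (κ : ℝ) (P : ℕ) (D' : ℝ), 2 ≤ κ ∧
      (∀ X Y : ℕ, 1 ≤ X → κ * X ≤ Y → 1 ≤ primFamM M₀ X Y (fun _ _ => 1)) ∧
      FD (J := JT κ) (ι := fun _ => Σ _ : IX, ℕ) (fun j => Sw M₀ j.1.1 j.1.2)
        (fun _ p => F p.1) (fun _ p => ac c₀ p.1) (fun _ p => Λ₀ ^ (1 / (d : ℝ)) * p.1.1)
        (fun j => Λ₀ * (j.1.2 : ℝ) ^ d) (fun _ => P) (fun j => P * j.1.2) c₀ d A' l₂ D D' g cf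
        (1 / 500) := by
  obtain ⟨κ, P, hκ2, hP, hls⟩ := lsh_tw hM₀ hD1
  obtain ⟨D', ζ, hD'0, hζ, hls⟩ := hls B κ hB le_rfl
  have hΛ := hD.hL
  have hΛ0 : 0 < Λ₀ := by linarith
  have hd0 : (2 : ℝ) ≤ d := by exact_mod_cast hd2
  have hd1 : 1 ≤ d := by omega
  have hκ0 : 0 < κ := by linarith
  obtain ⟨k0, Q', Y0, hQ', hfar⟩ := far_tw (κ := κ) (θ := 1 / 500) hN hD hd2 (by norm_num) hcf0 hcf
  obtain ⟨b, C, Y1, hb, hC, hnear⟩ := near_tw (κ := κ) (θ := 1 / 500) hN hD hd3 (by linarith)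
    (by norm_num) (by
      have : (d : ℝ) ≤ 3 := by exact_mod_cast hd3
      linarith)
  obtain ⟨Y2, hY2, hbig⟩ := log_big (d := d) hΛ hd1
  have hmem : ∀ j : JT κ, ∀ p ∈ Sw M₀ j.1.1 j.1.2, j.1.1 < p.1.1 ∧ p.1.1 ≤ j.1.2 ∧ GM M₀ p.1 := by
    intro j p hp
    obtain ⟨h1, h2, h3, h4⟩ := (mem_primSetM _ _ _ _).mp (mem_Sw hp)
    have h5 := j.2.1
    exact ⟨h1, h2, by omega, h3, h4⟩
  have hlogQ : ∀ q : ℕ, 1 ≤ q → (d : ℝ) * Real.log (Λ₀ ^ (1 / (d : ℝ)) * q) =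
      Real.log Λ₀ + d * Real.log q := by
    intro q hq
    have hq0 : (0 : ℝ) < q := by exact_mod_cast hq
    rw [Real.log_mul (by positivity) hq0.ne', Real.log_rpow hΛ0]
    field_simp
  have hlogX : ∀ y : ℝ, 0 < y → Real.log (Λ₀ * y ^ d) = Real.log Λ₀ + d * Real.log y := by
    intro y hy
    rw [Real.log_mul hΛ0.ne' (by positivity), Real.log_pow]
  have hYpos : ∀ j : JT κ, (1 : ℝ) ≤ (j.1.2 : ℝ) := by
    intro j
    have h1 : (1 : ℝ) ≤ (j.1.1 : ℝ) := by exact_mod_cast j.2.1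
    have h2 := j.2.2.1
    nlinarith
  have hmass : ∀ j : JT κ, 1 ≤ primFamM M₀ j.1.1 j.1.2 (fun _ _ => 1) := fun j =>
    (hls j.1.1 j.1.2 j.2.1 j.2.2.1 j.2.2.2).1
  refine ⟨κ, P, D', hκ2, mass_all hκ2 fun X Y a b c => (hls X Y a b c).1, ⟨by linarith, hA', ?_, ?_, ?_, ?_, ?_, ?_, hg0, hgc, hlg, hD'0,
    by norm_num, by norm_num, ?_, ?_⟩⟩
  · intro j
    exact one_le_mul_of_one_le_of_one_le hΛ (one_le_pow₀ (hYpos j))
  · intro j p hp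
    obtain ⟨h1, h2, h3⟩ := hmem j p hp
    have hq1 : 1 ≤ p.1.1 := by omega
    have hq1' : (1 : ℝ) ≤ (p.1.1 : ℝ) := by exact_mod_cast hq1
    refine ⟨one_le_mul_of_one_le_of_one_le (Real.one_le_rpow hΛ (by positivity)) hq1', ?_,
      hgood p.1 h3⟩
    rw [hlogQ _ hq1, hlogX _ (by linarith [hYpos j])]
    have h4 : Real.log (p.1.1 : ℝ) ≤ Real.log (j.1.2 : ℝ) :=
      Real.log_le_log (by linarith) (by exact_mod_cast h2)
    have := mul_le_mul_of_nonneg_left h4 (by linarith : (0 : ℝ) ≤ d)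
    linarith
  · intro δ hδ
    obtain ⟨X0, hX0⟩ := thr_Y hΛ hd1 (max Y2 (Real.exp (3 * d * Real.log κ / δ)))
    refine ⟨X0, fun j hj => ?_⟩
    have h1 := hX0 _ (by linarith [hYpos j]) hj
    have h2 : Y2 ≤ (j.1.2 : ℝ) := (le_max_left _ _).trans h1
    have h3 : Real.exp (3 * d * Real.log κ / δ) ≤ (j.1.2 : ℝ) := (le_max_right _ _).trans h1
    obtain ⟨b1, b2, b3⟩ := hbig _ h2
    have hlκ : 0 ≤ Real.log κ := Real.log_nonneg (by linarith)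
    have h4 : 3 * d * Real.log κ / δ ≤ Real.log (Λ₀ * (j.1.2 : ℝ) ^ d) := by
      refine le_trans ?_ b2
      rw [Real.le_log_iff_exp_le (by linarith [hYpos j])]
      exact h3
    rw [div_le_iff₀ hδ] at h4
    have h5 : ∀ p ∈ Sw M₀ j.1.1 j.1.2, (1 - δ) * Real.log (Λ₀ * (j.1.2 : ℝ) ^ d) ≤
        d * Real.log (Λ₀ ^ (1 / (d : ℝ)) * p.1.1) := by
      intro p hp
      obtain ⟨h5, h6, h7⟩ := hmem j p hp
      have hj1 : (0 : ℝ) < j.1.1 := by exact_mod_cast j.2.1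
      rw [hlogQ _ (by omega)]
      have h8 : Real.log (j.1.2 : ℝ) ≤ 3 * Real.log κ + Real.log (p.1.1 : ℝ) := by
        have h9 : (j.1.2 : ℝ) ≤ κ ^ 3 * p.1.1 := by
          refine j.2.2.2.trans (mul_le_mul_of_nonneg_left ?_ (by positivity))
          exact_mod_cast h5.le
        have h10 := Real.log_le_log (by linarith [hYpos j]) h9
        have hp1 : (0 : ℝ) < p.1.1 := by
          have : 0 < p.1.1 := by omega
          exact_mod_cast this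
        rw [Real.log_mul (by positivity) hp1.ne', Real.log_pow] at h10
        push_cast at h10
        exact h10
      have h9 := mul_le_mul_of_nonneg_left h8 (by linarith : (0 : ℝ) ≤ d)
      have h10 := hlogX (j.1.2 : ℝ) (by linarith [hYpos j])
      linarith
    have h6 := Finset.card_nsmul_le_sum _ _ _ h5
    rw [nsmul_eq_mul] at h6
    linarith
  · -- the large sieve
    obtain ⟨e, he⟩ : ∃ e : ℝ, e = 2 - d * l₂ := ⟨_, rfl⟩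
    have he0 : 0 < e := by linarith
    obtain ⟨W, hW⟩ : ∃ W : ℝ, W = (Λ₀ * κ ^ (3 * d)) ^ l₂ / ζ := ⟨_, rfl⟩
    have hW0 : 0 < W := by rw [hW]; positivity
    obtain ⟨X0, hX0⟩ := thr_Y hΛ hd1 (κ ^ 3 * (W ^ (1 / e)))
    refine ⟨X0, fun j hj M hM => ?_⟩
    refine (hls j.1.1 j.1.2 j.2.1 j.2.2.1 j.2.2.2).2 M (hM.trans ?_) c₀ hc₀
    have h1 := (hX0 _ (by linarith [hYpos j]) hj).trans j.2.2.2
    have h2 : W ^ (1 / e) ≤ (j.1.1 : ℝ) := le_of_mul_le_mul_left h1 (by positivity)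
    have hj1 : (0 : ℝ) < j.1.1 := by exact_mod_cast j.2.1
    have h3 : W ≤ (j.1.1 : ℝ) ^ e := by
      have h4 := Real.rpow_le_rpow (by positivity) h2 he0.le
      rw [← Real.rpow_mul hW0.le, one_div_mul_cancel he0.ne', Real.rpow_one] at h4
      exact h4
    have h5 : (Λ₀ * (j.1.2 : ℝ) ^ d) ^ l₂ ≤ (Λ₀ * κ ^ (3 * d)) ^ l₂ * (j.1.1 : ℝ) ^ (d * l₂) := by
      have h6 : Λ₀ * (j.1.2 : ℝ) ^ d ≤ (Λ₀ * κ ^ (3 * d)) * (j.1.1 : ℝ) ^ d := by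
        have h7 := pow_le_pow_left₀ (by linarith [hYpos j]) j.2.2.2 d
        have h8 := mul_le_mul_of_nonneg_left h7 hΛ0.le
        refine h8.trans (le_of_eq ?_)
        rw [mul_pow, ← pow_mul]
        ring
      have h9 := Real.rpow_le_rpow (by positivity) h6 hl2.le
      refine h9.trans (le_of_eq ?_)
      rw [Real.mul_rpow (by positivity) (by positivity), ← Real.rpow_natCast (j.1.1 : ℝ) d,
        ← Real.rpow_mul hj1.le]
    refine h5.trans ?_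
    rw [hW, div_le_iff₀ hζ] at h3
    have h6 : (j.1.1 : ℝ) ^ 2 = (j.1.1 : ℝ) ^ e * (j.1.1 : ℝ) ^ (d * l₂) := by
      rw [← Real.rpow_add hj1, he, ← Real.rpow_natCast]
      congr 1
      push_cast
      ring
    rw [h6]
    calc (Λ₀ * κ ^ (3 * d)) ^ l₂ * (j.1.1 : ℝ) ^ (d * l₂) ≤
        ((j.1.1 : ℝ) ^ e * ζ) * (j.1.1 : ℝ) ^ (d * l₂) := by gcongr
      _ = _ := by ring
  · intro ν hν
    obtain ⟨Cn, hCn, hnc⟩ := ncs_le' hB hP
    obtain ⟨X0, hX0⟩ := thr_Y hΛ hd1 (max Y2 (Real.exp (Cn / ν)))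
    refine ⟨X0, fun j hj p hp M => ?_⟩
    refine (hnc (ac c₀ p.1) (norm_ac_le hc₀ p.1) M).trans ?_
    have h1 := hX0 _ (by linarith [hYpos j]) hj
    have h2 : Y2 ≤ (j.1.2 : ℝ) := (le_max_left _ _).trans h1
    have h3 : Real.exp (Cn / ν) ≤ (j.1.2 : ℝ) := (le_max_right _ _).trans h1
    obtain ⟨b1, b2, b3⟩ := hbig _ h2
    have h4 : Cn / ν ≤ Real.log (Λ₀ * (j.1.2 : ℝ) ^ d) := by
      refine le_trans ?_ b2
      rw [Real.le_log_iff_exp_le (by linarith [hYpos j])]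
      exact h3
    rw [div_le_iff₀ hν] at h4
    linarith
  · intro ν hν
    obtain ⟨Cn, hCn, hnc⟩ := ncr_le (ν := ν / 2) (by positivity)
    obtain ⟨X0, hX0⟩ := thr_Y hΛ hd1 (max Y2 (Real.exp (Real.log P + 2 * Cn / ν)))
    refine ⟨X0, fun j hj M r hr hrY => ?_⟩
    refine (hnc M r hr).trans ?_
    have h1 := hX0 _ (by linarith [hYpos j]) hj
    have h2 : Y2 ≤ (j.1.2 : ℝ) := (le_max_left _ _).trans h1
    have h3 : Real.exp (Real.log P + 2 * Cn / ν) ≤ (j.1.2 : ℝ) := (le_max_right _ _).trans h1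
    obtain ⟨b1, b2, b3⟩ := hbig _ h2
    have hY0 : (0 : ℝ) < j.1.2 := by linarith [hYpos j]
    have hP0 : (0 : ℝ) < P := by exact_mod_cast hP
    have h4 : Real.log P + 2 * Cn / ν ≤ Real.log (j.1.2 : ℝ) := by
      rw [Real.le_log_iff_exp_le hY0]
      exact h3
    have h5 : Real.log r ≤ Real.log P + Real.log (j.1.2 : ℝ) := by
      rw [← Real.log_mul hP0.ne' hY0.ne']
      refine Real.log_le_log (by exact_mod_cast hr) ?_
      exact_mod_cast hrY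
    have h6 : 2 * Real.log (j.1.2 : ℝ) ≤ Real.log (Λ₀ * (j.1.2 : ℝ) ^ d) := by
      rw [hlogX _ hY0]
      have h7 := mul_le_mul_of_nonneg_right hd0 (by linarith : (0 : ℝ) ≤ Real.log (j.1.2 : ℝ))
      have h8 := Real.log_nonneg hΛ
      linarith
    have h7 : ν / 2 * Real.log r + Cn ≤ ν / 2 * (2 * Real.log (j.1.2 : ℝ)) := by
      have h8 := mul_le_mul_of_nonneg_left h5 (by positivity : (0 : ℝ) ≤ ν / 2)
      have h9 := mul_le_mul_of_nonneg_left h4 (by positivity : (0 : ℝ) ≤ ν / 2)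
      have h10 : ν / 2 * (Real.log P + 2 * Cn / ν) = ν / 2 * Real.log P + Cn := by
        field_simp
      rw [h10] at h9
      linarith
    refine h7.trans ?_
    have h8 := mul_le_mul_of_nonneg_left h6 (by positivity : (0 : ℝ) ≤ ν / 2)
    have h9 : 0 ≤ ν / 2 * Real.log (Λ₀ * (j.1.2 : ℝ) ^ d) := by
      have : 0 ≤ Real.log (Λ₀ * (j.1.2 : ℝ) ^ d) := by linarith
      positivity
    linarith
  · obtain ⟨X0, hX0⟩ := thr_Y hΛ hd1 Y0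
    exact ⟨k0, Q', X0, hQ', fun j hj t ht k hk =>
      hfar j.1.1 j.1.2 j.2.1 j.2.2.2 (hmass j) (hX0 _ (by linarith [hYpos j]) hj) t ht k hk⟩
  · obtain ⟨X0, hX0⟩ := thr_Y hΛ hd1 Y1
    exact ⟨b, C, X0, hb, hC, fun j hj t ht r hr0 hr1 =>
      hnear j.1.1 j.1.2 j.2.1 j.2.2.2 (hmass j) (hX0 _ (by linarith [hYpos j]) hj) t ht r hr0 hr1⟩

end

end Pool.Agent.T9h27.Y
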