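import Pool.Agent.T9h27.Y.TwFD
import Pool.Agent.T9h27.Z.IQ
import Pool.Agent.Y772.NC.D3

/-!
# The theorem for the twists (helper27)
-/

set_option autoImplicit false

open Filter Topology MeasureTheory

namespace Pool.Agent.T9h27.Y

open Pool.Agent.T9h27.Z (GoodW NCs consts2)
open Pool.Agent.T9h27.D (NS)
open Pool.Agent.T9h27.W (TwData GM)
open H385 (Rw primFamM primSetM mem_primSetM primFamM_eq primFamM_mono primFamM_lin IX)
open H370 (zset NN Ns Nd mult)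

/-- the proportion -/
noncomputable def pd (d : ℕ) : ℝ := if d = 2 then 0.6725 else 0.27945

lemma pd_two : pd 2 = 0.6725 := if_pos rfl

lemma pd_three : pd 3 = 0.27945 := if_neg (by norm_num)

/-- the constants, degree 3 -/
theorem consts3 : ∃ γ l D : ℝ, 0 < γ ∧ γ < Real.pi ∧ 1 / 2 ≤ l ∧ 3 * l < 2 ∧ 1 < D ∧
    Rw γ 0 / l + 2 * l * D * (∫ α in (0 : ℝ)..1, α * Rw γ α) < 1.72055 := by
  obtain ⟨γ, hγ⟩ : ∃ γ : ℝ, γ = 0.943 := ⟨_, rfl⟩
  have h0 : 0 < γ := by rw [hγ]; norm_num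
  have hπ : γ < Real.pi := by rw [hγ]; linarith [Real.pi_gt_three]
  have hconst := Pool.Agent.Y772.NC.Rw_const_d3
  rw [← hγ] at hconst
  obtain ⟨R, hR⟩ : ∃ R : ℝ, R = Rw γ 0 := ⟨_, rfl⟩
  obtain ⟨I1, hI1⟩ : ∃ I1 : ℝ, I1 = ∫ α in (0 : ℝ)..1, α * Rw γ α := ⟨_, rfl⟩
  rw [← hR, ← hI1] at hconst
  have hcont : ContinuousAt (fun t : ℝ => R / t + 2 * t * (5 / 3 - t) * I1) (2 / 3) := by
    have : (2 / 3 : ℝ) ≠ 0 := by norm_num
    fun_prop (disch := assumption)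
  have hlt : (fun t : ℝ => R / t + 2 * t * (5 / 3 - t) * I1) (2 / 3) < 1.72055 := by
    change R / (2 / 3) + 2 * (2 / 3) * (5 / 3 - 2 / 3) * I1 < 1.72055
    linarith
  have hev := hcont.eventually_lt_const hlt
  obtain ⟨r, hr, hball⟩ := Metric.eventually_nhds_iff.mp hev
  obtain ⟨t, ht⟩ : ∃ t : ℝ, t = 2 / 3 - min (r / 2) (1 / 6) := ⟨_, rfl⟩
  have hm1 : 0 < min (r / 2) (1 / 6) := lt_min (by positivity) (by norm_num)
  have hm2 : min (r / 2) (1 / 6) ≤ 1 / 6 := min_le_right _ _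
  have hm3 : min (r / 2) (1 / 6) ≤ r / 2 := min_le_left _ _
  have htr := hball (y := t) (by rw [Real.dist_eq, abs_lt]; constructor <;> linarith)
  change R / t + 2 * t * (5 / 3 - t) * I1 < 1.72055 at htr
  refine ⟨γ, t, 5 / 3 - t, h0, hπ, by linarith, by linarith, by linarith, ?_⟩
  rw [← hR, ← hI1]
  exact htr

/-- the constants -/
theorem constsd {d : ℕ} (hd : d = 2 ∨ d = 3) : ∃ γ l D : ℝ, 0 < γ ∧ γ < Real.pi ∧ 1 / 2 ≤ l ∧
    d * l < 2 ∧ 1 < D ∧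
    Rw γ 0 / l + 2 * l * D * (∫ α in (0 : ℝ)..1, α * Rw γ α) < 2 - pd d := by
  rcases hd with rfl | rfl
  · obtain ⟨γ, l, D, h1, h2, h3, h4, h5, h6⟩ := consts2
    refine ⟨γ, l, D, h1, h2, h3, ?_, h5, ?_⟩
    · push_cast
      linarith
    · rw [pd_two]
      refine h6.trans_le ?_
      norm_num
  · obtain ⟨γ, l, D, h1, h2, h3, h4, h5, h6⟩ := consts3
    refine ⟨γ, l, D, h1, h2, h3, ?_, h5, ?_⟩
    · push_cast
      linarith
    · rw [pd_three]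
      refine h6.trans_le ?_
      norm_num

lemma blocks {κ : ℝ} (hκ : 2 ≤ κ) {M₀ : ℕ} {G : (q : ℕ) → DirichletCharacter ℂ q → ℝ} {X₁ : ℕ}
    (hX₁ : 1 ≤ X₁) (h : ∀ X Y : ℕ, X₁ ≤ X → κ * X ≤ Y → (Y : ℝ) ≤ κ ^ 3 * X →
      primFamM M₀ X Y G ≤ 0) :
    ∀ X Y : ℕ, X₁ ≤ X → κ * X ≤ Y → primFamM M₀ X Y G ≤ 0 := by
  have key : ∀ n : ℕ, ∀ X Y : ℕ, Y - X ≤ n → X₁ ≤ X → κ * X ≤ Y → primFamM M₀ X Y G ≤ 0 := by
    intro n
    induction n with
    | zero =>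
      intro X Y hn hX hXY
      exfalso
      have h1 : (1 : ℝ) ≤ X := by exact_mod_cast hX₁.trans hX
      have h2 : (Y : ℝ) ≤ X := by exact_mod_cast (by omega : Y ≤ X)
      nlinarith
    | succ n ih =>
      intro X Y hn hX hXY
      by_cases hb : (Y : ℝ) ≤ κ ^ 3 * X
      · exact h X Y hX hXY hb
      push Not at hb
      have hX1 : (1 : ℝ) ≤ X := by exact_mod_cast hX₁.trans hX
      obtain ⟨X', hX'⟩ : ∃ X' : ℕ, X' = ⌈κ * X⌉₊ := ⟨_, rfl⟩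
      have a1 : κ * X ≤ X' := by rw [hX']; exact Nat.le_ceil _
      have a2 : (X' : ℝ) < κ * X + 1 := by
        rw [hX']
        exact Nat.ceil_lt_add_one (by positivity)
      have c1 : 2 * (X : ℝ) ≤ κ * X := mul_le_mul_of_nonneg_right hκ (by linarith)
      have a3 : X < X' := by
        have : (X : ℝ) < X' := by linarith
        exact_mod_cast this
      have c2 : 1 ≤ κ * X := by linarith
      have c3 : κ * X + 1 ≤ κ ^ 2 * X := by
        have e1 : κ ^ 2 * X = κ * (κ * X) := by ring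
        rw [e1]
        nlinarith
      have c4 : κ ^ 2 * X ≤ κ ^ 3 * X := by
        have e1 : κ ^ 3 * X = κ * (κ ^ 2 * X) := by ring
        rw [e1]
        exact le_mul_of_one_le_left (by positivity) (by linarith)
      have a4 : κ * X' ≤ Y := by
        have e1 : κ * X' ≤ κ * (κ ^ 2 * X) :=
          mul_le_mul_of_nonneg_left (by linarith) (by linarith)
        have e2 : κ * (κ ^ 2 * X) = κ ^ 3 * X := by ring
        linarith
      have a5 : X' ≤ Y := by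
        have : (X' : ℝ) ≤ Y := by
          have e1 : (X' : ℝ) ≤ κ * X' := le_mul_of_one_le_left (Nat.cast_nonneg _) (by linarith)
          linarith
        exact_mod_cast this
      rw [primFamM_add M₀ a3.le a5]
      have b1 := h X X' hX a1 (by linarith)
      have b2 := ih X' Y (by omega) (by omega) a4
      linarith
  exact fun X Y => key (Y - X) X Y le_rfl

lemma primFamM_sub_le {M X Y : ℕ} {a b : ℝ} {f g : (q : ℕ) → DirichletCharacter ℂ q → ℝ} :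
    a * primFamM M X Y f ≤ b * primFamM M X Y g ↔
      primFamM M X Y (fun q χ => a * f q χ - b * g q χ) ≤ 0 := by
  rw [primFamM_lin]
  constructor <;> intro h <;> linarith

section

variable {M : Type} [CommMonoidWithZero M] [NormalizationMonoid M]
    [UniqueFactorizationMonoid M] [Subsingleton Mˣ] [Nontrivial M] {N : M →*₀ ℕ} {n₀ : ℕ}
    {ψ : M →*₀ ℂ} {d : ℕ} {A Λ₀ : ℝ} {M₀ : ℕ}
    {c : (Σ q : ℕ, DirichletCharacter ℂ q) → M →*₀ ℂ}
    {F : (Σ q : ℕ, DirichletCharacter ℂ q) → ℂ → ℂ}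

/-- the family, with its constants -/
theorem fd_tw' (hN : NS N n₀) (hD : TwData N ψ d A Λ₀ (GM M₀) c F) (hM₀ : M₀ ≠ 0)
    (hd : d = 2 ∨ d = 3) {A' : ℝ} (hA' : 1 ≤ A') {c₀ : ℕ → ℂ} {B : ℝ} (hB : 0 ≤ B)
    (hc₀ : ∀ m, ‖c₀ m‖ ≤ B)
    (hgood : ∀ i, GM M₀ i → GoodW d A' (Λ₀ ^ (1 / (d : ℝ)) * i.1) (F i) (ac c₀ i)) :
    ∃ (γ l D l₂ g cf κ : ℝ) (P : ℕ) (D' : ℝ), 0 < γ ∧ γ < Real.pi ∧ 1 / 2 ≤ l ∧ l < l₂ ∧ l₂ ≤ 1 ∧
      g ≤ l ∧ 1 < D ∧
      Rw γ 0 / l + 2 * l * D * (∫ α in (0 : ℝ)..1, α * Rw γ α) < 2 - pd d ∧ 2 ≤ κ ∧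
      (∀ X Y : ℕ, 1 ≤ X → κ * X ≤ Y → 1 ≤ primFamM M₀ X Y (fun _ _ => 1)) ∧
      FD (J := JT κ) (ι := fun _ => Σ _ : IX, ℕ) (fun j => Sw M₀ j.1.1 j.1.2)
        (fun _ p => F p.1) (fun _ p => ac c₀ p.1) (fun _ p => Λ₀ ^ (1 / (d : ℝ)) * p.1.1)
        (fun j => Λ₀ * (j.1.2 : ℝ) ^ d) (fun _ => P) (fun j => P * j.1.2) c₀ d A' l₂ D D' g cf
        (1 / 500) := by
  obtain ⟨γ, l, D, h1, h2, h3, h4, h5, h6⟩ := constsd hd
  rcases hd with rfl | rfl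
  · push_cast at h4
    obtain ⟨κ, P, D', hκ, hms, hfd⟩ := fd_tw hN hD hM₀ le_rfl (by norm_num) hA' hB hc₀ hgood
      (g := 2 / 5) (cf := 9 / 10) (l₂ := (l + 1) / 2) (D := D) (by linarith)
      (by push_cast; linarith) h5 (by norm_num) (by norm_num) (by linarith) (by norm_num)
      (by push_cast; norm_num)
    exact ⟨γ, l, D, (l + 1) / 2, 2 / 5, 9 / 10, κ, P, D', h1, h2, h3, by linarith, by linarith,
      by linarith, h5, h6, hκ, hms, hfd⟩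
  · push_cast at h4
    obtain ⟨κ, P, D', hκ, hms, hfd⟩ := fd_tw hN hD hM₀ (by norm_num) le_rfl hA' hB hc₀ hgood
      (g := 1 / 4) (cf := 3 / 10) (l₂ := (l + 2 / 3) / 2) (D := D) (by linarith)
      (by push_cast; linarith) h5 (by norm_num) (by norm_num) (by linarith) (by norm_num)
      (by push_cast; norm_num)
    exact ⟨γ, l, D, (l + 2 / 3) / 2, 1 / 4, 3 / 10, κ, P, D', h1, h2, h3, by linarith,
      by linarith, by linarith, h5, h6, hκ, hms, hfd⟩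

end

end Pool.Agent.T9h27.Y
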